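import Mathlib
set_option autoImplicit false

/-!
# Existence of primitive characters with prescribed parity
-/

namespace Pool.Agent.H80.Sig

open Finset

/-- Dirichlet characters with complex values -/
abbrev DC (f : ℕ) := DirichletCharacter ℂ f

/-- primitive characters -/
def Prim {f : ℕ} (χ : DC f) : Prop :=
  ∀ l : ℕ, l.Prime → l ∣ f → ∃ u : ℕ, u.Coprime f ∧ u ≡ 1 [MOD f / l] ∧ χ (u : ZMod f) ≠ 1

lemma sep_unit {G : Type*} [CommGroup G] [Finite G] (s g : G) (h : g ∉ Subgroup.zpowers s) :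
    ∃ φ : G →* ℂˣ, φ s = 1 ∧ φ g ≠ 1 := by
  have hne : (QuotientGroup.mk g : G ⧸ Subgroup.zpowers s) ≠ 1 := by
    rwa [Ne, QuotientGroup.eq_one_iff]
  obtain ⟨φ, hφ⟩ := CommGroup.exists_apply_ne_one_of_hasEnoughRootsOfUnity
    (G ⧸ Subgroup.zpowers s) ℂ hne
  refine ⟨φ.comp (QuotientGroup.mk' _), ?_, ?_⟩
  · have : (QuotientGroup.mk' (Subgroup.zpowers s)) s = 1 := by
      rw [QuotientGroup.mk'_apply, QuotientGroup.eq_one_iff]
      exact Subgroup.mem_zpowers s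
    rw [MonoidHom.comp_apply, this, map_one]
  · simpa using hφ

lemma sep_even {c : ℕ} [NeZero c] {g : ℕ} (hg : g.Coprime c) (h1 : ¬ g ≡ 1 [MOD c])
    (h2 : ¬ c ∣ g + 1) : ∃ χ : DC c, χ (-1) = 1 ∧ χ (g : ZMod c) ≠ 1 := by
  set u : (ZMod c)ˣ := ZMod.unitOfCoprime g hg with hu
  have huv : (u : ZMod c) = (g : ZMod c) := by simp [hu]
  have hnot : u ∉ Subgroup.zpowers (-1 : (ZMod c)ˣ) := by
    rintro ⟨k, hk⟩
    simp only at hk
    rcases Int.even_or_odd k with hk' | hk'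
    · rw [hk'.neg_one_zpow] at hk
      apply h1
      rw [← ZMod.natCast_eq_natCast_iff, ← huv, ← hk]
      simp
    · rw [hk'.neg_one_zpow] at hk
      apply h2
      rw [← ZMod.natCast_eq_zero_iff]
      push_cast
      rw [← huv, ← hk]
      simp
  obtain ⟨φ, hφ1, hφ2⟩ := sep_unit (-1 : (ZMod c)ˣ) u hnot
  refine ⟨MulChar.ofUnitHom φ, ?_, ?_⟩
  · have h3 : ((-1 : (ZMod c)ˣ) : ZMod c) = -1 := by simp
    rw [← h3, MulChar.ofUnitHom_coe, hφ1]
    simp
  · rw [← huv, MulChar.ofUnitHom_coe]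
    intro h
    apply hφ2
    exact Units.ext h

lemma sep_any {c : ℕ} [NeZero c] {g : ℕ} (h1 : ¬ g ≡ 1 [MOD c]) :
    ∃ χ : DC c, χ (g : ZMod c) ≠ 1 := by
  apply DirichletCharacter.exists_apply_ne_one_of_hasEnoughRootsOfUnity ℂ
  intro h
  apply h1
  rw [← ZMod.natCast_eq_natCast_iff, h]
  simp

lemma neg_one_ne_one {c : ℕ} (hc : 3 ≤ c) : (-1 : ZMod c) ≠ 1 := by
  intro h
  have : ((2 : ℕ) : ZMod c) = 0 := by
    have h2 : (1 : ZMod c) + 1 = 0 := by
      nth_rewrite 1 [← h]; ring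
    push_cast; rw [← h2]; norm_num
  rw [ZMod.natCast_eq_zero_iff] at this
  have := Nat.le_of_dvd (by norm_num) this
  omega

lemma parity_sq {c : ℕ} (χ : DC c) : χ (-1) = 1 ∨ χ (-1) = -1 := by
  have h : χ (-1) * χ (-1) = 1 := by
    rw [← map_mul]; simp
  have h2 : (χ (-1) - 1) * (χ (-1) + 1) = 0 := by ring_nf; ring_nf at h; rw [h]; ring
  rcases mul_eq_zero.1 h2 with h3 | h3
  · left; exact sub_eq_zero.1 h3
  · right; exact eq_neg_of_add_eq_zero_left h3

lemma exists_odd {c : ℕ} (hc : 3 ≤ c) : ∃ χ : DC c, χ (-1) = -1 := by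
  have : NeZero c := ⟨by omega⟩
  obtain ⟨χ, hχ⟩ := DirichletCharacter.exists_apply_ne_one_of_hasEnoughRootsOfUnity ℂ
    (neg_one_ne_one hc)
  exact ⟨χ, (parity_sq χ).resolve_left hχ⟩

lemma sep_odd {c : ℕ} (hc : 3 ≤ c) {g : ℕ} (h1 : ¬ g ≡ 1 [MOD c]) :
    ∃ χ : DC c, χ (-1) = -1 ∧ χ (g : ZMod c) ≠ 1 := by
  have : NeZero c := ⟨by omega⟩
  obtain ⟨χ₁, hχ₁⟩ := exists_odd hc
  obtain ⟨χ₂, hχ₂⟩ := sep_any (c := c) h1
  by_cases h2 : χ₁ (g : ZMod c) = 1
  · rcases parity_sq χ₂ with h3 | h3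
    · refine ⟨χ₁ * χ₂, ?_, ?_⟩
      · rw [MulChar.mul_apply, hχ₁, h3, mul_one]
      · rw [MulChar.mul_apply, h2, one_mul]; exact hχ₂
    · exact ⟨χ₂, h3, hχ₂⟩
  · exact ⟨χ₁, hχ₁, h2⟩

/-- the kernel element of a prime power -/
lemma kernel_elt {p n : ℕ} (hp : p.Prime) (hn : 2 ≤ n) :
    (1 + p ^ (n - 1)).Coprime (p ^ n) ∧ 1 + p ^ (n - 1) ≡ 1 [MOD p ^ n / p] ∧
      ¬ 1 + p ^ (n - 1) ≡ 1 [MOD p ^ n] ∧ (5 ≤ p ^ n → ¬ p ^ n ∣ 1 + p ^ (n - 1) + 1) ∧
      (1 + p ^ (n - 1)) ^ p ≡ 1 [MOD p ^ n] := by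
  obtain ⟨m, rfl⟩ : ∃ m, n = m + 2 := ⟨n - 2, by omega⟩
  have e1 : m + 2 - 1 = m + 1 := by omega
  rw [e1]
  have hpp : 0 < p ^ (m + 1) := pow_pos hp.pos _
  have e2 : p ^ (m + 2) = p * p ^ (m + 1) := by ring
  have e3 : p ^ (m + 2) / p = p ^ (m + 1) := by
    rw [e2]; exact Nat.mul_div_cancel_left _ hp.pos
  refine ⟨?_, ?_, ?_, ?_, ?_⟩
  · apply Nat.Coprime.pow_right
    rw [Nat.coprime_comm, hp.coprime_iff_not_dvd]
    intro h
    have h2 : p ∣ p ^ (m + 1) := dvd_pow_self p (by omega)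
    have h3 := (Nat.dvd_add_left h2).1 h
    exact hp.one_lt.ne' (Nat.dvd_one.1 h3)
  · rw [e3]
    have := Nat.ModEq.add_left 1 (Nat.modEq_zero_iff_dvd.2 (dvd_refl (p ^ (m + 1))))
    simpa using this
  · intro h
    have h2 : p ^ (m + 1) ≡ 0 [MOD p ^ (m + 2)] := Nat.ModEq.add_left_cancel' 1 h
    have h3 := Nat.modEq_zero_iff_dvd.1 h2
    have h4 := Nat.le_of_dvd hpp h3
    rw [e2] at h4
    have := hp.two_le
    nlinarith
  · intro h5 h
    have h4 := Nat.le_of_dvd (by omega) h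
    have := hp.two_le
    have hr : p ≤ p ^ (m + 1) := by
      calc p = p ^ 1 := (pow_one p).symm
        _ ≤ p ^ (m + 1) := Nat.pow_le_pow_right hp.pos (by omega)
    rw [e2] at h4 h5
    nlinarith
  · have h2 : ((1 + p ^ (m + 1) : ℕ) : ℤ) ^ p ≡ 1 ^ p [ZMOD (p ^ (m + 2) : ℕ)] := by
      have h3 : (p ^ (m + 2) : ℤ) ∣ ((1 + p ^ (m + 1) : ℕ) : ℤ) ^ p - 1 ^ p := by
        have h4 : (p : ℤ) ∣ ((1 + p ^ (m + 1) : ℕ) : ℤ) - 1 := by
          push_cast; ring_nf; exact ⟨p ^ m, by ring⟩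
        have h5 : ((1 + p ^ (m + 1) : ℕ) : ℤ) ^ p - 1 ^ p =
            (((1 + p ^ (m + 1) : ℕ) : ℤ) - 1) *
              ∑ i ∈ range p, ((1 + p ^ (m + 1) : ℕ) : ℤ) ^ i := by
          rw [one_pow, mul_comm, geom_sum_mul]
        rw [h5]
        have h6 : (((1 + p ^ (m + 1) : ℕ) : ℤ) - 1) = (p : ℤ) ^ (m + 1) := by push_cast; ring
        rw [h6]
        have h7 : (p : ℤ) ∣ ∑ i ∈ range p, ((1 + p ^ (m + 1) : ℕ) : ℤ) ^ i := by
          have h8 : (∑ i ∈ range p, ((1 + p ^ (m + 1) : ℕ) : ℤ) ^ i) ≡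
              ∑ _i ∈ range p, (1 : ℤ) [ZMOD p] := by
            apply Int.ModEq.sum
            intro i _
            have : ((1 + p ^ (m + 1) : ℕ) : ℤ) ≡ 1 [ZMOD p] := by
              rw [Int.modEq_iff_dvd, ← dvd_neg]
              simpa using h4
            simpa using this.pow i
          rw [Finset.sum_const, card_range, nsmul_eq_mul, mul_one] at h8
          exact (Int.modEq_zero_iff_dvd.1 (h8.trans (Int.modEq_zero_iff_dvd.2 (dvd_refl _))))
        have h9 : (p : ℤ) ^ (m + 2) = p ^ (m + 1) * p := by ring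
        rw [h9]
        exact mul_dvd_mul_left _ h7
      rw [Int.modEq_iff_dvd, ← dvd_neg]
      push_cast at h3 ⊢
      simpa using h3
    rw [one_pow] at h2
    have : (((1 + p ^ (m + 1)) ^ p : ℕ) : ℤ) ≡ ((1 : ℕ) : ℤ) [ZMOD (p ^ (m + 2) : ℕ)] := by
      push_cast at h2 ⊢; exact h2
    exact (Int.natCast_modEq_iff.1 this)

lemma prim_of {p n : ℕ} (hp : p.Prime) {χ : DC (p ^ n)} {u : ℕ} (hu : u.Coprime (p ^ n))
    (h1 : u ≡ 1 [MOD p ^ n / p]) (h2 : χ (u : ZMod (p ^ n)) ≠ 1) : Prim χ := by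
  intro l hl hd
  have : l = p := (Nat.prime_dvd_prime_iff_eq hl hp).1 (hl.dvd_of_dvd_pow hd)
  subst this
  exact ⟨u, hu, h1, h2⟩

lemma coprime_pred {c : ℕ} (hc : 2 ≤ c) : (c - 1).Coprime c := by
  obtain ⟨k, rfl⟩ : ∃ k, c = k + 1 := ⟨c - 1, by omega⟩
  simp

lemma cast_pred {c : ℕ} (hc : 1 ≤ c) : ((c - 1 : ℕ) : ZMod c) = -1 := by
  rw [Nat.cast_sub hc]; simp

/-- odd primitive characters -/
lemma exists_prim_odd {p n : ℕ} (hp : p.Prime) (hc : 3 ≤ p ^ n) :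
    ∃ χ : DC (p ^ n), χ (-1) = -1 ∧ Prim χ := by
  rcases Nat.lt_or_ge n 2 with hn | hn
  · have : n = 1 := by
      rcases Nat.eq_zero_or_pos n with h | h
      · subst h; simp at hc
      · omega
    subst this
    obtain ⟨χ, hχ⟩ := exists_odd hc
    refine ⟨χ, hχ, prim_of hp (coprime_pred (by omega)) ?_ ?_⟩
    · rw [pow_one, Nat.div_self hp.pos]; exact Nat.modEq_one
    · rw [cast_pred (by omega), hχ]; norm_num
  · obtain ⟨h1, h2, h3, _, _⟩ := kernel_elt hp hn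
    obtain ⟨χ, hχ1, hχ2⟩ := sep_odd hc h3
    exact ⟨χ, hχ1, prim_of hp h1 h2 hχ2⟩

/-- even primitive characters -/
lemma exists_prim_even {p n : ℕ} (hp : p.Prime) (hc : 5 ≤ p ^ n) :
    ∃ χ : DC (p ^ n), χ (-1) = 1 ∧ Prim χ := by
  have : NeZero (p ^ n) := ⟨by omega⟩
  rcases Nat.lt_or_ge n 2 with hn | hn
  · have : n = 1 := by
      rcases Nat.eq_zero_or_pos n with h | h
      · subst h; simp at hc
      · omega
    subst this
    rw [pow_one] at hc
    have hcop : Nat.Coprime 2 (p ^ 1) := by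
      rw [pow_one, Nat.coprime_primes Nat.prime_two hp]; omega
    obtain ⟨χ, hχ, h2⟩ := sep_even (c := p ^ 1) (g := 2) hcop (by
      rw [pow_one]; intro h
      have h' : 2 % p = 1 % p := h
      rw [Nat.mod_eq_of_lt (by omega), Nat.mod_eq_of_lt (by omega)] at h'
      omega) (by
      rw [pow_one]; intro h
      have := Nat.le_of_dvd (by norm_num) h
      omega)
    refine ⟨χ, hχ, prim_of hp hcop ?_ h2⟩
    rw [pow_one, Nat.div_self hp.pos]; exact Nat.modEq_one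
  · obtain ⟨h1, h2, h3, h4, _⟩ := kernel_elt hp hn
    obtain ⟨χ, hχ1, hχ2⟩ := sep_even h1 h3 (h4 hc)
    exact ⟨χ, hχ1, prim_of hp h1 h2 hχ2⟩

lemma two_not {c : ℕ} (hc : 5 ≤ c) : ¬ 2 ≡ 1 [MOD c] ∧ ¬ c ∣ 2 + 1 := by
  constructor
  · intro h
    have h' : 2 % c = 1 % c := h
    rw [Nat.mod_eq_of_lt (by omega), Nat.mod_eq_of_lt (by omega)] at h'
    omega
  · intro h
    have := Nat.le_of_dvd (by norm_num) h
    omega

lemma eq_one_of_pow {z : ℂ} {p : ℕ} (hp : Odd p) (h2 : z ^ 2 = 1) (hz : z ^ p = 1) : z = 1 := by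
  obtain ⟨j, hj⟩ := hp
  rw [hj, pow_succ, pow_mul, h2, one_pow, one_mul] at hz
  exact hz

/-- two primitive characters of the given parity with different values at `2` -/
lemma exists_two {p n : ℕ} (hp : p.Prime) (hp2 : p ≠ 2) (hc : 5 ≤ p ^ n) (ε : ℂ)
    (hε : ε = -1 ∨ (ε = 1 ∧ 7 ≤ p ^ n)) :
    ∃ χ χ' : DC (p ^ n), χ (-1) = ε ∧ χ' (-1) = ε ∧ Prim χ ∧ Prim χ' ∧
      χ ((2 : ℕ) : ZMod (p ^ n)) ≠ χ' ((2 : ℕ) : ZMod (p ^ n)) := by
  have : NeZero (p ^ n) := ⟨by omega⟩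
  have hcop : Nat.Coprime 2 (p ^ n) :=
    Nat.Coprime.pow_right _ ((Nat.coprime_primes Nat.prime_two hp).2 hp2.symm)
  have h2u : IsUnit ((2 : ℕ) : ZMod (p ^ n)) := (ZMod.isUnit_iff_coprime 2 (p ^ n)).2 hcop
  obtain ⟨e, he1, he2⟩ := sep_even (c := p ^ n) (g := 2) hcop (two_not hc).1 (two_not hc).2
  rcases Nat.lt_or_ge n 2 with hn | hn
  · have : n = 1 := by
      rcases Nat.eq_zero_or_pos n with h | h
      · subst h; simp at hc
      · omega
    subst this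
    have hmod : ∀ u : ℕ, u ≡ 1 [MOD p ^ 1 / p] := by
      intro u; rw [pow_one, Nat.div_self hp.pos]; exact Nat.modEq_one
    rcases hε with rfl | ⟨rfl, h7⟩
    · obtain ⟨χ, hχ⟩ := exists_odd (c := p ^ 1) (by omega)
      have hχe : (χ * e) (-1) = -1 := by rw [MulChar.mul_apply, hχ, he1, mul_one]
      refine ⟨χ, χ * e, hχ, hχe, ?_, ?_, ?_⟩
      · refine prim_of hp (coprime_pred (by omega)) (hmod _) ?_
        rw [cast_pred (by omega), hχ]; norm_num
      · refine prim_of hp (coprime_pred (by omega)) (hmod _) ?_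
        rw [cast_pred (by omega), hχe]; norm_num
      · rw [MulChar.mul_apply]
        intro h
        apply he2
        have hne : χ ((2 : ℕ) : ZMod (p ^ 1)) ≠ 0 := (h2u.map χ).ne_zero
        have : χ ((2 : ℕ) : ZMod (p ^ 1)) * (e ((2 : ℕ) : ZMod (p ^ 1)) - 1) = 0 := by
          rw [mul_sub, ← h]; ring
        exact sub_eq_zero.1 ((mul_eq_zero.1 this).resolve_left hne)
    · have hcop4 : Nat.Coprime 4 (p ^ 1) := by
        have : 4 = 2 * 2 := rfl
        rw [this]; exact Nat.Coprime.mul_left hcop hcop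
      obtain ⟨χ, hχ, h4⟩ := sep_even (c := p ^ 1) (g := 4) hcop4 (by
        intro h
        have h' : 4 % (p ^ 1) = 1 % (p ^ 1) := h
        rw [Nat.mod_eq_of_lt (by omega), Nat.mod_eq_of_lt (by omega)] at h'
        omega) (by
        intro h
        have := Nat.le_of_dvd (by norm_num) h
        omega)
      have h4' : χ ((4 : ℕ) : ZMod (p ^ 1)) = χ ((2 : ℕ) : ZMod (p ^ 1)) ^ 2 := by
        rw [← map_pow]; congr 1; push_cast; norm_num
      have hinv : χ⁻¹ ((2 : ℕ) : ZMod (p ^ 1)) = (χ ((2 : ℕ) : ZMod (p ^ 1)))⁻¹ := by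
        rw [MulChar.inv_apply_eq_inv']
      refine ⟨χ, χ⁻¹, hχ, ?_, prim_of hp hcop4 (hmod _) h4, prim_of hp hcop4 (hmod _) ?_, ?_⟩
      · rw [MulChar.inv_apply_eq_inv', hχ, inv_one]
      · rw [MulChar.inv_apply_eq_inv']
        intro h; apply h4
        rw [← inv_inv (χ ((4 : ℕ) : ZMod (p ^ 1))), h, inv_one]
      · rw [hinv]
        intro h
        apply h4
        rw [h4']
        have hne : χ ((2 : ℕ) : ZMod (p ^ 1)) ≠ 0 := (h2u.map χ).ne_zero
        rw [sq]; nth_rewrite 2 [h]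
        exact mul_inv_cancel₀ hne
  · obtain ⟨h1, h2, h3, h4, h5⟩ := kernel_elt hp hn
    set k := 1 + p ^ (n - 1) with hk
    have hku : IsUnit ((k : ℕ) : ZMod (p ^ n)) := (ZMod.isUnit_iff_coprime k (p ^ n)).2 h1
    obtain ⟨χ, hχ1, hχ2⟩ : ∃ χ : DC (p ^ n), χ (-1) = ε ∧ χ ((k : ℕ) : ZMod (p ^ n)) ≠ 1 := by
      rcases hε with rfl | ⟨rfl, _⟩
      · exact sep_odd (by omega) h3
      · exact sep_even h1 h3 (h4 hc)
    have hχ2u : χ ((2 : ℕ) : ZMod (p ^ n)) ≠ 0 := (h2u.map χ).ne_zero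
    by_cases hprod : (χ * e) ((k : ℕ) : ZMod (p ^ n)) = 1
    · -- use `χ * e⁻¹`
      refine ⟨χ, χ * e⁻¹, hχ1, ?_, prim_of hp h1 h2 hχ2, prim_of hp h1 h2 ?_, ?_⟩
      · rw [MulChar.mul_apply, MulChar.inv_apply_eq_inv', he1, inv_one, mul_one, hχ1]
      · intro h
        rw [MulChar.mul_apply, MulChar.inv_apply_eq_inv'] at h
        rw [MulChar.mul_apply] at hprod
        have hek : e ((k : ℕ) : ZMod (p ^ n)) ≠ 0 := (hku.map e).ne_zero
        have hsq : χ ((k : ℕ) : ZMod (p ^ n)) ^ 2 = 1 := by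
          have h6 : χ ((k : ℕ) : ZMod (p ^ n)) = e ((k : ℕ) : ZMod (p ^ n)) := by
            have := mul_inv_eq_one₀ hek |>.1 h
            exact this
          rw [sq]; nth_rewrite 2 [h6]; exact hprod
        have hpow : χ ((k : ℕ) : ZMod (p ^ n)) ^ p = 1 := by
          rw [← map_pow]
          have : ((k : ℕ) : ZMod (p ^ n)) ^ p = 1 := by
            have h7 := (ZMod.natCast_eq_natCast_iff _ _ _).2 h5
            push_cast at h7 ⊢
            exact h7
          rw [this, map_one]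
        exact hχ2 (eq_one_of_pow (hp.odd_of_ne_two hp2) hsq hpow)
      · rw [MulChar.mul_apply, MulChar.inv_apply_eq_inv']
        intro h
        apply he2
        have : χ ((2 : ℕ) : ZMod (p ^ n)) * ((e ((2 : ℕ) : ZMod (p ^ n)))⁻¹ - 1) = 0 := by
          rw [mul_sub, ← h]; ring
        have h8 := sub_eq_zero.1 ((mul_eq_zero.1 this).resolve_left hχ2u)
        rw [← inv_inv (e ((2 : ℕ) : ZMod (p ^ n))), h8, inv_one]
    · refine ⟨χ, χ * e, hχ1, ?_, prim_of hp h1 h2 hχ2, prim_of hp h1 h2 hprod, ?_⟩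
      · rw [MulChar.mul_apply, he1, mul_one, hχ1]
      · rw [MulChar.mul_apply]
        intro h
        apply he2
        have : χ ((2 : ℕ) : ZMod (p ^ n)) * (e ((2 : ℕ) : ZMod (p ^ n)) - 1) = 0 := by
          rw [mul_sub, ← h]; ring
        exact sub_eq_zero.1 ((mul_eq_zero.1 this).resolve_left hχ2u)

/-- the product of two characters with coprime moduli -/
noncomputable def prodC {c d : ℕ} (ξ : DC c) (ψ : DC d) : DC (c * d) :=
  DirichletCharacter.changeLevel (Dvd.intro d rfl) ξ *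
    DirichletCharacter.changeLevel (Dvd.intro_left c rfl) ψ

lemma prodC_apply {c d : ℕ} (ξ : DC c) (ψ : DC d) {n : ℕ} (hn : n.Coprime (c * d)) :
    prodC ξ ψ (n : ZMod (c * d)) = ξ (n : ZMod c) * ψ (n : ZMod d) := by
  unfold prodC
  rw [MulChar.mul_apply]
  have hu : ((ZMod.unitOfCoprime n hn : (ZMod (c * d))ˣ) : ZMod (c * d)) = (n : ZMod (c * d)) := by
    simp
  rw [← hu, DirichletCharacter.changeLevel_eq_cast_of_dvd,
    DirichletCharacter.changeLevel_eq_cast_of_dvd, hu]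
  rw [ZMod.cast_natCast (Dvd.intro d rfl), ZMod.cast_natCast (Dvd.intro_left c rfl)]

lemma prodC_neg_one {c d : ℕ} (ξ : DC c) (ψ : DC d) :
    prodC ξ ψ (-1) = ξ (-1) * ψ (-1) := by
  unfold prodC
  rw [MulChar.mul_apply]
  have hu : ((-1 : (ZMod (c * d))ˣ) : ZMod (c * d)) = -1 := by simp
  rw [← hu, DirichletCharacter.changeLevel_eq_cast_of_dvd,
    DirichletCharacter.changeLevel_eq_cast_of_dvd, hu]
  rw [ZMod.cast_neg (Dvd.intro d rfl), ZMod.cast_one (Dvd.intro d rfl),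
    ZMod.cast_neg (Dvd.intro_left c rfl), ZMod.cast_one (Dvd.intro_left c rfl)]

lemma natcast_congr {c : ℕ} {a b : ℕ} (h : a ≡ b [MOD c]) : ((a : ℕ) : ZMod c) = (b : ZMod c) :=
  (ZMod.natCast_eq_natCast_iff _ _ _).2 h

lemma cop_of_modEq {U u m : ℕ} (h : U ≡ u [MOD m]) (hu : Nat.Coprime u m) : Nat.Coprime U m := by
  unfold Nat.Coprime at *
  rw [Nat.ModEq.gcd_eq h]; exact hu

lemma prodC_prim {c d : ℕ} (hcd : Nat.Coprime c d) {ξ : DC c} {ψ : DC d} (hξ : Prim ξ)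
    (hψ : Prim ψ) : Prim (prodC ξ ψ) := by
  intro l hl hd
  rcases (hl.dvd_mul).1 hd with h | h
  · obtain ⟨u, hu1, hu2, hu3⟩ := hξ l hl h
    obtain ⟨w, hw1, hw2⟩ := Nat.chineseRemainder hcd u 1
    have hwc : Nat.Coprime w c := cop_of_modEq hw1 hu1
    have hwd : Nat.Coprime w d := cop_of_modEq hw2 (Nat.coprime_one_left d)
    refine ⟨w, Nat.Coprime.mul_right hwc hwd, ?_, ?_⟩
    · have e : c * d / l = (c / l) * d := by
        obtain ⟨k, rfl⟩ := h
        rw [mul_assoc, Nat.mul_div_cancel_left _ hl.pos, Nat.mul_div_cancel_left _ hl.pos]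
      rw [e]
      have hdv : c / l ∣ c := Nat.div_dvd_of_dvd h
      rw [← Nat.modEq_and_modEq_iff_modEq_mul (Nat.Coprime.coprime_dvd_left hdv hcd)]
      exact ⟨(hw1.of_dvd hdv).trans hu2, hw2⟩
    · rw [prodC_apply ξ ψ (Nat.Coprime.mul_right hwc hwd), natcast_congr hw1, natcast_congr hw2]
      simpa using hu3
  · obtain ⟨u, hu1, hu2, hu3⟩ := hψ l hl h
    obtain ⟨w, hw1, hw2⟩ := Nat.chineseRemainder hcd 1 u
    have hwd : Nat.Coprime w d := cop_of_modEq hw2 hu1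
    have hwc : Nat.Coprime w c := cop_of_modEq hw1 (Nat.coprime_one_left c)
    refine ⟨w, Nat.Coprime.mul_right hwc hwd, ?_, ?_⟩
    · have e : c * d / l = c * (d / l) := by
        obtain ⟨k, rfl⟩ := h
        rw [mul_left_comm, Nat.mul_div_cancel_left _ hl.pos, Nat.mul_div_cancel_left _ hl.pos]
      rw [e]
      have hdv : d / l ∣ d := Nat.div_dvd_of_dvd h
      rw [← Nat.modEq_and_modEq_iff_modEq_mul (Nat.Coprime.coprime_dvd_right hdv hcd)]
      exact ⟨hw1, (hw2.of_dvd hdv).trans hu2⟩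
    · rw [prodC_apply ξ ψ (Nat.Coprime.mul_right hwc hwd), natcast_congr hw1, natcast_congr hw2]
      simpa using hu3

/-- primitive characters exist for all moduli which are not `2` modulo `4` -/
lemma exists_prim (f : ℕ) (hf : 0 < f) (h4 : ¬ f % 4 = 2) : ∃ χ : DC f, Prim χ := by
  induction f using Nat.recOnPosPrimePosCoprime with
  | prime_pow p n hp hn =>
    have h3 : 3 ≤ p ^ n := by
      have h2 : 2 ≤ p ^ n := by
        calc 2 ≤ p := hp.two_le
          _ = p ^ 1 := (pow_one p).symm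
          _ ≤ p ^ n := Nat.pow_le_pow_right hp.pos hn
      rcases Nat.lt_or_ge 2 (p ^ n) with h | h
      · exact h
      · have : p ^ n = 2 := le_antisymm h h2
        rw [this] at h4; simp at h4
    obtain ⟨χ, _, h⟩ := exists_prim_odd hp h3
    exact ⟨χ, h⟩
  | zero => omega
  | one =>
    refine ⟨1, ?_⟩
    intro l hl hd
    exact absurd (Nat.dvd_one.1 hd) hl.one_lt.ne'
  | coprime a b ha hb hab iha ihb =>
    have h1 : ¬ a % 4 = 2 ∧ ¬ b % 4 = 2 := by
      have hodd : a % 2 = 1 ∨ b % 2 = 1 := by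
        by_contra hcon
        push Not at hcon
        have ha2 : 2 ∣ a := by omega
        have hb2 : 2 ∣ b := by omega
        have := Nat.dvd_gcd ha2 hb2
        rw [hab] at this
        omega
      have hmod : a * b % 4 = (a % 4) * (b % 4) % 4 := Nat.mul_mod a b 4
      have h5 : a % 4 < 4 := Nat.mod_lt _ (by norm_num)
      have h6 : b % 4 < 4 := Nat.mod_lt _ (by norm_num)
      constructor
      · intro h
        have hb' : b % 4 = 1 ∨ b % 4 = 3 := by omega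
        apply h4
        rcases hb' with h' | h' <;> rw [hmod, h, h']
      · intro h
        have ha' : a % 4 = 1 ∨ a % 4 = 3 := by omega
        apply h4
        rcases ha' with h' | h' <;> rw [hmod, h, h']
    obtain ⟨ξ, hξ⟩ := iha (by omega) h1.1
    obtain ⟨ψ, hψ⟩ := ihb (by omega) h1.2
    exact ⟨prodC ξ ψ, prodC_prim hab hξ hψ⟩

lemma combine_odd {p n d : ℕ} (hp : p.Prime) (hc : 5 ≤ p ^ n) (hcd : Nat.Coprime (p ^ n) d)
    (hd : 0 < d) (h4 : ¬ d % 4 = 2) : ∃ χ : DC (p ^ n * d), χ (-1) = -1 ∧ Prim χ := by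
  obtain ⟨ψ, hψ⟩ := exists_prim d hd h4
  rcases parity_sq ψ with h | h
  · obtain ⟨ξ, h1, h2⟩ := exists_prim_odd hp (n := n) (by omega)
    exact ⟨prodC ξ ψ, by rw [prodC_neg_one, h1, h]; ring, prodC_prim hcd h2 hψ⟩
  · obtain ⟨ξ, h1, h2⟩ := exists_prim_even hp hc
    exact ⟨prodC ξ ψ, by rw [prodC_neg_one, h1, h]; ring, prodC_prim hcd h2 hψ⟩

lemma combine_two {p n d : ℕ} (hp : p.Prime) (hp2 : p ≠ 2) (hc : 7 ≤ p ^ n)
    (hcd : Nat.Coprime (p ^ n) d) (hd : Odd d) :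
    ∃ χ χ' : DC (p ^ n * d), χ (-1) = -1 ∧ χ' (-1) = -1 ∧ Prim χ ∧ Prim χ' ∧
      χ ((2 : ℕ) : ZMod (p ^ n * d)) ≠ χ' ((2 : ℕ) : ZMod (p ^ n * d)) := by
  have hd0 : 0 < d := hd.pos
  obtain ⟨j, hj⟩ := hd
  obtain ⟨ψ, hψ⟩ := exists_prim d hd0 (by omega)
  have h2d : Nat.Coprime 2 d := by
    rw [Nat.coprime_two_left]; exact ⟨j, hj⟩
  have h2c : Nat.Coprime 2 (p ^ n) :=
    Nat.Coprime.pow_right _ ((Nat.coprime_primes Nat.prime_two hp).2 hp2.symm)
  have hψ2 : ψ ((2 : ℕ) : ZMod d) ≠ 0 := (((ZMod.isUnit_iff_coprime 2 d).2 h2d).map ψ).ne_zero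
  have key : ∀ ξ ξ' : DC (p ^ n), ξ ((2 : ℕ) : ZMod (p ^ n)) ≠ ξ' ((2 : ℕ) : ZMod (p ^ n)) →
      prodC ξ ψ ((2 : ℕ) : ZMod (p ^ n * d)) ≠ prodC ξ' ψ ((2 : ℕ) : ZMod (p ^ n * d)) := by
    intro ξ ξ' h h'
    rw [prodC_apply _ _ (Nat.Coprime.mul_right h2c h2d),
      prodC_apply _ _ (Nat.Coprime.mul_right h2c h2d)] at h'
    exact h (mul_right_cancel₀ hψ2 h')
  rcases parity_sq ψ with h | h
  · obtain ⟨ξ, ξ', a1, a2, a3, a4, a5⟩ := exists_two hp hp2 (n := n) (by omega) (-1) (Or.inl rfl)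
    exact ⟨prodC ξ ψ, prodC ξ' ψ, by rw [prodC_neg_one, a1, h]; ring,
      by rw [prodC_neg_one, a2, h]; ring, prodC_prim hcd a3 hψ, prodC_prim hcd a4 hψ, key _ _ a5⟩
  · obtain ⟨ξ, ξ', a1, a2, a3, a4, a5⟩ := exists_two hp hp2 (n := n) (by omega) 1
      (Or.inr ⟨rfl, hc⟩)
    exact ⟨prodC ξ ψ, prodC ξ' ψ, by rw [prodC_neg_one, a1, h]; ring,
      by rw [prodC_neg_one, a2, h]; ring, prodC_prim hcd a3 hψ, prodC_prim hcd a4 hψ, key _ _ a5⟩

lemma split_prime {f p : ℕ} (hf : 0 < f) (hp : p.Prime) (hd : p ∣ f) :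
    ∃ e m, 0 < e ∧ f = p ^ e * m ∧ Nat.Coprime (p ^ e) m ∧ ¬ p ∣ m := by
  obtain ⟨e, m, hm, rfl⟩ := Nat.exists_eq_pow_mul_and_not_dvd hf.ne' p hp.ne_one
  refine ⟨e, m, ?_, rfl, Nat.Coprime.pow_left _ ((hp.coprime_iff_not_dvd).2 hm), hm⟩
  rcases Nat.eq_zero_or_pos e with h | h
  · subst h; rw [pow_zero, one_mul] at hd; exact absurd hd hm
  · exact h

lemma le_pow_self' {p e : ℕ} (hp : 0 < p) (he : 0 < e) : p ≤ p ^ e := by
  calc p = p ^ 1 := (pow_one p).symm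
    _ ≤ p ^ e := Nat.pow_le_pow_right hp he

lemma smooth {m : ℕ} (hm : 0 < m) {q : ℕ} (h : ∀ p, p.Prime → p ∣ m → p = q) :
    ∃ b, m = q ^ b := by
  rcases Nat.eq_or_lt_of_le (Nat.one_le_iff_ne_zero.2 hm.ne') with h1 | h1
  · exact ⟨0, by rw [← h1, pow_zero]⟩
  · exact ⟨m.primeFactorsList.length, Nat.eq_prime_pow_of_unique_prime_dvd hm.ne' (fun {d} hd hdm => h d hd hdm)⟩

/-- odd primitive characters exist for all moduli `f > 2`, `f` not `2` modulo `4`, except `12` -/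
lemma exists_odd_prim (f : ℕ) (h3 : 3 ≤ f) (h4 : ¬ f % 4 = 2) (h12 : f ≠ 12) :
    ∃ χ : DC f, χ (-1) = -1 ∧ Prim χ := by
  by_cases h5 : ∃ p, p.Prime ∧ 5 ≤ p ∧ p ∣ f
  · obtain ⟨p, hp, hp5, hd⟩ := h5
    obtain ⟨e, m, he, rfl, hcop, hm⟩ := split_prime (by omega) hp hd
    have hpodd : Odd (p ^ e) := (hp.odd_of_ne_two (by omega)).pow
    have hle := le_pow_self' hp.pos he
    have hm0 : 0 < m := by
      rcases Nat.eq_zero_or_pos m with h | h
      · subst h; simp at hm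
      · exact h
    refine combine_odd hp (by omega) hcop hm0 ?_
    intro h
    apply h4
    obtain ⟨j, hj⟩ := hpodd
    have hmod : p ^ e * m % 4 = (p ^ e % 4) * (m % 4) % 4 := Nat.mul_mod _ _ 4
    have : p ^ e % 4 = 1 ∨ p ^ e % 4 = 3 := by omega
    rcases this with h' | h' <;> rw [hmod, h, h']
  · push Not at h5
    obtain ⟨a, m, hm, rfl⟩ := Nat.exists_eq_pow_mul_and_not_dvd (n := f) (by omega) 2 (by norm_num)
    have hm0 : 0 < m := by
      rcases Nat.eq_zero_or_pos m with h | h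
      · subst h; simp at hm
      · exact h
    obtain ⟨b, rfl⟩ : ∃ b, m = 3 ^ b := by
      apply smooth hm0
      intro p hp hpm
      by_contra hne
      have h6 := h5 p hp
      have h7 : p < 5 := by
        by_contra hlt
        exact h6 (by omega) (hpm.mul_left _)
      have h8 := hp.two_le
      have : p ≠ 2 := by rintro rfl; exact hm hpm
      have : p ≠ 4 := by rintro rfl; revert hp; decide
      omega
    have hcop : Nat.Coprime (2 ^ a) (3 ^ b) := Nat.Coprime.pow _ _ (by norm_num)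
    have h3b : ¬ 3 ^ b % 4 = 2 := by
      have : Odd (3 ^ b) := Odd.pow (by decide)
      obtain ⟨j, hj⟩ := this
      omega
    rcases Nat.lt_or_ge a 3 with ha | ha
    · rcases Nat.lt_or_ge b 2 with hb | hb
      · interval_cases a <;> interval_cases b <;> simp at h3 h4 h12
        · exact exists_prim_odd (p := 3) (n := 1) Nat.prime_three (by norm_num)
        · exact exists_prim_odd (p := 2) (n := 2) Nat.prime_two (by norm_num)
      · have h9 : 5 ≤ 3 ^ b := by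
          calc 5 ≤ 3 ^ 2 := by norm_num
            _ ≤ 3 ^ b := Nat.pow_le_pow_right (by norm_num) hb
        rw [mul_comm (2 ^ a) (3 ^ b)]
        refine combine_odd Nat.prime_three h9 hcop.symm (by positivity) ?_
        intro h
        apply h4
        have : a = 1 := by
          interval_cases a <;> simp at h ⊢
        subst this
        have : Odd (3 ^ b) := Odd.pow (by decide)
        obtain ⟨j, hj⟩ := this
        omega
    · refine combine_odd Nat.prime_two ?_ hcop (by positivity) h3b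
      calc 5 ≤ 2 ^ 3 := by norm_num
        _ ≤ 2 ^ a := Nat.pow_le_pow_right (by norm_num) ha

/-- two odd primitive characters with different values at `2` -/
lemma exists_two_prim (f : ℕ) (hf : Odd f) (h1 : f ≠ 1) (h3 : f ≠ 3) (h15 : f ≠ 15) :
    ∃ χ χ' : DC f, χ (-1) = -1 ∧ χ' (-1) = -1 ∧ Prim χ ∧ Prim χ' ∧
      χ ((2 : ℕ) : ZMod f) ≠ χ' ((2 : ℕ) : ZMod f) := by
  have hf0 : 0 < f := hf.pos
  by_cases h7 : ∃ p, p.Prime ∧ 7 ≤ p ∧ p ∣ f
  · obtain ⟨p, hp, hp7, hd⟩ := h7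
    obtain ⟨e, m, he, rfl, hcop, hm⟩ := split_prime hf0 hp hd
    have hle := le_pow_self' hp.pos he
    exact combine_two hp (by omega) (by omega) hcop (Nat.odd_mul.1 hf).2
  · push Not at h7
    obtain ⟨b, m, hm, rfl⟩ := Nat.exists_eq_pow_mul_and_not_dvd (n := f) (by omega) 3 (by norm_num)
    have hm0 : 0 < m := by
      rcases Nat.eq_zero_or_pos m with h | h
      · subst h; simp at hm
      · exact h
    obtain ⟨a, rfl⟩ : ∃ a, m = 5 ^ a := by
      apply smooth hm0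
      intro p hp hpm
      by_contra hne
      have h6 := h7 p hp
      have h7 : p < 7 := by
        by_contra hlt
        exact h6 (by omega) (hpm.mul_left _)
      have h8 := hp.two_le
      have : p ≠ 2 := by
        rintro rfl
        have h9 := (Nat.odd_mul.1 hf).2
        obtain ⟨j, hj⟩ := h9
        omega
      have : p ≠ 3 := by rintro rfl; exact hm hpm
      have : p ≠ 4 := by rintro rfl; revert hp; decide
      have : p ≠ 6 := by rintro rfl; revert hp; decide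
      omega
    have hcop : Nat.Coprime (3 ^ b) (5 ^ a) := Nat.Coprime.pow _ _ (by norm_num)
    rcases Nat.lt_or_ge b 2 with hb | hb
    · rcases Nat.lt_or_ge a 2 with ha | ha
      · interval_cases a <;> interval_cases b <;> simp at h1 h3 h15
        exact exists_two (p := 5) (n := 1) Nat.prime_five (by norm_num) (by norm_num) (-1)
          (Or.inl rfl)
      · rw [mul_comm (3 ^ b) (5 ^ a)]
        refine combine_two Nat.prime_five (by norm_num) ?_ hcop.symm (Odd.pow (by decide))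
        calc 7 ≤ 5 ^ 2 := by norm_num
          _ ≤ 5 ^ a := Nat.pow_le_pow_right (by norm_num) ha
    · refine combine_two Nat.prime_three (by norm_num) ?_ hcop (Odd.pow (by decide))
      calc 7 ≤ 3 ^ 2 := by norm_num
        _ ≤ 3 ^ b := Nat.pow_le_pow_right (by norm_num) hb

end Pool.Agent.H80.Sig
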