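import Pool.Agent.H80.Sig.Last
set_option autoImplicit false

/-!
# Cotangents at rational points
-/

namespace Pool.Agent.H80.Sig

open Finset

/-- `cot (π h / N)` -/
noncomputable def ct (N h : ℕ) : ℝ := Real.cos (Real.pi * (h / N)) / Real.sin (Real.pi * (h / N))

lemma K_eq_ct (N h : ℕ) : K N h = Complex.I * (ct N h : ℂ) := by
  set θ : ℝ := Real.pi * ((h : ℝ) / N) with hθ
  set c : ℂ := (Real.cos θ : ℂ) with hc
  set s : ℂ := (Real.sin θ : ℂ) with hs
  have hcs : c ^ 2 + s ^ 2 = 1 := by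
    rw [hc, hs]
    exact_mod_cast Real.cos_sq_add_sin_sq θ
  have hI : Complex.I ^ 2 = -1 := Complex.I_sq
  have he : ee ((h : ℝ) / N) = (c - s * Complex.I) ^ 2 := by
    have h1 : c - s * Complex.I = Complex.exp (-(θ : ℂ) * Complex.I) := by
      rw [hc, hs, Complex.ofReal_cos, Complex.ofReal_sin, Complex.cos_sub_sin_I]
    rw [h1, ← Complex.exp_nat_mul]
    unfold ee
    congr 1
    rw [hθ]; push_cast; ring
  have hw : (c - s * Complex.I) * (c + s * Complex.I) = 1 := by
    linear_combination hcs - s ^ 2 * hI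
  have hw0 : c - s * Complex.I ≠ 0 := by
    intro h0; rw [h0, zero_mul] at hw; exact zero_ne_one hw
  have e1 : 1 + ee ((h : ℝ) / N) = 2 * c * (c - s * Complex.I) := by
    rw [he]; linear_combination s ^ 2 * hI - hcs
  have e2 : ee ((h : ℝ) / N) - 1 = -2 * s * Complex.I * (c - s * Complex.I) := by
    rw [he]; linear_combination -s ^ 2 * hI + hcs
  unfold K ct
  rw [e1, e2, ← hθ]
  push_cast
  rw [← Complex.ofReal_cos, ← Complex.ofReal_sin, ← hc, ← hs]
  by_cases hs0 : s = 0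
  · rw [hs0]; simp
  · have : -2 * s * Complex.I * (c - s * Complex.I) ≠ 0 :=
      mul_ne_zero (mul_ne_zero (mul_ne_zero (by norm_num) hs0) Complex.I_ne_zero) hw0
    rw [mul_div_assoc', div_eq_div_iff this hs0]
    linear_combination 2 * c * s * (c - s * Complex.I) * hI

lemma ct_congr {N : ℕ} (hN : 0 < N) {h h' : ℕ} (e : h ≡ h' [MOD N]) : ct N h = ct N h' := by
  have h1 := K_congr hN e
  rw [K_eq_ct, K_eq_ct] at h1
  have h2 := mul_left_cancel₀ Complex.I_ne_zero h1
  exact_mod_cast h2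

lemma cot_lt {x y : ℝ} (hx : 0 < x) (hxy : x < y) (hy : y < Real.pi) :
    Real.cos y / Real.sin y < Real.cos x / Real.sin x := by
  have h1 : 0 < Real.sin x := Real.sin_pos_of_pos_of_lt_pi hx (by linarith)
  have h2 : 0 < Real.sin y := Real.sin_pos_of_pos_of_lt_pi (by linarith) hy
  have h3 : 0 < Real.sin (y - x) := Real.sin_pos_of_pos_of_lt_pi (by linarith) (by linarith)
  rw [Real.sin_sub] at h3
  rw [div_lt_div_iff₀ h2 h1]
  linarith

/-- comparison of cotangents -/
lemma ct_lt_gen {N N' h h' : ℕ} (h0 : 0 < h) (h1 : h * N' < h' * N) (h2 : h' < N') :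
    ct N' h' < ct N h := by
  have hN' : 0 < N' := by omega
  have hN : 0 < N := by
    rcases Nat.eq_zero_or_pos N with h | h
    · subst h; simp at h1
    · exact h
  have a : (0 : ℝ) < N := by exact_mod_cast hN
  have a' : (0 : ℝ) < N' := by exact_mod_cast hN'
  have b : (0 : ℝ) < h := by exact_mod_cast h0
  have c : (h : ℝ) / N < (h' : ℝ) / N' := by
    rw [div_lt_div_iff₀ a a']; exact_mod_cast h1
  have d : (h' : ℝ) / N' < 1 := by
    rw [div_lt_one a']; exact_mod_cast h2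
  apply cot_lt
  · exact mul_pos Real.pi_pos (div_pos b a)
  · exact mul_lt_mul_of_pos_left c Real.pi_pos
  · calc Real.pi * ((h' : ℝ) / N') < Real.pi * 1 := mul_lt_mul_of_pos_left d Real.pi_pos
      _ = Real.pi := mul_one _

lemma ct_lt {N h h' : ℕ} (h0 : 0 < h) (h1 : h < h') (h2 : h' < N) : ct N h' < ct N h :=
  ct_lt_gen h0 (Nat.mul_lt_mul_of_pos_right h1 (by omega)) h2

lemma ct_neg {N h : ℕ} (hN : 0 < N) (h1 : h ≤ N) : ct N (N - h) = - ct N h := by
  have a : (N : ℝ) ≠ 0 := by exact_mod_cast hN.ne'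
  have e : Real.pi * (((N - h : ℕ) : ℝ) / N) = Real.pi - Real.pi * (h / N) := by
    rw [Nat.cast_sub h1]; field_simp
  unfold ct
  rw [e, Real.cos_pi_sub, Real.sin_pi_sub, neg_div]

lemma ct_pos {N h : ℕ} (h0 : 0 < h) (h1 : 2 * h < N) : 0 < ct N h := by
  have a : (0 : ℝ) < N := by exact_mod_cast (by omega : 0 < N)
  have b : (0 : ℝ) < h := by exact_mod_cast h0
  have c : (2 : ℝ) * h < N := by exact_mod_cast h1
  have hx : 0 < Real.pi * ((h : ℝ) / N) := mul_pos Real.pi_pos (div_pos b a)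
  have hy : Real.pi * ((h : ℝ) / N) < Real.pi / 2 := by
    have : (h : ℝ) / N < 1 / 2 := by
      rw [div_lt_div_iff₀ a (by norm_num)]; linarith
    have := mul_lt_mul_of_pos_left this Real.pi_pos
    linarith
  unfold ct
  apply div_pos
  · exact Real.cos_pos_of_mem_Ioo ⟨by linarith, hy⟩
  · exact Real.sin_pos_of_pos_of_lt_pi hx (by linarith [Real.pi_pos])

lemma mod_pos {M u : ℕ} (hM : 2 ≤ M) (hu : u.Coprime M) : 0 < u % M := by
  rcases Nat.eq_zero_or_pos (u % M) with h | h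
  · exfalso
    have h1 : M ∣ u := Nat.dvd_of_mod_eq_zero h
    have h2 : M ∣ Nat.gcd u M := Nat.dvd_gcd h1 (dvd_refl M)
    rw [hu] at h2
    have := Nat.dvd_one.1 h2
    omega
  · exact h

lemma ct_le_one {M u : ℕ} (hM : 2 ≤ M) (hu : u.Coprime M) : ct M u ≤ ct M 1 := by
  have h1 : ct M u = ct M (u % M) := ct_congr (by omega) (Nat.mod_modEq _ _).symm
  have h2 := mod_pos hM hu
  have h3 : u % M < M := Nat.mod_lt _ (by omega)
  rw [h1]
  rcases Nat.lt_or_ge 1 (u % M) with h | h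
  · exact (ct_lt one_pos h h3).le
  · have : u % M = 1 := by omega
    rw [this]

lemma ct_lt_one {M u : ℕ} (hM : 2 ≤ M) (hu : u.Coprime M) (h : ¬ u ≡ 1 [MOD M]) :
    ct M u < ct M 1 := by
  have h1 : ct M u = ct M (u % M) := ct_congr (by omega) (Nat.mod_modEq _ _).symm
  have h2 := mod_pos hM hu
  have h3 : u % M < M := Nat.mod_lt _ (by omega)
  rw [h1]
  refine ct_lt one_pos ?_ h3
  by_contra hc
  apply h
  have : u % M = 1 := by omega
  unfold Nat.ModEq
  rw [this, Nat.mod_eq_of_lt (by omega : 1 < M)]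

/-- There is another unit in the class of `x` modulo `n / l`. -/
lemma escape {n l x : ℕ} (hn : 0 < n) (hl : l.Prime) (hln : l ∣ n) (h2 : l = 2 → 4 ∣ n)
    (hx : x.Coprime n) : ∃ j : ℕ, (j = 1 ∨ (j = 2 ∧ 3 ≤ l)) ∧ (x + j * (n / l)).Coprime n := by
  obtain ⟨g, rfl⟩ := hln
  have hg : 0 < g := Nat.pos_of_mul_pos_left hn
  have hdiv : l * g / l = g := Nat.mul_div_cancel_left _ hl.pos
  rw [hdiv]
  -- coprimality to `l` suffices
  have key : ∀ j : ℕ, ¬ l ∣ x + j * g → (x + j * g).Coprime (l * g) := by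
    intro j hj
    apply Nat.Coprime.mul_right
    · exact ((hl.coprime_iff_not_dvd).2 hj).symm
    · have h1 : x.Coprime g := Nat.Coprime.coprime_dvd_right (Dvd.intro_left l rfl) hx
      rw [Nat.coprime_add_mul_right_left]
      exact h1
  have hxl : ¬ l ∣ x := by
    intro h
    have h3 : l ∣ Nat.gcd x (l * g) := Nat.dvd_gcd h (Dvd.intro g rfl)
    rw [hx] at h3
    exact hl.one_lt.ne' (Nat.dvd_one.1 h3)
  by_cases hlg : l ∣ g
  · refine ⟨1, Or.inl rfl, key 1 ?_⟩
    intro h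
    rw [one_mul] at h
    exact hxl ((Nat.dvd_add_left hlg).1 h)
  · have hl3 : 3 ≤ l := by
      rcases Nat.lt_or_ge l 3 with h | h
      · exfalso
        have h4 : l = 2 := by have := hl.two_le; omega
        have h5 := h2 h4
        rw [h4] at h5 hlg
        obtain ⟨k, hk⟩ := h5
        exact hlg ⟨k, by omega⟩
      · exact h
    by_cases h1 : l ∣ x + 1 * g
    · refine ⟨2, Or.inr ⟨rfl, hl3⟩, key 2 ?_⟩
      intro h3
      have h4 : l ∣ (x + 2 * g) - (x + 1 * g) := Nat.dvd_sub h3 h1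
      have h5 : (x + 2 * g) - (x + 1 * g) = g := by omega
      rw [h5] at h4
      exact hlg h4
    · exact ⟨1, Or.inl rfl, key 1 h1⟩

/-- `n` divides `M` up to a factor `2`. -/
lemma cond_dvd {n M : ℕ}
    (h : ∀ l k : ℕ, l.Prime → l ^ k ∣ n → ¬ l ^ k ∣ M → (l = 2 → 4 ∣ n) → False) :
    n ∣ M ∨ ∃ g, Odd g ∧ n = 2 * g ∧ g ∣ M := by
  have hodd : ∀ {m l k : ℕ}, Odd m → l.Prime → l ^ k ∣ m → ¬ l ^ k ∣ M → l ≠ 2 := by
    rintro m l k hm hl h1 h2 rfl
    have hk : k ≠ 0 := by rintro rfl; exact h2 (by simp)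
    have h3 : 2 ∣ m := (dvd_pow_self 2 hk).trans h1
    exact (Nat.not_even_iff_odd.2 hm) (even_iff_two_dvd.2 h3)
  by_cases hc : n % 4 = 2
  · right
    refine ⟨n / 2, by rw [Nat.odd_iff]; omega, by omega, ?_⟩
    have hg : Odd (n / 2) := by rw [Nat.odd_iff]; omega
    rw [Nat.dvd_iff_prime_pow_dvd_dvd]
    intro l k hl hk
    by_contra hcon
    exact h l k hl (hk.trans (Nat.div_dvd_of_dvd (by omega))) hcon
      (fun h2 => absurd h2 (hodd hg hl hk hcon))
  · left
    rw [Nat.dvd_iff_prime_pow_dvd_dvd]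
    intro l k hl hk
    by_contra hcon
    refine h l k hl hk hcon (fun h2 => ?_)
    by_cases he : Odd n
    · exact absurd h2 (hodd he hl hk hcon)
    · rw [Nat.odd_iff] at he
      omega

lemma exists_inv {d f : ℕ} (hf : 0 < f) (hc : d.Coprime f) : ∃ e : ℕ, d * e ≡ 1 [MOD f] := by
  rcases Nat.lt_or_ge 1 f with h | h
  · obtain ⟨m, _, hm⟩ := Nat.exists_mul_mod_eq_one_of_coprime hc h
    refine ⟨m, ?_⟩
    unfold Nat.ModEq
    rw [hm, Nat.mod_eq_of_lt h]
  · have : f = 1 := by omega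
    subst this
    exact ⟨0, Nat.modEq_one⟩

lemma modEq_two {L u : ℕ} (hL : 2 ∣ L) (hu : u.Coprime L) : u ≡ 1 [MOD 2] := by
  have h1 : u.Coprime 2 := Nat.Coprime.coprime_dvd_right hL hu
  rw [Nat.coprime_two_right] at h1
  exact (Nat.odd_iff.1 h1)

/-- A two-term identity between cotangents which never holds. -/
theorem two_terms {f d M₁ M₂ L : ℕ} {A a₁ a₂ : ℝ} (hL : 0 < L) (hf : f ∣ L) (h1 : M₁ ∣ L)
    (h2 : M₂ ∣ L) (hM1 : 6 ≤ M₁) (hM2 : 6 ≤ M₂) (hd : 2 ≤ d) (hdf : 4 * d < f)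
    (hc : d.Coprime f) (hA : A = a₁ + a₂) (hA0 : 0 < A) (ha : a₂ < 0)
    (hrel : ∀ u : ℕ, u.Coprime L → A * ct f (d * u) = a₁ * ct M₁ u + a₂ * ct M₂ u) : False := by
  have : NeZero L := ⟨hL.ne'⟩
  have hf0 : 0 < f := by omega
  have r0 := hrel 1 (Nat.coprime_one_left L)
  rw [mul_one] at r0
  have ha1 : 0 < a₁ := by linarith
  -- the conductor of `f` divides `M₁`
  have hS2 : f ∣ M₁ ∨ ∃ g, Odd g ∧ f = 2 * g ∧ g ∣ M₁ := by
    apply cond_dvd
    intro l k hl hk1 hk2 h4
    obtain ⟨hlf, hgcd⟩ := gcd_dvd_div hl hk1 hk2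
    obtain ⟨j, hj, hx⟩ := escape hf0 hl hlf h4 hc
    obtain ⟨g, hg⟩ : ∃ g, g = f / l := ⟨_, rfl⟩
    rw [← hg] at hx hgcd
    have hlg : l * g = f := by rw [hg]; exact Nat.mul_div_cancel' hlf
    have hg0 : 0 < g := by
      rcases Nat.eq_zero_or_pos g with h | h
      · rw [h, mul_zero] at hlg; omega
      · exact h
    have hx12 : d < d + j * g ∧ d + j * g < f := by
      have h2l := hl.two_le
      rcases hj with rfl | ⟨rfl, h3⟩
      · have : 2 * g ≤ l * g := Nat.mul_le_mul_right g h2l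
        omega
      · have : 3 * g ≤ l * g := Nat.mul_le_mul_right g h3
        omega
    obtain ⟨x, hxd⟩ : ∃ x, x = d + j * g := ⟨_, rfl⟩
    rw [← hxd] at hx hx12
    obtain ⟨e, he⟩ := exists_inv hf0 hc
    have hecop : e.Coprime f := by
      have h3 : (d * e).Coprime f := cop_of_modEq he (Nat.coprime_one_left f)
      exact Nat.Coprime.coprime_dvd_left (Dvd.intro_left d rfl) h3
    have hxe : x * e ≡ 1 [MOD Nat.gcd f M₁] := by
      have h3 : x ≡ d [MOD g] := by
        rw [hxd]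
        have : d + j * g ≡ d + 0 [MOD g] :=
          Nat.ModEq.add_left d ((Nat.modEq_zero_iff_dvd).2 (Dvd.intro_left j rfl))
        simpa using this
      have h4 : x * e ≡ d * e [MOD g] := h3.mul_right e
      have h5 : d * e ≡ 1 [MOD g] := he.of_dvd (Dvd.intro_left l hlg)
      exact (h4.trans h5).of_dvd hgcd
    obtain ⟨w, hw1, hw2⟩ := lift_two hf h1 (Nat.Coprime.mul_left hx hecop) hxe
    have r1 := hrel (vl w) (vl_coprime w)
    have e1 : ct f (d * vl w) = ct f x := by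
      apply ct_congr hf0
      calc d * vl w ≡ d * (x * e) [MOD f] := hw1.mul_left d
        _ = x * (d * e) := by ring
        _ ≡ x * 1 [MOD f] := he.mul_left x
        _ = x := mul_one x
    have e2 : ct M₁ (vl w) = ct M₁ 1 := ct_congr (by omega) hw2
    have e3 : ct M₂ (vl w) ≤ ct M₂ 1 :=
      ct_le_one (by omega) (Nat.Coprime.coprime_dvd_right h2 (vl_coprime w))
    have e4 : ct f x < ct f d := ct_lt (by omega) hx12.1 hx12.2
    rw [e1, e2] at r1
    have e5 : a₂ * ct M₂ 1 ≤ a₂ * ct M₂ (vl w) := by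
      apply mul_le_mul_of_nonpos_left e3 ha.le
    have e6 : A * ct f x < A * ct f d := mul_lt_mul_of_pos_left e4 hA0
    linarith
  -- the conductor of `M₂` divides `M₁`
  have hS3 : M₂ ∣ M₁ ∨ ∃ g, Odd g ∧ M₂ = 2 * g ∧ g ∣ M₁ := by
    apply cond_dvd
    intro l k hl hk1 hk2 h4
    obtain ⟨hlf, hgcd⟩ := gcd_dvd_div hl hk1 hk2
    obtain ⟨j, hj, hx⟩ := escape (by omega) hl hlf h4 (Nat.coprime_one_left M₂)
    obtain ⟨g, hg⟩ : ∃ g, g = M₂ / l := ⟨_, rfl⟩
    rw [← hg] at hx hgcd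
    have hlg : l * g = M₂ := by rw [hg]; exact Nat.mul_div_cancel' hlf
    have hg0 : 0 < g := by
      rcases Nat.eq_zero_or_pos g with h | h
      · rw [h, mul_zero] at hlg; omega
      · exact h
    have hx12 : 1 < 1 + j * g ∧ 1 + j * g < M₂ := by
      have h2l := hl.two_le
      rcases hj with rfl | ⟨rfl, h3⟩
      · have : 2 * g ≤ l * g := Nat.mul_le_mul_right g h2l
        omega
      · have : 3 * g ≤ l * g := Nat.mul_le_mul_right g h3
        omega
    have hxe : 1 + j * g ≡ 1 [MOD Nat.gcd M₂ M₁] := by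
      have : 1 + j * g ≡ 1 + 0 [MOD g] :=
        Nat.ModEq.add_left 1 ((Nat.modEq_zero_iff_dvd).2 (Dvd.intro_left j rfl))
      exact this.of_dvd hgcd
    obtain ⟨w, hw1, hw2⟩ := lift_two h2 h1 hx hxe
    have r1 := hrel (vl w) (vl_coprime w)
    have hwf : vl w ≡ 1 [MOD f] := by
      rcases hS2 with h | ⟨g', hg'1, hg'2, hg'3⟩
      · exact hw2.of_dvd h
      · have h5 : vl w ≡ 1 [MOD g'] := hw2.of_dvd hg'3
        have h6 : vl w ≡ 1 [MOD 2] :=
          modEq_two ((Dvd.intro g' hg'2.symm).trans hf) (vl_coprime w)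
        rw [hg'2]
        exact (Nat.modEq_and_modEq_iff_modEq_mul (Nat.coprime_two_left.2 hg'1)).1 ⟨h6, h5⟩
    have e1 : ct f (d * vl w) = ct f d := by
      apply ct_congr hf0
      simpa using hwf.mul_left d
    have e2 : ct M₁ (vl w) = ct M₁ 1 := ct_congr (by omega) hw2
    have e3 : ct M₂ (vl w) = ct M₂ (1 + j * g) := ct_congr (by omega) hw1
    have e4 : ct M₂ (1 + j * g) < ct M₂ 1 := ct_lt one_pos hx12.1 hx12.2
    rw [e1, e2, e3] at r1
    have e5 : a₂ * ct M₂ 1 < a₂ * ct M₂ (1 + j * g) := mul_lt_mul_of_neg_left e4 ha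
    linarith
  -- `M₁ < M₂`
  have hlt : M₁ < M₂ := by
    by_contra hcon
    push Not at hcon
    have e1 : ct M₂ 1 ≤ ct M₁ 1 := by
      rcases hcon.lt_or_eq with h | h
      · exact (ct_lt_gen one_pos (by omega) (by omega)).le
      · rw [h]
    have e2 : ct f d < ct M₁ 1 := by
      apply ct_lt_gen one_pos _ (by omega)
      rw [one_mul]
      rcases hS2 with h | ⟨g', hg'1, hg'2, hg'3⟩
      · have h5 := Nat.le_of_dvd (by omega) h
        calc f ≤ M₁ := h5
          _ < 2 * M₁ := by omega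
          _ ≤ d * M₁ := Nat.mul_le_mul_right _ hd
      · have h5 := Nat.le_of_dvd (by omega) hg'3
        have hd3 : 3 ≤ d := by
          rcases Nat.lt_or_ge d 3 with h | h
          · exfalso
            have hd2 : d = 2 := by omega
            rw [hd2, hg'2] at hc
            have : 2 ∣ Nat.gcd 2 (2 * g') := Nat.dvd_gcd (dvd_refl 2) (Dvd.intro g' rfl)
            rw [hc] at this
            omega
          · exact h
        calc f = 2 * g' := hg'2
          _ ≤ 2 * M₁ := by omega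
          _ < 3 * M₁ := by omega
          _ ≤ d * M₁ := Nat.mul_le_mul_right _ hd3
    have e3 : A * ct f d < A * ct M₁ 1 := mul_lt_mul_of_pos_left e2 hA0
    have e4 : a₂ * ct M₁ 1 ≤ a₂ * ct M₂ 1 := mul_le_mul_of_nonpos_left e1 ha.le
    rw [hA] at e3 r0
    nlinarith
  -- `M₂ = 2 M₁`
  obtain ⟨hodd, hM⟩ : Odd M₁ ∧ M₂ = 2 * M₁ := by
    rcases hS3 with h | ⟨g, hg1, hg2, hg3⟩
    · have := Nat.le_of_dvd (by omega) h
      omega
    · obtain ⟨m, hm⟩ := hg3
      have hm1 : m = 1 := by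
        have hm0 : m ≠ 0 := by rintro rfl; omega
        by_contra hne
        have : g * 2 ≤ g * m := Nat.mul_le_mul_left g (by omega)
        omega
      rw [hm1, mul_one] at hm
      rw [hm]
      exact ⟨hg1, hg2⟩
  subst hM
  -- the value at `u = M₁ - 2`
  have hk : (M₁ - 2).Coprime (2 * M₁) := by
    apply Nat.Coprime.mul_right
    · rw [Nat.coprime_two_right]
      rw [Nat.odd_iff] at hodd ⊢
      omega
    · have h3 : (M₁ - 2).Coprime 2 := by
        rw [Nat.coprime_two_right]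
        rw [Nat.odd_iff] at hodd ⊢
        omega
      have h4 : M₁ = (M₁ - 2) + 2 := by omega
      rw [h4, Nat.add_sub_cancel]
      rw [Nat.coprime_self_add_right]
      exact h3
  obtain ⟨w, hw⟩ := lift_unit h2 hk
  have r1 := hrel (vl w) (vl_coprime w)
  have e1 : ct M₁ (vl w) = - ct M₁ 2 := by
    rw [ct_congr (by omega) (hw.of_dvd (Dvd.intro_left 2 rfl)), ct_neg (by omega) (by omega)]
  have e2 : 0 < ct (2 * M₁) (vl w) := by
    rw [ct_congr (by omega) hw]
    exact ct_pos (by omega) (by omega)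
  have e3 : 0 < ct M₁ 2 := ct_pos (by omega) (by omega)
  have e4 : A * ct f (d * vl w) < -(A * ct M₁ 2) := by
    rw [r1, e1]
    have : a₂ * ct (2 * M₁) (vl w) < 0 := mul_neg_of_neg_of_pos ha e2
    have : A * ct M₁ 2 < a₁ * ct M₁ 2 := mul_lt_mul_of_pos_right (by linarith) e3
    linarith
  rcases hS2 with h | ⟨g, hg1, hg2, hg3⟩
  · have e5 : ct f (d * vl w) = - ct f (2 * d) := by
      rw [← ct_neg hf0 (by omega : 2 * d ≤ f)]
      apply ct_congr hf0
      apply Nat.ModEq.add_right_cancel' (2 * d)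
      have h5 : d * vl w ≡ d * (M₁ - 2) [MOD f] :=
        (hw.of_dvd (h.trans (Dvd.intro_left 2 rfl))).mul_left d
      calc d * vl w + 2 * d ≡ d * (M₁ - 2) + 2 * d [MOD f] := h5.add_right _
        _ = d * M₁ := by
          have : M₁ = (M₁ - 2) + 2 := by omega
          conv_rhs => rw [this]
          ring
        _ ≡ 0 [MOD f] := (Nat.modEq_zero_iff_dvd).2 (h.trans (Dvd.intro_left d rfl))
        _ ≡ f [MOD f] := ((Nat.modEq_zero_iff_dvd).2 (dvd_refl f)).symm
        _ = f - 2 * d + 2 * d := by omega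
    have e6 : ct f (2 * d) < ct M₁ 2 := by
      apply ct_lt_gen two_pos _ (by omega)
      have h5 := Nat.le_of_dvd (by omega) h
      calc 2 * f ≤ 2 * M₁ := by omega
        _ < 4 * M₁ := by omega
        _ ≤ 2 * d * M₁ := Nat.mul_le_mul_right _ (by omega)
    rw [e5] at e4
    have := mul_lt_mul_of_pos_left e6 hA0
    linarith
  · have e5 : ct f (d * vl w) = ct f (g - 2 * d) := by
      apply ct_congr hf0
      apply Nat.ModEq.add_right_cancel' (2 * d)
      obtain ⟨m, hm⟩ := hg3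
      have hdodd : Odd d := by
        rw [hg2] at hc
        have : d.Coprime 2 := Nat.Coprime.coprime_dvd_right (Dvd.intro g rfl) hc
        rwa [Nat.coprime_two_right] at this
      have hmodd : Odd m := by
        rw [hm] at hodd
        exact (Nat.odd_mul.1 hodd).2
      obtain ⟨t, ht⟩ := hdodd.mul hmodd
      have h5 : d * vl w ≡ d * (M₁ - 2) [MOD f] := by
        refine (hw.of_dvd ?_).mul_left d
        rw [hg2, hm]
        exact Nat.mul_dvd_mul_left 2 (Dvd.intro m rfl)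
      calc d * vl w + 2 * d ≡ d * (M₁ - 2) + 2 * d [MOD f] := h5.add_right _
        _ = d * M₁ := by
          have : M₁ = (M₁ - 2) + 2 := by omega
          conv_rhs => rw [this]
          ring
        _ = f * t + g := by rw [hm, hg2]; calc d * (g * m) = (d * m) * g := by ring
              _ = 2 * g * t + g := by rw [ht]; ring
        _ ≡ 0 + g [MOD f] := Nat.ModEq.add_right g
              ((Nat.modEq_zero_iff_dvd).2 (Dvd.intro t rfl))
        _ = g - 2 * d + 2 * d := by omega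
    have e6 : 0 < ct f (g - 2 * d) := ct_pos (by omega) (by omega)
    rw [e5] at e4
    have h7 := mul_pos hA0 e6
    have h8 := mul_pos hA0 e3
    linarith

end Pool.Agent.H80.Sig
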