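import Pool.Agent.H80.Sig.Nonvanish
import Pool.Agent.H80.Sig.Chars
set_option autoImplicit false

/-!
# Linear relations between the numbers `cot (π / N)`, `N` not a prime power
-/

namespace Pool.Agent.H80.Sig

open Finset

/-- the natural number representing a unit -/
def vl {L : ℕ} (v : (ZMod L)ˣ) : ℕ := (v : ZMod L).val

lemma vl_coprime {L : ℕ} [NeZero L] (v : (ZMod L)ˣ) : (vl v).Coprime L :=
  ZMod.val_coe_unit_coprime v

lemma vl_mul {L : ℕ} [NeZero L] (w v : (ZMod L)ˣ) : vl (w * v) ≡ vl w * vl v [MOD L] := by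
  unfold vl
  rw [Units.val_mul, ZMod.val_mul]
  exact Nat.mod_modEq _ _

/-- twisted sums -/
noncomputable def T {f : ℕ} (L : ℕ) [NeZero L] (χ : DC f) (N : ℕ) : ℂ :=
  ∑ v : (ZMod L)ˣ, χ ((vl v : ℕ) : ZMod f) * K N (vl v)

lemma T_shift {f L N : ℕ} [NeZero L] (χ : DC f) (hf : f ∣ L) (hN : N ∣ L) (w : (ZMod L)ˣ) :
    T L χ N = χ ((vl w : ℕ) : ZMod f) *
      ∑ v : (ZMod L)ˣ, χ ((vl v : ℕ) : ZMod f) * K N (vl w * vl v) := by
  have hL : 0 < L := NeZero.pos L
  have hN0 : 0 < N := Nat.pos_of_dvd_of_pos hN hL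
  unfold T
  rw [← Equiv.sum_comp (Equiv.mulLeft w), mul_sum]
  refine sum_congr rfl fun v _ => ?_
  have h1 := vl_mul w v
  simp only [Equiv.coe_mulLeft]
  rw [natcast_congr (h1.of_dvd hf), K_congr hN0 (h1.of_dvd hN)]
  push_cast
  rw [map_mul]; ring

lemma lift_unit {M L : ℕ} [NeZero L] (hM : M ∣ L) {k : ℕ} (hk : k.Coprime M) :
    ∃ w : (ZMod L)ˣ, vl w ≡ k [MOD M] := by
  obtain ⟨w, hw⟩ := ZMod.unitsMap_surjective hM (ZMod.unitOfCoprime k hk)
  refine ⟨w, ?_⟩
  rw [← ZMod.natCast_eq_natCast_iff]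
  have h1 := congrArg (fun u : (ZMod M)ˣ => (u : ZMod M)) hw
  simp only [ZMod.unitsMap_val, ZMod.coe_unitOfCoprime] at h1
  rw [← h1]
  unfold vl
  rw [ZMod.natCast_val]

lemma lift_two {f N L : ℕ} [NeZero L] (hf : f ∣ L) (hN : N ∣ L) {u : ℕ} (hu : u.Coprime f)
    (h1 : u ≡ 1 [MOD Nat.gcd f N]) : ∃ w : (ZMod L)ˣ, vl w ≡ u [MOD f] ∧ vl w ≡ 1 [MOD N] := by
  obtain ⟨k, hk1, hk2⟩ := Nat.chineseRemainder' h1
  have hkf : k.Coprime f := cop_of_modEq hk1 hu
  have hkN : k.Coprime N := cop_of_modEq hk2 (Nat.coprime_one_left N)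
  have hk : k.Coprime (Nat.lcm f N) := by
    have : Nat.Coprime k (f * N) := Nat.Coprime.mul_right hkf hkN
    exact Nat.Coprime.coprime_dvd_right (Nat.lcm_dvd_mul f N) this
  obtain ⟨w, hw⟩ := lift_unit (Nat.lcm_dvd hf hN) hk
  exact ⟨w, (hw.of_dvd (Nat.dvd_lcm_left f N)).trans hk1,
    (hw.of_dvd (Nat.dvd_lcm_right f N)).trans hk2⟩

lemma gcd_dvd_div {f N p k : ℕ} (hp : p.Prime) (h1 : p ^ k ∣ f) (h2 : ¬ p ^ k ∣ N) :
    p ∣ f ∧ Nat.gcd f N ∣ f / p := by
  have hk : k ≠ 0 := by
    rintro rfl; exact h2 (by simp)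
  have hpf : p ∣ f := (dvd_pow_self p hk).trans h1
  refine ⟨hpf, ?_⟩
  obtain ⟨t, ht⟩ := Nat.gcd_dvd_left f N
  have hpt : p ∣ t := by
    by_contra hcon
    have hc : Nat.Coprime (p ^ k) t := Nat.Coprime.pow_left _ ((hp.coprime_iff_not_dvd).2 hcon)
    have h3 : p ^ k ∣ Nat.gcd f N := hc.dvd_of_dvd_mul_right (ht ▸ h1)
    exact h2 (h3.trans (Nat.gcd_dvd_right f N))
  obtain ⟨s, rfl⟩ := hpt
  refine ⟨s, ?_⟩
  apply Nat.div_eq_of_eq_mul_right hp.pos
  conv_lhs => rw [ht]
  ring

lemma T_kill {f L N : ℕ} [NeZero L] (χ : DC f) (hχ : Prim χ) (hf : f ∣ L) (hN : N ∣ L)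
    (hfN : ¬ f ∣ N) : T L χ N = 0 := by
  have hL : 0 < L := NeZero.pos L
  have hf0 : 0 < f := Nat.pos_of_dvd_of_pos hf hL
  have hN0 : 0 < N := Nat.pos_of_dvd_of_pos hN hL
  obtain ⟨p, k, hp, h1, h2⟩ : ∃ p k, p.Prime ∧ p ^ k ∣ f ∧ ¬ p ^ k ∣ N := by
    by_contra hcon
    push Not at hcon
    exact hfN ((Nat.dvd_iff_prime_pow_dvd_dvd N f).2 fun p k hp h => hcon p k hp h)
  obtain ⟨hpf, hg⟩ := gcd_dvd_div hp h1 h2
  obtain ⟨u, hu1, hu2, hu3⟩ := hχ p hp hpf
  obtain ⟨w, hw1, hw2⟩ := lift_two hf hN hu1 (hu2.of_dvd hg)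
  have h3 := T_shift χ hf hN w
  have h4 : ∑ v : (ZMod L)ˣ, χ ((vl v : ℕ) : ZMod f) * K N (vl w * vl v) = T L χ N := by
    unfold T
    refine sum_congr rfl fun v _ => ?_
    rw [K_congr hN0 (h' := vl v) (by simpa using hw2.mul_right (vl v))]
  rw [h4, natcast_congr hw1] at h3
  have h5 : (1 - χ ((u : ℕ) : ZMod f)) * T L χ N = 0 := by
    rw [sub_mul, ← h3]; ring
  rcases mul_eq_zero.1 h5 with h6 | h6
  · exact absurd (sub_eq_zero.1 h6).symm hu3
  · exact h6

lemma T_self_ne {f L : ℕ} [NeZero L] (χ : DC f) (hf : f ∣ L) (hodd : χ (-1) = -1) :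
    T L χ f ≠ 0 := by
  have hL : 0 < L := NeZero.pos L
  have hf0 : 0 < f := Nat.pos_of_dvd_of_pos hf hL
  have : NeZero f := ⟨hf0.ne'⟩
  have hne := cotsum_ne_zero χ hodd
  set F : (ZMod f)ˣ → ℂ := fun u => χ (u : ZMod f) * K f ((u : ZMod f).val) with hF
  have h1 : T L χ f = ∑ v : (ZMod L)ˣ, F (ZMod.unitsMap hf v) := by
    unfold T
    refine sum_congr rfl fun v _ => ?_
    have h2 : (((ZMod.unitsMap hf v : (ZMod f)ˣ) : ZMod f)) = ((vl v : ℕ) : ZMod f) := by
      rw [ZMod.unitsMap_val]; unfold vl; rw [ZMod.natCast_val]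
    simp only [hF]
    rw [h2]
    congr 1
    apply K_congr hf0
    rw [ZMod.val_natCast]
    exact (Nat.mod_modEq _ _).symm
  have hsurj := ZMod.unitsMap_surjective hf
  have h3 : ∑ v : (ZMod L)ˣ, F (ZMod.unitsMap hf v) =
      ((univ.filter fun v : (ZMod L)ˣ => ZMod.unitsMap hf v = 1).card : ℂ) * ∑ u, F u := by
    rw [← Finset.sum_fiberwise (s := univ) (g := fun v : (ZMod L)ˣ => ZMod.unitsMap hf v)
      (f := fun v => F (ZMod.unitsMap hf v)), mul_sum]
    refine sum_congr rfl fun u _ => ?_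
    have h4 : ∀ v ∈ univ.filter (fun v : (ZMod L)ˣ => ZMod.unitsMap hf v = u),
        F (ZMod.unitsMap hf v) = F u := by
      intro v hv
      rw [(mem_filter.1 hv).2]
    rw [sum_congr rfl h4, sum_const, nsmul_eq_mul]
    congr 2
    obtain ⟨w, hw⟩ := hsurj u
    apply Finset.card_bij (fun v _ => w⁻¹ * v)
    · intro v hv
      rw [mem_filter] at hv ⊢
      refine ⟨mem_univ _, ?_⟩
      rw [map_mul, map_inv, hw, hv.2, inv_mul_cancel]
    · intro a _ b _ hab
      exact mul_left_cancel hab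
    · intro b hb
      rw [mem_filter] at hb
      refine ⟨w * b, ?_, by group⟩
      rw [mem_filter]
      exact ⟨mem_univ _, by rw [map_mul, hw, hb.2, mul_one]⟩
  rw [h1, h3]
  apply mul_ne_zero
  · rw [Nat.cast_ne_zero]
    apply Finset.card_ne_zero_of_mem (a := 1)
    rw [mem_filter]
    exact ⟨mem_univ _, map_one _⟩
  · exact hne

/-- the relation between the levels `f` and `2 f` -/
lemma K_two {f h t : ℕ} (hf : 0 < f) (hc : Nat.Coprime h f)
    (hf1 : f ≠ 1) (ht : 2 * t = h + f) : K (2 * f) h = 2 * K f h - K f t := by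
  have hf' : (f : ℝ) ≠ 0 := by exact_mod_cast hf.ne'
  set z := ee ((h : ℝ) / (2 * f : ℕ)) with hz
  have h1 : ee ((h : ℝ) / f) = z * z := by
    rw [hz, ← ee_add]; congr 1; push_cast; field_simp; ring
  have h2 : ee ((t : ℝ) / f) = -z := by
    have : (t : ℝ) / f = (h : ℝ) / (2 * f : ℕ) + 1 / 2 := by
      have h3 : (2 : ℝ) * t = h + f := by exact_mod_cast ht
      push_cast; field_simp; linarith
    rw [this, ee_add, ee_half, ← hz]; ring
  have hz1 : z * z ≠ 1 := by
    rw [← h1, Ne, ee_eq_one_iff]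
    rintro ⟨n, hn⟩
    have h2 : (h : ℝ) = n * f := by rw [← hn]; field_simp
    have h3 : (h : ℤ) = n * f := by exact_mod_cast h2
    have h4 : f ∣ h := Int.natCast_dvd_natCast.1 ⟨n, by rw [h3]; ring⟩
    have h5 : f ∣ Nat.gcd h f := Nat.dvd_gcd h4 (dvd_refl f)
    rw [hc] at h5
    exact hf1 (Nat.dvd_one.1 h5)
  have ha : z - 1 ≠ 0 := by
    intro h3; apply hz1
    have : z = 1 := sub_eq_zero.1 h3
    rw [this]; ring
  have hb : z + 1 ≠ 0 := by
    intro h3; apply hz1
    have : z = -1 := eq_neg_of_add_eq_zero_left h3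
    rw [this]; ring
  have hcc : z * z - 1 ≠ 0 := sub_ne_zero.2 hz1
  have hd : -z - 1 ≠ 0 := by
    intro h3; apply hb; linear_combination -h3
  unfold K
  rw [← hz, h1, h2, show z * z - 1 = (z - 1) * (z + 1) by ring, show -z - 1 = -(z + 1) by ring]
  field_simp
  ring

lemma T_two {f L : ℕ} [NeZero L] (χ : DC f) (hf : 2 * f ∣ L) (hfo : Odd f) (hf1 : f ≠ 1) :
    T L χ (2 * f) = (2 - χ ((2 : ℕ) : ZMod f)) * T L χ f := by
  have hL : 0 < L := NeZero.pos L
  have hf' : f ∣ L := (Dvd.intro_left 2 rfl).trans hf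
  have hf0 : 0 < f := hfo.pos
  have h2L : 2 ∣ L := (Dvd.intro f rfl).trans hf
  have h2f : Nat.Coprime 2 f := by rwa [Nat.coprime_two_left]
  have hvodd : ∀ v : (ZMod L)ˣ, Odd (vl v) := by
    intro v
    rw [← Nat.coprime_two_right]
    exact Nat.Coprime.coprime_dvd_right h2L (vl_coprime v)
  set t : (ZMod L)ˣ → ℕ := fun v => (vl v + f) / 2 with ht
  have ht2 : ∀ v, 2 * t v = vl v + f := by
    intro v
    obtain ⟨a, ha⟩ := hvodd v
    obtain ⟨b, hb⟩ := hfo
    simp only [ht]; omega
  have h1 : T L χ (2 * f) = 2 * T L χ f - ∑ v : (ZMod L)ˣ, χ ((vl v : ℕ) : ZMod f) * K f (t v) := by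
    unfold T
    rw [mul_sum, ← sum_sub_distrib]
    refine sum_congr rfl fun v _ => ?_
    rw [K_two hf0 (Nat.Coprime.coprime_dvd_right hf' (vl_coprime v)) hf1 (ht2 v)]
    ring
  have h2 : ∑ v : (ZMod L)ˣ, χ ((vl v : ℕ) : ZMod f) * K f (t v) =
      χ ((2 : ℕ) : ZMod f) * T L χ f := by
    obtain ⟨w, hw⟩ := lift_unit hf' h2f
    rw [← Equiv.sum_comp (Equiv.mulLeft w)]
    unfold T
    rw [mul_sum]
    refine sum_congr rfl fun v _ => ?_
    simp only [Equiv.coe_mulLeft]
    have h3 : vl (w * v) ≡ 2 * vl v [MOD f] :=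
      ((vl_mul w v).of_dvd hf').trans (hw.mul_right _)
    rw [natcast_congr h3]
    have h4 : t (w * v) ≡ vl v [MOD f] := by
      have h5 : 2 * t (w * v) ≡ 2 * vl v [MOD f] := by
        rw [ht2]
        have h6 : vl (w * v) + f ≡ 2 * vl v + 0 [MOD f] :=
          Nat.ModEq.add h3 (Nat.modEq_zero_iff_dvd.2 (dvd_refl f))
        simpa using h6
      exact Nat.ModEq.cancel_left_of_coprime (by rw [Nat.coprime_comm] at h2f; exact h2f) h5
    rw [K_congr hf0 h4]
    push_cast
    rw [map_mul]; ring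
  rw [h1, h2]; ring

/-- the one relation -/
lemma K_thirty {h : ℕ} (hh : Nat.Coprime h 30) : K 30 h = K 15 h + K 10 h + K 6 h := by
  set z := ee ((h : ℝ) / (30 : ℕ)) with hz
  have hz15 : ee ((h : ℝ) / (15 : ℕ)) = z ^ 2 := by
    rw [hz, ← ee_nat_mul]; congr 1; push_cast; ring
  have hz10 : ee ((h : ℝ) / (10 : ℕ)) = z ^ 3 := by
    rw [hz, ← ee_nat_mul]; congr 1; push_cast; ring
  have hz6 : ee ((h : ℝ) / (6 : ℕ)) = z ^ 5 := by
    rw [hz, ← ee_nat_mul]; congr 1; push_cast; ring
  have hne : ∀ j m : ℕ, j * m = 30 → 1 < m → z ^ j ≠ 1 := by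
    intro j m hjm hm
    rw [hz, ← ee_nat_mul, Ne, ee_eq_one_iff]
    rintro ⟨n, hn⟩
    have hj0 : 0 < j := by
      rcases Nat.eq_zero_or_pos j with h0 | h0
      · subst h0; omega
      · exact h0
    have hj' : (j : ℝ) ≠ 0 := by exact_mod_cast hj0.ne'
    have hm' : (m : ℝ) ≠ 0 := by exact_mod_cast (by omega : m ≠ 0)
    have h1 : (h : ℝ) = n * m := by
      have h30 : ((30 : ℕ) : ℝ) = j * m := by exact_mod_cast hjm.symm
      rw [h30] at hn
      rw [← hn]; field_simp
    have h3 : (h : ℤ) = n * m := by exact_mod_cast h1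
    have h4 : m ∣ h := Int.natCast_dvd_natCast.1 ⟨n, by rw [h3]; ring⟩
    have h5 : m ∣ Nat.gcd h 30 := Nat.dvd_gcd h4 (Dvd.intro_left j hjm)
    rw [hh] at h5
    have := Nat.dvd_one.1 h5
    omega
  have h15 : z ^ 15 = -1 := by
    have hodd : Odd h := by
      rw [← Nat.coprime_two_right]
      exact Nat.Coprime.coprime_dvd_right (by norm_num) hh
    obtain ⟨k, hk⟩ := hodd
    rw [hz, ← ee_nat_mul]
    have : ((15 : ℕ) : ℝ) * ((h : ℝ) / (30 : ℕ)) = ((k : ℤ) : ℝ) + 1 / 2 := by
      rw [hk]; push_cast; ring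
    rw [this, ee_add, ee_half, (ee_eq_one_iff _).2 ⟨(k : ℤ), rfl⟩]; ring
  have a1 := hne 1 30 (by norm_num) (by norm_num)
  have a2 := hne 2 15 (by norm_num) (by norm_num)
  have a3 := hne 3 10 (by norm_num) (by norm_num)
  have a5 := hne 5 6 (by norm_num) (by norm_num)
  have a6 := hne 6 5 (by norm_num) (by norm_num)
  have a10 := hne 10 3 (by norm_num) (by norm_num)
  rw [pow_one] at a1
  have b1 : z + 1 ≠ 0 := by
    intro h0; apply a2
    have : z = -1 := eq_neg_of_add_eq_zero_left h0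
    rw [this]; ring
  have b3 : z ^ 2 - z + 1 ≠ 0 := by
    intro h0; apply a6
    have : z ^ 3 = -1 := by linear_combination (z + 1) * h0
    calc z ^ 6 = (z ^ 3) ^ 2 := by ring
      _ = 1 := by rw [this]; ring
  have b5 : z ^ 4 - z ^ 3 + z ^ 2 - z + 1 ≠ 0 := by
    intro h0; apply a10
    have : z ^ 5 = -1 := by linear_combination (z + 1) * h0
    calc z ^ 10 = (z ^ 5) ^ 2 := by ring
      _ = 1 := by rw [this]; ring
  have hΦ : z ^ 8 + z ^ 7 - z ^ 5 - z ^ 4 - z ^ 3 + z + 1 = 0 := by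
    have h0 : (z + 1) * (z ^ 2 - z + 1) * (z ^ 4 - z ^ 3 + z ^ 2 - z + 1) *
        (z ^ 8 + z ^ 7 - z ^ 5 - z ^ 4 - z ^ 3 + z + 1) = 0 := by
      have : (z + 1) * (z ^ 2 - z + 1) * (z ^ 4 - z ^ 3 + z ^ 2 - z + 1) *
        (z ^ 8 + z ^ 7 - z ^ 5 - z ^ 4 - z ^ 3 + z + 1) = z ^ 15 + 1 := by ring
      rw [this, h15]; ring
    exact (mul_eq_zero.1 h0).resolve_left (mul_ne_zero (mul_ne_zero b1 b3) b5)
  have c1 : z - 1 ≠ 0 := sub_ne_zero.2 a1
  have c2 : z ^ 2 - 1 ≠ 0 := sub_ne_zero.2 a2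
  have c3 : z ^ 3 - 1 ≠ 0 := sub_ne_zero.2 a3
  have c5 : z ^ 5 - 1 ≠ 0 := sub_ne_zero.2 a5
  unfold K
  rw [← hz, hz15, hz10, hz6]
  rw [div_add_div _ _ c2 c3, div_add_div _ _ (mul_ne_zero c2 c3) c5,
    div_eq_div_iff c1 (mul_ne_zero (mul_ne_zero c2 c3) c5)]
  linear_combination (2 - 6 * z + 6 * z ^ 2 - 2 * z ^ 3) * hΦ

/-- the conductor -/
def cond (N : ℕ) : ℕ := if N % 4 = 2 then N / 2 else N

lemma two_sub_ne {f : ℕ} (χ : DC f) (a : ZMod f) : 2 - χ a ≠ 0 := by
  intro h
  have h1 : χ a = 2 := (sub_eq_zero.1 h).symm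
  have h2 := DirichletCharacter.norm_le_one χ a
  rw [h1] at h2
  norm_num at h2

/-- Independence, assuming that the coefficient at `30` vanishes. -/
theorem indep_aux (L : ℕ) (hL : 0 < L) (D : Finset ℕ)
    (hD : ∀ N ∈ D, N ∣ L ∧ 6 ≤ N ∧ ¬ IsPrimePow N) (A : ℕ → ℂ) (h30 : 30 ∈ D → A 30 = 0)
    (hrel : ∀ h : ℕ, h.Coprime L → ∑ N ∈ D, A N * K N h = 0) : ∀ N ∈ D, A N = 0 := by
  classical
  have : NeZero L := ⟨hL.ne'⟩
  by_contra hcon
  push Not at hcon
  obtain ⟨N₀, hN₀, hA₀⟩ := hcon
  set S := D.filter (fun N => A N ≠ 0) with hS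
  obtain ⟨N₁, hN₁, hmax⟩ := Finset.exists_max_image S cond ⟨N₀, mem_filter.2 ⟨hN₀, hA₀⟩⟩
  obtain ⟨hN₁D, hA₁⟩ := mem_filter.1 hN₁
  set f := cond N₁ with hf
  obtain ⟨hN₁L, hN₁6, hN₁p⟩ := hD N₁ hN₁D
  have hbig : ∀ N ∈ D, f < cond N → A N = 0 := by
    intro N hN hlt
    by_contra h
    have := hmax N (mem_filter.2 ⟨hN, h⟩)
    omega
  -- twisted relation
  have htw : ∀ {g : ℕ} (χ : DC g), ∑ N ∈ D, A N * T L χ N = 0 := by
    intro g χ
    have h1 : ∑ v : (ZMod L)ˣ, χ ((vl v : ℕ) : ZMod g) * ∑ N ∈ D, A N * K N (vl v) = 0 :=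
      sum_eq_zero fun v _ => by rw [hrel _ (vl_coprime v), mul_zero]
    rw [← h1]
    simp_rw [mul_sum]
    rw [sum_comm]
    refine sum_congr rfl fun N _ => ?_
    unfold T
    rw [mul_sum]
    exact sum_congr rfl fun v _ => by ring
  have hfdvd : f ∣ N₁ := by
    rw [hf]; unfold cond
    split_ifs with h
    · exact Nat.div_dvd_of_dvd (by omega)
    · exact dvd_refl _
  have hfL : f ∣ L := hfdvd.trans hN₁L
  have hf4 : ¬ f % 4 = 2 := by
    rw [hf]; unfold cond
    split_ifs with h
    · omega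
    · exact h
  by_cases hodd : Odd f
  · -- odd conductor
    have hf1 : f ≠ 1 := by
      intro h
      rw [hf] at h; unfold cond at h
      split_ifs at h <;> omega
    set a : ℂ := if f ∈ D then A f else 0 with ha
    set b : ℂ := if 2 * f ∈ D then A (2 * f) else 0 with hb
    have hab : a ≠ 0 ∨ b ≠ 0 := by
      have hcase : N₁ = f ∨ N₁ = 2 * f := by
        have hf' : f = cond N₁ := hf
        unfold cond at hf'
        split_ifs at hf' <;> omega
      rcases hcase with h | h
      · left; rw [ha, if_pos (h ▸ hN₁D), ← h]; exact hA₁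
      · right; rw [hb, if_pos (h ▸ hN₁D), ← h]; exact hA₁
    have hsurv : ∀ χ : DC f, Prim χ → ∀ N ∈ D, N ≠ f → N ≠ 2 * f → A N * T L χ N = 0 := by
      intro χ hχ N hN h1 h2
      by_cases hd : f ∣ N
      · have h3 : f < cond N := by
          obtain ⟨k, hk⟩ := hd
          obtain ⟨j, hj⟩ := hodd
          have hk1 : k ≠ 0 := by
            rintro rfl
            have := (hD N hN).2.1
            omega
          have hk2 : k ≠ 1 := by rintro rfl; omega
          have hk3 : k ≠ 2 := by rintro rfl; apply h2; rw [hk]; ring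
          have hk4 : 3 ≤ k := by omega
          have h5 : 3 * f ≤ N := by rw [hk, mul_comm 3 f]; exact Nat.mul_le_mul_left f hk4
          unfold cond
          split_ifs with h6
          · by_contra hlt
            have h7 : N / 2 ≤ f := by omega
            omega
          · omega
        rw [hbig N hN h3, zero_mul]
      · rw [T_kill χ hχ hfL (hD N hN).1 hd, mul_zero]
    have hval : ∀ χ : DC f, Prim χ → χ (-1) = -1 → a + b * (2 - χ ((2 : ℕ) : ZMod f)) = 0 := by
      intro χ hχ hχo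
      have h1 := htw χ
      have hTf := T_self_ne (L := L) χ hfL hχo
      have h2 : ∑ N ∈ D, A N * T L χ N = a * T L χ f + b * T L χ (2 * f) := by
        have hne : f ≠ 2 * f := by have := hodd.pos; omega
        have h3 : ∑ N ∈ D, A N * T L χ N =
            ∑ N ∈ D, ((if N = f then a * T L χ f else 0) +
              (if N = 2 * f then b * T L χ (2 * f) else 0)) := by
          refine sum_congr rfl fun N hN => ?_
          by_cases e1 : N = f
          · subst e1
            rw [if_pos rfl, if_neg hne, add_zero, ha, if_pos hN]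
          · by_cases e2 : N = 2 * f
            · rw [if_neg e1, if_pos e2, zero_add, e2, hb, if_pos (e2 ▸ hN)]
            · rw [if_neg e1, if_neg e2, add_zero, hsurv χ hχ N hN e1 e2]
        rw [h3, sum_add_distrib, sum_ite_eq', sum_ite_eq']
        congr 1
        · split_ifs with h
          · rfl
          · rw [ha, if_neg h, zero_mul]
        · split_ifs with h
          · rfl
          · rw [hb, if_neg h, zero_mul]
      rw [h2] at h1
      by_cases h2f : 2 * f ∈ D
      · rw [T_two χ (hD _ h2f).1 hodd hf1] at h1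
        have h4 : (a + b * (2 - χ ((2 : ℕ) : ZMod f))) * T L χ f = 0 := by
          linear_combination h1
        exact (mul_eq_zero.1 h4).resolve_right hTf
      · have hb0 : b = 0 := by rw [hb, if_neg h2f]
        rw [hb0, zero_mul, add_zero] at h1 ⊢
        exact (mul_eq_zero.1 h1).resolve_right hTf
    by_cases hf3 : f = 3
    · obtain ⟨χ, hχo, hχ⟩ := exists_odd_prim f (by omega) hf4 (by omega)
      have h1 := hval χ hχ hχo
      have ha0 : a = 0 := by
        rw [ha, if_neg]
        intro h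
        have := (hD _ h).2.1
        omega
      rw [ha0, zero_add] at h1
      have hb0 := (mul_eq_zero.1 h1).resolve_right (two_sub_ne χ _)
      rcases hab with h | h
      · exact h ha0
      · exact h hb0
    · by_cases hf15 : f = 15
      · obtain ⟨χ, hχo, hχ⟩ := exists_odd_prim f (by omega) hf4 (by omega)
        have h1 := hval χ hχ hχo
        have hb0 : b = 0 := by
          rw [hb]
          split_ifs with h
          · have e : 2 * f = 30 := by omega
            rw [e] at h ⊢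
            exact h30 h
          · rfl
        rw [hb0, zero_mul, add_zero] at h1
        rcases hab with h | h
        · exact h h1
        · exact h hb0
      · obtain ⟨χ, χ', ho, ho', hp, hp', hne⟩ := exists_two_prim f hodd hf1 hf3 hf15
        have h1 := hval χ hp ho
        have h2 := hval χ' hp' ho'
        have h3 : b * (χ' ((2 : ℕ) : ZMod f) - χ ((2 : ℕ) : ZMod f)) = 0 := by
          linear_combination h1 - h2
        have hb0 := (mul_eq_zero.1 h3).resolve_right (sub_ne_zero.2 hne.symm)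
        rw [hb0, zero_mul, add_zero] at h1
        rcases hab with h | h
        · exact h h1
        · exact h hb0
  · -- even conductor
    have heven : f % 4 = 0 := by
      rw [Nat.not_odd_iff_even] at hodd
      obtain ⟨j, hj⟩ := hodd
      omega
    have hN₁f : N₁ = f := by
      have hf' : f = cond N₁ := hf
      unfold cond at hf'
      split_ifs at hf' <;> omega
    have hcond4 : ∀ N, N % 4 = 0 → cond N = N := by
      intro N h
      unfold cond
      rw [if_neg (by omega)]
    by_cases h12 : f = 12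
    · -- use the character modulo `4`
      obtain ⟨ψ, hψo, hψ⟩ := exists_odd_prim 4 (by norm_num) (by norm_num) (by norm_num)
      have h4L : 4 ∣ L := (show 4 ∣ f by omega).trans hfL
      have h1 := htw ψ
      rw [Finset.sum_eq_single f] at h1
      · rcases mul_eq_zero.1 h1 with h2 | h2
        · exact hA₁ (hN₁f ▸ h2)
        · -- the induced character modulo `12`
          have h412 : 4 ∣ f := by omega
          set χ : DC f := DirichletCharacter.changeLevel h412 ψ with hχ
          have hχo : χ (-1) = -1 := by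
            have hu : ((-1 : (ZMod f)ˣ) : ZMod f) = -1 := by simp
            rw [hχ, ← hu, DirichletCharacter.changeLevel_eq_cast_of_dvd, hu,
              ZMod.cast_neg h412, ZMod.cast_one h412, hψo]
          apply T_self_ne (L := L) χ hfL hχo
          rw [← h2]
          unfold T
          refine sum_congr rfl fun v _ => ?_
          congr 1
          have hcop : (vl v).Coprime f := Nat.Coprime.coprime_dvd_right hfL (vl_coprime v)
          have hu : ((ZMod.unitOfCoprime (vl v) hcop : (ZMod f)ˣ) : ZMod f) =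
              ((vl v : ℕ) : ZMod f) := by simp
          rw [hχ, ← hu, DirichletCharacter.changeLevel_eq_cast_of_dvd, hu,
            ZMod.cast_natCast h412]
      · intro N hN hne
        by_cases hd : 4 ∣ N
        · have hc := hcond4 N (by omega)
          by_cases hlt : f < cond N
          · rw [hbig N hN hlt, zero_mul]
          · exfalso
            obtain ⟨_, h6, hpp⟩ := hD N hN
            have h8 : N = 8 := by omega
            apply hpp
            rw [h8]
            exact (isPrimePow_nat_iff _).2 ⟨2, 3, Nat.prime_two, by norm_num, by norm_num⟩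
        · rw [T_kill ψ hψ h4L (hD N hN).1 hd, mul_zero]
      · intro h; exact absurd (hN₁f ▸ hN₁D) h
    · obtain ⟨χ, hχo, hχ⟩ := exists_odd_prim f (by omega) hf4 h12
      have h1 := htw χ
      rw [Finset.sum_eq_single f] at h1
      · rcases mul_eq_zero.1 h1 with h2 | h2
        · exact hA₁ (hN₁f ▸ h2)
        · exact T_self_ne (L := L) χ hfL hχo h2
      · intro N hN hne
        by_cases hd : f ∣ N
        · have h4N : N % 4 = 0 := by
            have : 4 ∣ N := (show 4 ∣ f by omega).trans hd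
            omega
          have hN0 : 0 < N := by have := (hD N hN).2.1; omega
          have hle := Nat.le_of_dvd hN0 hd
          have hlt : f < cond N := by
            rw [hcond4 N h4N]; omega
          rw [hbig N hN hlt, zero_mul]
        · rw [T_kill χ hχ hfL (hD N hN).1 hd, mul_zero]
      · intro h; exact absurd (hN₁f ▸ hN₁D) h


/-- the coefficients of the one relation -/
def rho (N : ℕ) : ℂ := if N = 30 then 1 else if N = 6 ∨ N = 10 ∨ N = 15 then -1 else 0

/-- All relations between the numbers `cot (π / N)`, `N` not a prime power, are multiples of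
`cot (π / 30) = cot (π / 6) + cot (π / 10) + cot (π / 15)`. -/
theorem indep_full (L : ℕ) (hL : 0 < L) (D : Finset ℕ)
    (hD : ∀ N ∈ D, N ∣ L ∧ 6 ≤ N ∧ ¬ IsPrimePow N) (A : ℕ → ℂ) (hA : ∀ N, N ∉ D → A N = 0)
    (hrel : ∀ h : ℕ, h.Coprime L → ∑ N ∈ D, A N * K N h = 0) (N : ℕ) : A N = A 30 * rho N := by
  classical
  set E : Finset ℕ := {6, 10, 15, 30} with hE
  set D' : Finset ℕ := D ∪ E with hD'
  set A' : ℕ → ℂ := fun N => A N - A 30 * rho N with hA'
  have h6 : ¬ IsPrimePow 6 := by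
    rw [isPrimePow_nat_iff_bounded]; decide
  have h10 : ¬ IsPrimePow 10 := by
    rw [isPrimePow_nat_iff_bounded]; decide
  have h15 : ¬ IsPrimePow 15 := by
    rw [isPrimePow_nat_iff_bounded]; decide
  have h30 : ¬ IsPrimePow 30 := by
    rw [isPrimePow_nat_iff_bounded]; decide
  have key := indep_aux (30 * L) (by omega) D' ?_ A' ?_ ?_
  · by_cases hN : N ∈ D'
    · have := key N hN
      simp only [hA'] at this
      exact sub_eq_zero.1 this
    · have h1 : N ∉ D := fun h => hN (mem_union_left _ h)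
      have h2 : N ∉ E := fun h => hN (mem_union_right _ h)
      rw [hA N h1]
      have h3 : rho N = 0 := by
        unfold rho
        rw [hE] at h2
        simp only [mem_insert, mem_singleton, not_or] at h2
        rw [if_neg h2.2.2.2, if_neg (by
          rintro (h | h | h)
          · exact h2.1 h
          · exact h2.2.1 h
          · exact h2.2.2.1 h)]
      rw [h3, mul_zero]
  · intro N hN
    rcases mem_union.1 hN with h | h
    · obtain ⟨a, b, c⟩ := hD N h
      exact ⟨a.mul_left 30, b, c⟩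
    · rw [hE] at h
      simp only [mem_insert, mem_singleton] at h
      rcases h with rfl | rfl | rfl | rfl
      · exact ⟨Dvd.dvd.mul_right (by norm_num) L, by norm_num, h6⟩
      · exact ⟨Dvd.dvd.mul_right (by norm_num) L, by norm_num, h10⟩
      · exact ⟨Dvd.dvd.mul_right (by norm_num) L, by norm_num, h15⟩
      · exact ⟨Dvd.dvd.mul_right (by norm_num) L, by norm_num, h30⟩
  · intro _
    simp [hA', rho]
  · intro h hh
    have h1 : h.Coprime 30 := Nat.Coprime.coprime_dvd_right (Dvd.intro L rfl) hh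
    have h2 : h.Coprime L := Nat.Coprime.coprime_dvd_right (Dvd.intro_left 30 rfl) hh
    have h3 : ∑ N ∈ D', A N * K N h = 0 := by
      rw [← hrel h h2]
      symm
      apply Finset.sum_subset subset_union_left
      intro N _ hN
      rw [hA N hN, zero_mul]
    have h4 : ∑ N ∈ D', rho N * K N h = 0 := by
      have : ∑ N ∈ D', rho N * K N h = ∑ N ∈ E, rho N * K N h := by
        symm
        apply Finset.sum_subset subset_union_right
        intro N _ hN
        rw [hE] at hN
        simp only [mem_insert, mem_singleton, not_or] at hN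
        have h3 : rho N = 0 := by
          unfold rho
          rw [if_neg hN.2.2.2, if_neg (by
            rintro (h | h | h)
            · exact hN.1 h
            · exact hN.2.1 h
            · exact hN.2.2.1 h)]
        rw [h3, zero_mul]
      rw [this, hE]
      rw [sum_insert (by decide), sum_insert (by decide), sum_insert (by decide), sum_singleton]
      have hk := K_thirty h1
      simp only [rho]
      norm_num
      rw [hk]; ring
    simp only [hA', sub_mul, sum_sub_distrib]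
    rw [h3, zero_sub, neg_eq_zero]
    have : ∑ N ∈ D', A 30 * rho N * K N h = A 30 * ∑ N ∈ D', rho N * K N h := by
      rw [mul_sum]; exact sum_congr rfl fun N _ => by ring
    rw [this, h4, mul_zero]

end Pool.Agent.H80.Sig
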