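import Mathlib

/-!
The value at `s = 1` of the exponential zeta function: `expZeta x 1 = - log (1 - exp (2 π i x))`
for `x` not an integer, and hence `sinZeta x 1 = π (1/2 - x)` for `0 < x < 1`.
-/

namespace Pool.Agent.H80.OC

open Complex Filter Topology Finset HurwitzZeta

/-- Summation by parts. -/
lemma sum_by_parts (b g : ℕ → ℂ) (K : ℕ) :
    ∑ n ∈ range K, b n * g n =
      ∑ n ∈ range K, (∑ k ∈ range (n + 1), b k) * (g n - g (n + 1)) +
        (∑ k ∈ range K, b k) * g K := by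
  induction K with
  | zero => simp
  | succ K ih =>
    rw [sum_range_succ, ih, sum_range_succ (fun n => (∑ k ∈ range (n + 1), b k) * (g n - g (n + 1))),
      sum_range_succ b K]
    ring

/-- Partial sums of a geometric series on the unit circle are bounded. -/
lemma norm_geom_le {z : ℂ} (hz : ‖z‖ = 1) (hz1 : z ≠ 1) (n : ℕ) :
    ‖∑ k ∈ range n, z ^ (k + 1)‖ ≤ 2 / ‖1 - z‖ := by
  have h1 : (1 : ℂ) - z ≠ 0 := sub_ne_zero.mpr (Ne.symm hz1)
  have h2 : ∑ k ∈ range n, z ^ (k + 1) = z * ((1 - z ^ n) / (1 - z)) := by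
    have : ∑ k ∈ range n, z ^ (k + 1) = z * ∑ k ∈ range n, z ^ k := by
      rw [mul_sum]; exact sum_congr rfl fun k _ => by ring
    rw [this, geom_sum_eq hz1]
    congr 1
    rw [← neg_sub (1 : ℂ) (z ^ n), ← neg_sub (1 : ℂ) z, neg_div_neg_eq]
  rw [h2, norm_mul, hz, one_mul, norm_div]
  gcongr
  calc ‖1 - z ^ n‖ ≤ ‖(1 : ℂ)‖ + ‖z ^ n‖ := norm_sub_le _ _
    _ = 2 := by rw [norm_pow, hz]; norm_num

/-- The weight function. -/
noncomputable def gw (s : ℝ) (n : ℕ) : ℝ := ((n : ℝ) + 1) ^ (-s)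

lemma gw_diff_bound {s : ℝ} (h1 : 1 ≤ s) (h2 : s ≤ 2) (n : ℕ) :
    |gw s n - gw s (n + 1)| ≤ 2 / (((n : ℝ) + 1) * ((n : ℝ) + 2)) := by
  unfold gw
  have hn : (0 : ℝ) ≤ n := Nat.cast_nonneg n
  have e1 : ((n + 1 : ℕ) : ℝ) + 1 = (n : ℝ) + 2 := by push_cast; ring
  rw [e1]
  have ha : (0 : ℝ) < (n : ℝ) + 1 := by linarith
  have hb : (0 : ℝ) < (n : ℝ) + 2 := by linarith
  have hle : ((n : ℝ) + 2) ^ (-s) ≤ ((n : ℝ) + 1) ^ (-s) :=
    Real.rpow_le_rpow_of_nonpos ha (by linarith) (by linarith)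
  rw [abs_of_nonneg (by linarith)]
  -- factor
  have hx0 : (0 : ℝ) < ((n : ℝ) + 1) / ((n : ℝ) + 2) := div_pos ha hb
  have hx1 : ((n : ℝ) + 1) / ((n : ℝ) + 2) ≤ 1 := by rw [div_le_one hb]; linarith
  have hfac : ((n : ℝ) + 2) ^ (-s) = ((n : ℝ) + 1) ^ (-s) * (((n : ℝ) + 1) / ((n : ℝ) + 2)) ^ s := by
    rw [Real.div_rpow ha.le hb.le, Real.rpow_neg ha.le, Real.rpow_neg hb.le]
    have := (Real.rpow_pos_of_pos ha s).ne'
    field_simp
  rw [hfac]
  have hsq : (((n : ℝ) + 1) / ((n : ℝ) + 2)) ^ (2 : ℝ) ≤ (((n : ℝ) + 1) / ((n : ℝ) + 2)) ^ s :=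
    Real.rpow_le_rpow_of_exponent_ge hx0 hx1 h2
  have hg : ((n : ℝ) + 1) ^ (-s) ≤ ((n : ℝ) + 1) ^ (-1 : ℝ) :=
    Real.rpow_le_rpow_of_exponent_le (by linarith) (by linarith)
  rw [Real.rpow_neg_one] at hg
  have hgpos : 0 ≤ ((n : ℝ) + 1) ^ (-s) := Real.rpow_nonneg ha.le _
  calc ((n : ℝ) + 1) ^ (-s) - ((n : ℝ) + 1) ^ (-s) * (((n : ℝ) + 1) / ((n : ℝ) + 2)) ^ s
      = ((n : ℝ) + 1) ^ (-s) * (1 - (((n : ℝ) + 1) / ((n : ℝ) + 2)) ^ s) := by ring
    _ ≤ ((n : ℝ) + 1)⁻¹ * (1 - (((n : ℝ) + 1) / ((n : ℝ) + 2)) ^ (2 : ℝ)) := by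
        apply mul_le_mul hg (by linarith) _ (by positivity)
        have : (((n : ℝ) + 1) / ((n : ℝ) + 2)) ^ s ≤ 1 := Real.rpow_le_one hx0.le hx1 (by linarith)
        linarith
    _ ≤ 2 / (((n : ℝ) + 1) * ((n : ℝ) + 2)) := by
        have : (((n : ℝ) + 1) / ((n : ℝ) + 2)) ^ (2 : ℝ) = (((n : ℝ) + 1) / ((n : ℝ) + 2)) ^ 2 := by
          norm_cast
        rw [this]
        have h3 : ((n : ℝ) + 1)⁻¹ * (1 - (((n : ℝ) + 1) / ((n : ℝ) + 2)) ^ 2) =
            (2 * n + 3) / (((n : ℝ) + 1) * ((n : ℝ) + 2) ^ 2) := by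
          field_simp; ring
        rw [h3, div_le_div_iff₀ (by positivity) (by positivity)]
        nlinarith [mul_pos ha hb]

lemma summable_bound (M : ℝ) :
    Summable fun n : ℕ => M * (2 / (((n : ℝ) + 1) * ((n : ℝ) + 2))) := by
  apply Summable.mul_left
  have h : Summable fun n : ℕ => (1 : ℝ) / ((n + 1 : ℕ) : ℝ) ^ 2 :=
    (summable_nat_add_iff 1).mpr (Real.summable_one_div_nat_pow.mpr one_lt_two)
  refine Summable.of_nonneg_of_le (fun n => by positivity) (fun n => ?_) (h.mul_left 2)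
  have ha : (0 : ℝ) < (n : ℝ) + 1 := by positivity
  push_cast
  rw [mul_one_div, div_le_div_iff₀ (by positivity) (by positivity)]
  nlinarith

/-- The value as an absolutely convergent series. -/
noncomputable def RR (z : ℂ) (s : ℝ) : ℂ :=
  ∑' n : ℕ, (∑ k ∈ range (n + 1), z ^ (k + 1)) * ((gw s n : ℂ) - (gw s (n + 1) : ℂ))

lemma term_bound {z : ℂ} (hz : ‖z‖ = 1) (hz1 : z ≠ 1) {s : ℝ} (h1 : 1 ≤ s) (h2 : s ≤ 2) (n : ℕ) :
    ‖(∑ k ∈ range (n + 1), z ^ (k + 1)) * ((gw s n : ℂ) - (gw s (n + 1) : ℂ))‖ ≤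
      2 / ‖1 - z‖ * (2 / (((n : ℝ) + 1) * ((n : ℝ) + 2))) := by
  rw [norm_mul]
  apply mul_le_mul (norm_geom_le hz hz1 _) _ (norm_nonneg _) (by positivity)
  rw [← ofReal_sub, norm_real]
  exact gw_diff_bound h1 h2 n

lemma tendsto_gw {s : ℝ} (h1 : 1 ≤ s) : Tendsto (fun n => gw s n) atTop (𝓝 0) := by
  have h : Tendsto (fun x : ℝ => x ^ (-s)) atTop (𝓝 0) := tendsto_rpow_neg_atTop (by linarith)
  exact h.comp (tendsto_atTop_add_const_right _ 1 tendsto_natCast_atTop_atTop)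

lemma tendsto_partial {z : ℂ} (hz : ‖z‖ = 1) (hz1 : z ≠ 1) {s : ℝ} (h1 : 1 ≤ s) (h2 : s ≤ 2) :
    Tendsto (fun K => ∑ n ∈ range K, z ^ (n + 1) * (gw s n : ℂ)) atTop (𝓝 (RR z s)) := by
  have hs : Summable fun n : ℕ =>
      (∑ k ∈ range (n + 1), z ^ (k + 1)) * ((gw s n : ℂ) - (gw s (n + 1) : ℂ)) :=
    Summable.of_norm_bounded (summable_bound _) (term_bound hz hz1 h1 h2)
  have ht := hs.hasSum.tendsto_sum_nat
  have hb : Tendsto (fun K => (∑ k ∈ range K, z ^ (k + 1)) * (gw s K : ℂ)) atTop (𝓝 0) := by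
    apply squeeze_zero_norm (a := fun K => 2 / ‖1 - z‖ * gw s K)
    · intro K
      rw [norm_mul, norm_real]
      have : ‖gw s K‖ = gw s K := by
        rw [Real.norm_eq_abs, abs_of_nonneg]
        exact Real.rpow_nonneg (by positivity) _
      rw [this]
      exact mul_le_mul_of_nonneg_right (norm_geom_le hz hz1 K) (Real.rpow_nonneg (by positivity) _)
    · simpa using (tendsto_gw h1).const_mul (2 / ‖1 - z‖)
  have := ht.add hb
  rw [add_zero] at this
  refine this.congr fun K => ?_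
  rw [sum_by_parts (fun n => z ^ (n + 1)) (fun n => (gw s n : ℂ)) K]

lemma tendsto_RR {z : ℂ} (hz : ‖z‖ = 1) (hz1 : z ≠ 1) :
    Tendsto (fun s : ℝ => RR z s) (𝓝[>] 1) (𝓝 (RR z 1)) := by
  unfold RR
  apply tendsto_tsum_of_dominated_convergence (summable_bound (2 / ‖1 - z‖))
  · intro n
    apply Tendsto.mul tendsto_const_nhds
    apply Tendsto.sub
    · refine (continuous_ofReal.tendsto _).comp (Tendsto.mono_left ?_ nhdsWithin_le_nhds)
      unfold gw
      apply (Real.continuousAt_const_rpow (by positivity)).tendsto.comp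
      exact tendsto_neg _ 
    · refine (continuous_ofReal.tendsto _).comp (Tendsto.mono_left ?_ nhdsWithin_le_nhds)
      unfold gw
      apply (Real.continuousAt_const_rpow (by positivity)).tendsto.comp
      exact tendsto_neg _ 
  · have : ∀ᶠ s : ℝ in 𝓝[>] 1, 1 ≤ s ∧ s ≤ 2 := by
      have h1 : ∀ᶠ s : ℝ in 𝓝[>] 1, s ∈ Set.Ioi (1 : ℝ) := self_mem_nhdsWithin
      have h2 : ∀ᶠ s : ℝ in 𝓝[>] 1, s < 2 :=
        nhdsWithin_le_nhds (Iio_mem_nhds (by norm_num))
      filter_upwards [h1, h2] with s hs1 hs2 using ⟨le_of_lt hs1, hs2.le⟩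
    filter_upwards [this] with s hs n
    exact term_bound hz hz1 hs.1 hs.2 n

lemma expZeta_eq_RR {x : ℝ} {z : ℂ} (hzx : z = cexp (2 * Real.pi * I * x)) (hz : ‖z‖ = 1)
    (hz1 : z ≠ 1) {s : ℝ} (h1 : 1 < s) (h2 : s ≤ 2) :
    expZeta (x : UnitAddCircle) (s : ℂ) = RR z s := by
  have h := hasSum_expZeta_of_one_lt_re x (s := (s : ℂ)) (by simpa using h1)
  have h' := (hasSum_nat_add_iff' 1).mpr h
  have h0 : ∑ i ∈ range 1, cexp (2 * Real.pi * I * x * (i : ℂ)) / (i : ℂ) ^ (s : ℂ) = 0 := by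
    simp only [range_one, sum_singleton, CharP.cast_eq_zero, mul_zero, Complex.exp_zero, one_div,
      inv_eq_zero]
    rw [Complex.zero_cpow]
    exact_mod_cast (by linarith : s ≠ 0)
  rw [h0, sub_zero] at h'
  have ht := h'.tendsto_sum_nat
  have ht' := tendsto_partial hz hz1 h1.le h2
  refine tendsto_nhds_unique (ht.congr fun K => sum_congr rfl fun n _ => ?_) ht'
  have e1 : cexp (2 * Real.pi * I * x * ((n + 1 : ℕ) : ℂ)) = z ^ (n + 1) := by
    rw [hzx, ← Complex.exp_nat_mul]; congr 1; ring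
  have e2 : (((n + 1 : ℕ) : ℂ)) ^ (s : ℂ) = (((n : ℝ) + 1) ^ s : ℝ) := by
    rw [ofReal_cpow (by positivity)]; push_cast; rfl
  rw [e1, e2, div_eq_mul_inv]
  congr 1
  unfold gw
  rw [Real.rpow_neg (by positivity)]
  push_cast
  rfl

/-- Value of `expZeta` at `1`. -/
theorem expZeta_one {x : ℝ} {z : ℂ} (hzx : z = cexp (2 * Real.pi * I * x)) (hz1 : z ≠ 1)
    (hx : (x : UnitAddCircle) ≠ 0) :
    expZeta (x : UnitAddCircle) 1 = - Complex.log (1 - z) := by
  have hz : ‖z‖ = 1 := by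
    rw [hzx, show (2 * Real.pi * I * x : ℂ) = ((2 * Real.pi * x : ℝ) : ℂ) * I by push_cast; ring]
    exact Complex.norm_exp_ofReal_mul_I _
  -- step 1
  have hA : expZeta (x : UnitAddCircle) 1 = RR z 1 := by
    have hcont : Tendsto (fun s : ℝ => expZeta (x : UnitAddCircle) (s : ℂ)) (𝓝[>] 1)
        (𝓝 (expZeta (x : UnitAddCircle) ((1 : ℝ) : ℂ))) := by
      have hc : Continuous fun s : ℝ => expZeta (x : UnitAddCircle) (s : ℂ) :=
        (differentiable_expZeta_of_ne_zero hx).continuous.comp continuous_ofReal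
      exact (hc.tendsto 1).mono_left nhdsWithin_le_nhds
    have h2 : Tendsto (fun s : ℝ => expZeta (x : UnitAddCircle) (s : ℂ)) (𝓝[>] 1) (𝓝 (RR z 1)) := by
      refine (tendsto_RR hz hz1).congr' ?_
      have h1 : ∀ᶠ s : ℝ in 𝓝[>] 1, s ∈ Set.Ioi (1 : ℝ) := self_mem_nhdsWithin
      have h2 : ∀ᶠ s : ℝ in 𝓝[>] 1, s < 2 :=
        nhdsWithin_le_nhds (Iio_mem_nhds (by norm_num))
      filter_upwards [h1, h2] with s hs1 hs2
      exact (expZeta_eq_RR hzx hz hz1 hs1 hs2.le).symm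
    have := tendsto_nhds_unique hcont h2
    simpa using this
  -- step 2 : Abel
  have hB : RR z 1 = - Complex.log (1 - z) := by
    have hp := tendsto_partial hz hz1 (s := 1) le_rfl one_le_two
    have hp' : Tendsto (fun K => ∑ i ∈ range K, z ^ i / (i : ℂ)) atTop (𝓝 (RR z 1)) := by
      rw [← tendsto_add_atTop_iff_nat 1]
      refine hp.congr fun K => ?_
      rw [sum_range_succ']
      simp only [CharP.cast_eq_zero, div_zero, add_zero]
      refine sum_congr rfl fun n _ => ?_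
      unfold gw
      rw [Real.rpow_neg_one]
      push_cast
      rfl
    have habel := Complex.tendsto_tsum_powerSeries_nhdsWithin_lt hp'
    rw [tendsto_map'_iff] at habel
    have hlim : Tendsto (fun r : ℝ => - Complex.log (1 - (r : ℂ) * z)) (𝓝[<] 1)
        (𝓝 (- Complex.log (1 - z))) := by
      refine Tendsto.neg ?_
      have hs : (1 : ℂ) - z ∈ slitPlane := by
        left
        have hre : z.re < 1 := by
          rcases lt_or_eq_of_le (hz ▸ Complex.re_le_norm z) with h | h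
          · exact h
          · exfalso
            apply hz1
            have hn : z.re ^ 2 + z.im ^ 2 = 1 := by
              have := Complex.sq_norm z
              rw [hz, Complex.normSq_apply] at this
              nlinarith
            have him : z.im = 0 := by
              rw [h] at hn
              nlinarith
            apply Complex.ext <;> simp [h, him]
        simp only [sub_re, one_re]
        linarith
      have h3 : Tendsto (fun r : ℝ => (1 : ℂ) - (r : ℂ) * z) (𝓝[<] 1) (𝓝 (1 - z)) := by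
        have : Tendsto (fun r : ℝ => (1 : ℂ) - (r : ℂ) * z) (𝓝 1) (𝓝 (1 - ((1 : ℝ) : ℂ) * z)) := by
          apply Continuous.tendsto
          fun_prop
        simpa using this.mono_left nhdsWithin_le_nhds
      exact ((continuousAt_clog hs).tendsto).comp h3
    refine tendsto_nhds_unique (habel.congr' ?_) hlim
    have h1 : ∀ᶠ r : ℝ in 𝓝[<] 1, r ∈ Set.Iio (1 : ℝ) := self_mem_nhdsWithin
    have h2 : ∀ᶠ r : ℝ in 𝓝[<] 1, 0 < r :=
      nhdsWithin_le_nhds (Ioi_mem_nhds (by norm_num))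
    filter_upwards [h1, h2] with r hr1 hr2
    have hn : ‖(r : ℂ) * z‖ < 1 := by
      rw [norm_mul, hz, mul_one, norm_real, Real.norm_eq_abs, abs_of_pos hr2]
      exact hr1
    have := (hasSum_taylorSeries_neg_log hn).tsum_eq
    simp only [Function.comp_apply]
    rw [← this]
    refine tsum_congr fun n => ?_
    rw [mul_pow]
    ring
  rw [hA, hB]

/-- The sine zeta function at `1` is the sawtooth. -/
theorem sinZeta_one {x : ℝ} (h0 : 0 < x) (h1 : x < 1) :
    sinZeta (x : UnitAddCircle) 1 = Real.pi * (1 / 2 - x) := by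
  have hxne : (x : UnitAddCircle) ≠ 0 := by
    intro h
    rw [AddCircle.coe_eq_zero_iff] at h
    obtain ⟨n, hn⟩ := h
    simp only [zsmul_eq_mul, mul_one] at hn
    rw [← hn] at h0 h1
    have h0' : (0 : ℤ) < n := by exact_mod_cast h0
    have h1' : n < (1 : ℤ) := by exact_mod_cast h1
    omega
  set z : ℂ := cexp (2 * Real.pi * I * x) with hz
  -- 1 - z in polar form
  have hsin : 0 < Real.sin (Real.pi * x) :=
    Real.sin_pos_of_pos_of_lt_pi (by positivity) (by nlinarith [Real.pi_pos])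
  have hpol : 1 - z = ((2 * Real.sin (Real.pi * x) : ℝ) : ℂ) *
      (Complex.cos ((Real.pi * (x - 1 / 2) : ℝ) : ℂ) + Complex.sin ((Real.pi * (x - 1 / 2) : ℝ) : ℂ) * I) := by
    have e1 : Complex.cos ((Real.pi * (x - 1 / 2) : ℝ) : ℂ) = (Real.sin (Real.pi * x) : ℝ) := by
      rw [← ofReal_cos, show Real.pi * (x - 1 / 2) = Real.pi * x - Real.pi / 2 by ring, Real.cos_sub_pi_div_two]
    have e2 : Complex.sin ((Real.pi * (x - 1 / 2) : ℝ) : ℂ) = (- Real.cos (Real.pi * x) : ℝ) := by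
      rw [← ofReal_sin, show Real.pi * (x - 1 / 2) = Real.pi * x - Real.pi / 2 by ring, Real.sin_sub_pi_div_two]
    rw [e1, e2, hz, show (2 * Real.pi * I * x : ℂ) = ((2 * (Real.pi * x) : ℝ) : ℂ) * I by push_cast; ring,
      Complex.exp_mul_I, ← ofReal_cos, ← ofReal_sin, Real.cos_two_mul, Real.sin_two_mul]
    have hsq := Real.sin_sq_add_cos_sq (Real.pi * x)
    generalize Real.sin (Real.pi * x) = S at hsq
    generalize Real.cos (Real.pi * x) = C at hsq
    apply Complex.ext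
    · simp only [sub_re, one_re, add_re, mul_re, ofReal_re, ofReal_im, I_re, I_im, add_im, mul_im]
      nlinarith
    · simp only [sub_im, one_im, add_re, mul_re, ofReal_re, ofReal_im, I_re, I_im, add_im, mul_im]
      ring
  have hz1 : z ≠ 1 := by
    intro h
    have h2 : (1 : ℂ) - z = 0 := by rw [h]; ring
    rw [h2] at hpol
    have h3 := congrArg Complex.re hpol
    have e1 : Complex.cos ((Real.pi * (x - 1 / 2) : ℝ) : ℂ) = (Real.sin (Real.pi * x) : ℝ) := by
      rw [← ofReal_cos, show Real.pi * (x - 1 / 2) = Real.pi * x - Real.pi / 2 by ring, Real.cos_sub_pi_div_two]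
    have e2 : Complex.sin ((Real.pi * (x - 1 / 2) : ℝ) : ℂ) = (- Real.cos (Real.pi * x) : ℝ) := by
      rw [← ofReal_sin, show Real.pi * (x - 1 / 2) = Real.pi * x - Real.pi / 2 by ring, Real.sin_sub_pi_div_two]
    rw [e1, e2] at h3
    generalize Real.sin (Real.pi * x) = S at hsin h3
    generalize Real.cos (Real.pi * x) = C at h3
    simp only [zero_re, add_re, mul_re, ofReal_re, ofReal_im, I_re, I_im, add_im, mul_im] at h3
    nlinarith
  have harg : Complex.arg (1 - z) = Real.pi * (x - 1 / 2) := by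
    rw [hpol]
    apply Complex.arg_mul_cos_add_sin_mul_I (by positivity)
    constructor <;> nlinarith [Real.pi_pos]
  have hE1 := expZeta_one hz hz1 hxne
  have hzc : (starRingEnd ℂ) z = cexp (2 * Real.pi * I * ((-x : ℝ) : ℂ)) := by
    rw [hz, ← Complex.exp_conj]
    congr 1
    rw [show (2 * Real.pi * I * x : ℂ) = ((2 * Real.pi * x : ℝ) : ℂ) * I by push_cast; ring,
      map_mul, conj_ofReal, conj_I]
    push_cast
    ring
  have hE2 := expZeta_one (x := -x) hzc (by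
    intro h
    apply hz1
    have := congrArg (starRingEnd ℂ) h
    simpa using this) (by
    rw [AddCircle.coe_neg]
    exact neg_ne_zero.mpr hxne)
  rw [sinZeta_eq, hE1, ← AddCircle.coe_neg, hE2]
  have hlog : Complex.log (1 - (starRingEnd ℂ) z) = (starRingEnd ℂ) (Complex.log (1 - z)) := by
    rw [← Complex.log_conj]
    · simp
    · rw [harg]
      nlinarith [Real.pi_pos]
  rw [hlog]
  have hsub : -Complex.log (1 - z) - -(starRingEnd ℂ) (Complex.log (1 - z)) =
      - ((2 * (Complex.log (1 - z)).im : ℝ) : ℂ) * I := by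
    apply Complex.ext <;> simp
    ring
  rw [hsub, Complex.log_im, harg]
  have hI : (2 : ℂ) * I ≠ 0 := by simp
  field_simp
  push_cast
  ring

end Pool.Agent.H80.OC
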