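import Mathlib
import Pool.Agent.H80.Sig.Jump
set_option autoImplicit false

/-!
# The finite Fourier transform of the jump function of a torus knot
-/

namespace Pool.Agent.H80.Sig

open Finset

/-- `exp (-2 π i t)` -/
noncomputable def ee (t : ℝ) : ℂ := Complex.exp (-(2 * Real.pi * Complex.I * t))

lemma ee_add (a b : ℝ) : ee (a + b) = ee a * ee b := by
  unfold ee; rw [← Complex.exp_add]; congr 1; push_cast; ring

lemma ee_eq_one_iff (t : ℝ) : ee t = 1 ↔ ∃ n : ℤ, t = n := by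
  unfold ee
  rw [Complex.exp_eq_one_iff]
  have hpi : (Real.pi : ℂ) ≠ 0 := by exact_mod_cast Real.pi_ne_zero
  constructor
  · rintro ⟨n, hn⟩
    refine ⟨-n, ?_⟩
    have h1 : (2 * Real.pi * Complex.I) * ((t : ℂ) + n) = 0 := by
      linear_combination -hn
    rcases mul_eq_zero.1 h1 with h | h
    · exfalso
      rcases mul_eq_zero.1 h with h | h
      · rcases mul_eq_zero.1 h with h | h
        · norm_num at h
        · exact hpi h
      · exact Complex.I_ne_zero h
    · have h2 : ((t : ℂ)) = ((-n : ℤ) : ℝ) := by push_cast; linear_combination h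
      exact_mod_cast h2
  · rintro ⟨n, hn⟩
    refine ⟨-n, ?_⟩
    rw [hn]; push_cast; ring

lemma ee_ne_zero (t : ℝ) : ee t ≠ 0 := Complex.exp_ne_zero _

lemma ee_zero : ee 0 = 1 := by rw [ee_eq_one_iff]; exact ⟨0, by simp⟩

lemma ee_neg (t : ℝ) : ee (-t) * ee t = 1 := by
  rw [← ee_add, neg_add_cancel, ee_zero]

lemma ee_eq_iff (a b : ℝ) : ee a = ee b ↔ ∃ n : ℤ, a - b = n := by
  rw [← ee_eq_one_iff]
  have h : ee (a - b) * ee b = ee a := by rw [← ee_add, sub_add_cancel]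
  constructor
  · intro h1
    have h2 : ee (a - b) * ee b = 1 * ee b := by rw [h, h1, one_mul]
    exact mul_right_cancel₀ (ee_ne_zero b) h2
  · intro h1
    rw [← h, h1, one_mul]

lemma ee_half : ee (1 / 2) = -1 := by
  unfold ee
  have : -(2 * (Real.pi : ℂ) * Complex.I * ((1 / 2 : ℝ) : ℂ)) = -(Real.pi * Complex.I) := by
    push_cast; ring
  rw [this, Complex.exp_neg, Complex.exp_pi_mul_I]; norm_num

lemma ee_nat_mul (k : ℕ) (t : ℝ) : ee (k * t) = ee t ^ k := by
  induction k with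
  | zero => simp [ee_zero]
  | succ k ih =>
    rw [pow_succ, ← ih, ← ee_add]
    congr 1; push_cast; ring

/-- The finite Fourier transform at level `N`. -/
noncomputable def Ft (N : ℕ) (f : ℝ → ℤ) (h : ℕ) : ℂ :=
  ∑ k ∈ range N, (f ((k : ℝ) / N) : ℂ) * ee ((h : ℝ) * (k / N))

lemma sum_range_mul (a b : ℕ) (g : ℕ → ℂ) :
    ∑ k ∈ range (a * b), g k = ∑ t ∈ range b, ∑ k ∈ range a, g (a * t + k) := by
  induction b with
  | zero => simp
  | succ b ih =>
    rw [Finset.sum_range_succ, ← ih, Nat.mul_succ, Finset.sum_range_add]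

lemma sum_ee_range {p : ℕ} (hp : 0 < p) (h : ℕ) :
    ∑ t ∈ range p, ee ((h : ℝ) * (t / p)) = if p ∣ h then (p : ℂ) else 0 := by
  have hp' : (p : ℝ) ≠ 0 := by exact_mod_cast hp.ne'
  have h1 : ∀ t ∈ range p, ee ((h : ℝ) * (t / p)) = ee ((h : ℝ) / p) ^ t := by
    intro t _
    rw [← ee_nat_mul]; congr 1; ring
  rw [Finset.sum_congr rfl h1]
  by_cases hd : p ∣ h
  · rw [if_pos hd]
    obtain ⟨c, rfl⟩ := hd
    have : ee (((p * c : ℕ) : ℝ) / p) = 1 := by
      rw [ee_eq_one_iff]; refine ⟨c, ?_⟩; push_cast; field_simp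
    rw [this]; simp
  · rw [if_neg hd]
    have hne : ee ((h : ℝ) / p) ≠ 1 := by
      rw [Ne, ee_eq_one_iff]
      rintro ⟨n, hn⟩
      apply hd
      have h2 : (h : ℝ) = n * p := by rw [← hn]; field_simp
      have h3 : (h : ℤ) = n * p := by exact_mod_cast h2
      exact Int.natCast_dvd_natCast.1 ⟨n, by rw [h3]; ring⟩
    rw [geom_sum_eq hne]
    have : ee ((h : ℝ) / p) ^ p = 1 := by
      rw [← ee_nat_mul, ee_eq_one_iff]
      refine ⟨h, ?_⟩; push_cast; field_simp
    rw [this]; simp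

/-- The Fourier transform of `x ↦ f (p x)`. -/
lemma Ft_comp {f : ℝ → ℤ} (hf : ∀ (x : ℝ) (k : ℤ), f (x + k) = f x) {p N : ℕ} (hp : 0 < p)
    (hN : 0 < N) (h : ℕ) :
    Ft (N * p) (fun x => f (p * x)) h = if p ∣ h then (p : ℂ) * Ft N f (h / p) else 0 := by
  have hp' : (p : ℝ) ≠ 0 := by exact_mod_cast hp.ne'
  have hN' : (N : ℝ) ≠ 0 := by exact_mod_cast hN.ne'
  have h1 : Ft (N * p) (fun x => f (p * x)) h =
      (∑ k ∈ range N, (f ((k : ℝ) / N) : ℂ) * ee ((h : ℝ) * (k / (N * p)))) *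
        ∑ t ∈ range p, ee ((h : ℝ) * (t / p)) := by
    unfold Ft
    rw [sum_range_mul, Finset.mul_sum]
    refine Finset.sum_congr rfl fun t _ => ?_
    rw [Finset.sum_mul]
    refine Finset.sum_congr rfl fun k _ => ?_
    have e1 : (p : ℝ) * (((N * t + k : ℕ) : ℝ) / ((N * p : ℕ) : ℝ)) = (k : ℝ) / N + ((t : ℤ) : ℝ) := by
      push_cast; field_simp; ring
    have e2 : (h : ℝ) * (((N * t + k : ℕ) : ℝ) / ((N * p : ℕ) : ℝ)) =
        (h : ℝ) * (k / (N * p)) + (h : ℝ) * (t / p) := by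
      push_cast; field_simp; ring
    simp only [e1, e2]
    rw [hf, ee_add]; ring
  rw [h1, sum_ee_range hp]
  by_cases hd : p ∣ h
  · rw [if_pos hd, if_pos hd, mul_comm]
    congr 1
    unfold Ft
    refine Finset.sum_congr rfl fun k _ => ?_
    congr 2
    obtain ⟨c, rfl⟩ := hd
    rw [Nat.mul_div_cancel_left _ hp]
    push_cast; field_simp
  · rw [if_neg hd, if_neg hd, mul_zero]

/-- the complex sign -/
noncomputable def sgc (p q i j : ℕ) : ℂ := if i * q + j * p < p * q then 1 else -1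

/-- The Fourier coefficient of the jump function of `T(p,q)`. -/
noncomputable def G (p q h : ℕ) : ℂ :=
  ∑ i ∈ Ico 1 p, ∑ j ∈ Ico 1 q, sgc p q i j * ee ((h : ℝ) * ((i : ℝ) / p + (j : ℝ) / q))

lemma lt_one_iff {p q i j : ℕ} (hp : 0 < p) (hq : 0 < q) :
    (i : ℝ) / p + (j : ℝ) / q < 1 ↔ i * q + j * p < p * q := by
  have hp' : (0 : ℝ) < p := by exact_mod_cast hp
  have hq' : (0 : ℝ) < q := by exact_mod_cast hq
  rw [div_add_div _ _ hp'.ne' hq'.ne', div_lt_one (by positivity)]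
  constructor
  · intro h
    have : (i * q + j * p : ℝ) < p * q := by linarith
    exact_mod_cast this
  · intro h
    have : (i * q + j * p : ℝ) < p * q := by exact_mod_cast h
    linarith

lemma Ft_J {p q N : ℕ} (hp : 0 < p) (hq : 0 < q) (hN : 0 < N) (hd : p * q ∣ N) (h : ℕ) :
    Ft N (J p q) h = G p q h := by
  classical
  have hp' : (p : ℝ) ≠ 0 := by exact_mod_cast hp.ne'
  have hq' : (q : ℝ) ≠ 0 := by exact_mod_cast hq.ne'
  have hN' : (N : ℝ) ≠ 0 := by exact_mod_cast hN.ne'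
  unfold Ft J G
  push_cast
  simp_rw [Finset.sum_mul]
  rw [Finset.sum_comm]
  refine Finset.sum_congr rfl fun i hi => ?_
  rw [Finset.sum_comm]
  refine Finset.sum_congr rfl fun j hj => ?_
  obtain ⟨M, rfl⟩ := hd
  -- the unique `k`
  set m := (i * q + j * p) * M with hm
  have hMpos : 0 < M := Nat.pos_of_mul_pos_left hN
  have hM' : (M : ℝ) ≠ 0 := by exact_mod_cast hMpos.ne'
  have hs : (i : ℝ) / p + (j : ℝ) / q = (m : ℝ) / ((p * q * M : ℕ) : ℝ) := by
    rw [hm]; push_cast; field_simp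
  obtain ⟨D, hD⟩ : ∃ D, D = m / (p * q * M) := ⟨_, rfl⟩
  obtain ⟨R, hR⟩ : ∃ R, R = m % (p * q * M) := ⟨_, rfl⟩
  have hRD : R + (p * q * M) * D = m := by rw [hR, hD]; exact Nat.mod_add_div m (p * q * M)
  have hRlt : R < p * q * M := by rw [hR]; exact Nat.mod_lt _ hN
  have hk : R ∈ range (p * q * M) := mem_range.2 hRlt
  have hmod : (R : ℝ) / ((p * q * M : ℕ) : ℝ) = (m : ℝ) / ((p * q * M : ℕ) : ℝ) - (D : ℝ) := by
    have h2 : (R : ℝ) + ((p * q * M : ℕ) : ℝ) * (D : ℝ) = m := by exact_mod_cast hRD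
    field_simp
    linarith
  rw [Finset.sum_eq_single R]
  · rw [if_pos]
    · have e1 : ee ((h : ℝ) * ((R : ℝ) / ((p * q * M : ℕ) : ℝ))) =
          ee ((h : ℝ) * ((i : ℝ) / p + (j : ℝ) / q)) := by
        rw [ee_eq_iff]
        refine ⟨-((h : ℤ) * D), ?_⟩
        rw [hmod, hs]; push_cast; ring
      rw [e1]
      congr 1
      unfold sgc
      by_cases hlt : (i : ℝ) / p + (j : ℝ) / q < 1
      · rw [if_pos hlt, if_pos ((lt_one_iff hp hq).1 hlt)]
      · rw [if_neg hlt, if_neg (fun h' => hlt ((lt_one_iff hp hq).2 h'))]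
    · refine ⟨-(D : ℤ), ?_⟩
      rw [hmod, hs]; push_cast; ring
  · intro k hk' hne
    rw [if_neg, zero_mul]
    rintro ⟨n, hn⟩
    apply hne
    rw [hs] at hn
    have h1 : (k : ℝ) - m = n * ((p * q * M : ℕ) : ℝ) := by
      rw [← hn]; field_simp
    have h2 : (k : ℤ) - m = n * ((p * q * M : ℕ) : ℤ) := by exact_mod_cast h1
    have h3 : (m : ℤ) ≡ k [ZMOD ((p * q * M : ℕ) : ℤ)] := by
      rw [Int.modEq_iff_dvd]
      exact ⟨n, by rw [h2]; ring⟩
    have h4 : m % (p * q * M) = k % (p * q * M) := (Int.natCast_modEq_iff.1 h3)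
    rw [hR, h4, Nat.mod_eq_of_lt (mem_range.1 hk')]
  · intro hk'
    exact absurd hk hk'

lemma J_swap (p q : ℕ) (x : ℝ) : J p q x = J q p x := by
  classical
  unfold J
  rw [Finset.sum_comm]
  refine Finset.sum_congr rfl fun i _ => Finset.sum_congr rfl fun j _ => ?_
  rw [add_comm ((j : ℝ) / p) ((i : ℝ) / q)]

lemma G_swap (p q h : ℕ) : G p q h = G q p h := by
  unfold G
  rw [Finset.sum_comm]
  refine Finset.sum_congr rfl fun i _ => Finset.sum_congr rfl fun j _ => ?_
  unfold sgc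
  rw [add_comm ((j : ℝ) / p) ((i : ℝ) / q), add_comm (j * q), mul_comm q p]

lemma sum_mod {p q : ℕ} (hc : Nat.Coprime p q) (f : ℕ → ℂ) :
    ∑ i ∈ Ico 1 p, f (q * i % p) = ∑ r ∈ Ico 1 p, f r := by
  have hmem : ∀ i ∈ Ico 1 p, q * i % p ∈ Ico 1 p := by
    intro i hi
    rw [mem_Ico] at hi ⊢
    refine ⟨?_, Nat.mod_lt _ (by omega)⟩
    rcases Nat.eq_zero_or_pos (q * i % p) with h | h
    · exfalso
      have h1 : p ∣ q * i := Nat.dvd_of_mod_eq_zero h
      have h2 : p ∣ i := hc.dvd_of_dvd_mul_left h1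
      have := Nat.le_of_dvd (by omega) h2
      omega
    · exact h
  have hinj : Set.InjOn (fun i => q * i % p) (Ico 1 p : Finset ℕ) := by
    intro i hi j hj hij
    rw [Finset.coe_Ico, Set.mem_Ico] at hi hj
    have h1 : q * i ≡ q * j [MOD p] := hij
    have h2 : i ≡ j [MOD p] := Nat.ModEq.cancel_left_of_coprime hc h1
    have h3 : i % p = j % p := h2
    rwa [Nat.mod_eq_of_lt hi.2, Nat.mod_eq_of_lt hj.2] at h3
  have himg : (Ico 1 p).image (fun i => q * i % p) = Ico 1 p := by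
    apply Finset.eq_of_subset_of_card_le
    · intro x hx
      obtain ⟨i, hi, rfl⟩ := Finset.mem_image.1 hx
      exact hmem i hi
    · rw [Finset.card_image_of_injOn hinj]
  conv_rhs => rw [← himg]
  rw [Finset.sum_image hinj]

/-- The Fourier coefficients of the jump function of `T(p,q)`: a cotangent formula. -/
theorem G_formula {p q : ℕ} (hc : Nat.Coprime p q) (hp : 0 < p) (hq : 0 < q) {h : ℕ}
    (hqh : ¬ q ∣ h) :
    G p q h = (1 + ee ((h : ℝ) / (p * q))) / (ee ((h : ℝ) / (p * q)) - 1) -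
      (if p ∣ h then (p : ℂ) * ((1 + ee ((h : ℝ) / q)) / (ee ((h : ℝ) / q) - 1)) else 0) := by
  have hp' : (p : ℝ) ≠ 0 := by exact_mod_cast hp.ne'
  have hq' : (q : ℝ) ≠ 0 := by exact_mod_cast hq.ne'
  set z := ee ((h : ℝ) / (p * q)) with hz
  set v := ee ((h : ℝ) / q) with hv
  set w := ee ((h : ℝ) / p) with hw
  have hzp : z ^ p = v := by
    rw [hz, hv, ← ee_nat_mul]; congr 1; field_simp
  have hzq : z ^ q = w := by
    rw [hz, hw, ← ee_nat_mul]; congr 1; field_simp
  have hv1 : v ≠ 1 := by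
    rw [hv, Ne, ee_eq_one_iff]
    rintro ⟨n, hn⟩
    apply hqh
    have h2 : (h : ℝ) = n * q := by rw [← hn]; field_simp
    have h3 : (h : ℤ) = n * q := by exact_mod_cast h2
    exact Int.natCast_dvd_natCast.1 ⟨n, by rw [h3]; ring⟩
  have hz1 : z ≠ 1 := by
    intro h1; apply hv1; rw [← hzp, h1, one_pow]
  have hvq : v ^ q = 1 := by
    rw [hv, ← ee_nat_mul, ee_eq_one_iff]; exact ⟨h, by push_cast; field_simp⟩
  have hwp : w ^ p = 1 := by
    rw [hw, ← ee_nat_mul, ee_eq_one_iff]; exact ⟨h, by push_cast; field_simp⟩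
  have hv0 : v - 1 ≠ 0 := sub_ne_zero.2 hv1
  have hz0 : z - 1 ≠ 0 := sub_ne_zero.2 hz1
  have hvne : v ≠ 0 := ee_ne_zero _
  have hzne : z ≠ 0 := ee_ne_zero _
  -- the inner sum
  have inner : ∀ i ∈ Ico 1 p, ∑ j ∈ Ico 1 q, sgc p q i j *
      ee ((h : ℝ) * ((i : ℝ) / p + (j : ℝ) / q)) =
      (2 * z ^ (q * i % p) - (v + 1) * w ^ i) / (v - 1) := by
    intro i hi
    have hi' := mem_Ico.1 hi
    obtain ⟨m, hm⟩ : ∃ m, m = q * i / p := ⟨_, rfl⟩
    obtain ⟨r, hr⟩ : ∃ r, r = q * i % p := ⟨_, rfl⟩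
    have hdm : p * m + r = q * i := by rw [hm, hr]; exact Nat.div_add_mod (q * i) p
    have hr1 : 1 ≤ r := by
      rcases Nat.eq_zero_or_pos r with h0 | h0
      · exfalso
        have h1 : p ∣ q * i := Nat.dvd_of_mod_eq_zero (hr ▸ h0)
        have h2 : p ∣ i := hc.dvd_of_dvd_mul_left h1
        have := Nat.le_of_dvd (by omega) h2
        omega
      · exact h0
    have hr2 : r < p := by rw [hr]; exact Nat.mod_lt _ hp
    have hmq : m < q := by
      rw [hm, Nat.div_lt_iff_lt_mul hp]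
      exact Nat.mul_lt_mul_of_pos_left hi'.2 hq
    rw [← hr]
    clear hm hr
    have e1 : ∀ j ∈ Ico 1 q, sgc p q i j * ee ((h : ℝ) * ((i : ℝ) / p + (j : ℝ) / q)) =
        w ^ i * (sgc p q i j * v ^ j) := by
      intro j _
      have : ee ((h : ℝ) * ((i : ℝ) / p + (j : ℝ) / q)) = w ^ i * v ^ j := by
        rw [hw, hv, ← ee_nat_mul, ← ee_nat_mul, ← ee_add]; congr 1; ring
      rw [this]; ring
    rw [Finset.sum_congr rfl e1, ← Finset.mul_sum]
    have e2 : ∑ j ∈ Ico 1 q, sgc p q i j * v ^ j =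
        ∑ j ∈ Ico 1 (q - m), v ^ j - ∑ j ∈ Ico (q - m) q, v ^ j := by
      rw [← Finset.sum_Ico_consecutive (fun j => sgc p q i j * v ^ j) (m := 1) (n := q - m) (k := q)
        (by omega) (by omega), sub_eq_add_neg, ← Finset.sum_neg_distrib]
      congr 1
      · refine Finset.sum_congr rfl fun j hj => ?_
        have hj' := mem_Ico.1 hj
        have : i * q + j * p < p * q := by
          have h5 : m + j + 1 ≤ q := by omega
          calc i * q + j * p = p * (m + j) + r := by nlinarith [hdm]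
            _ < p * (m + j + 1) := by rw [Nat.mul_succ]; omega
            _ ≤ p * q := Nat.mul_le_mul_left _ h5
        unfold sgc
        rw [if_pos this, one_mul]
      · refine Finset.sum_congr rfl fun j hj => ?_
        have hj' := mem_Ico.1 hj
        have : ¬ (i * q + j * p < p * q) := by
          have h5 : q ≤ m + j := by omega
          have h6 : p * q ≤ p * (m + j) := Nat.mul_le_mul_left _ h5
          have h7 : i * q + j * p = p * (m + j) + r := by nlinarith [hdm]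
          omega
        unfold sgc
        rw [if_neg this]; ring
    rw [e2, geom_sum_Ico hv1 (by omega), geom_sum_Ico hv1 (by omega), hvq]
    have e3 : w ^ i * v ^ (q - m) = z ^ r := by
      have h8 : w ^ i * v ^ (q - m) * v ^ m = w ^ i := by
        rw [mul_assoc, ← pow_add, Nat.sub_add_cancel hmq.le, hvq, mul_one]
      have h9 : z ^ r * v ^ m = w ^ i := by
        rw [← hzp, ← hzq, ← pow_mul, ← pow_mul, ← pow_add]; congr 1; rw [← hdm]; ring
      exact mul_right_cancel₀ (pow_ne_zero m hvne) (h8.trans h9.symm)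
    rw [← e3]
    field_simp
    ring
  unfold G
  rw [Finset.sum_congr rfl inner, ← Finset.sum_div, Finset.sum_sub_distrib, ← Finset.mul_sum,
    ← Finset.mul_sum, sum_mod hc (fun r => z ^ r), geom_sum_Ico hz1 (by omega : 1 ≤ p), hzp, pow_one]
  by_cases hd : p ∣ h
  · rw [if_pos hd]
    have hw1 : w = 1 := by
      obtain ⟨c, rfl⟩ := hd
      rw [hw, ee_eq_one_iff]; exact ⟨c, by push_cast; field_simp⟩
    rw [hw1]
    simp only [one_pow, Finset.sum_const, Nat.card_Ico, nsmul_eq_mul, mul_one]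
    rw [Nat.cast_sub (by omega : 1 ≤ p)]
    field_simp
    push_cast
    ring
  · rw [if_neg hd]
    have hw1 : w ≠ 1 := by
      rw [hw, Ne, ee_eq_one_iff]
      rintro ⟨n, hn⟩
      apply hd
      have h2 : (h : ℝ) = n * p := by rw [← hn]; field_simp
      have h3 : (h : ℤ) = n * p := by exact_mod_cast h2
      exact Int.natCast_dvd_natCast.1 ⟨n, by rw [h3]; ring⟩
    have hw0 : w - 1 ≠ 0 := sub_ne_zero.2 hw1
    rw [geom_sum_Ico hw1 (by omega : 1 ≤ p), hwp, pow_one]
    field_simp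
    ring

end Pool.Agent.H80.Sig
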