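import Pool.Agent.H80.Sig.Syms
set_option autoImplicit false

/-!
# The products of the parameters of the last cablings, and the exceptional relation
-/

namespace Pool.Agent.H80.Sig

open Finset

/-- The product `p q` of the parameters of the last cabling (the first entry of the list); `0` for the
trivial knot. -/
def lastProd : List (ℕ × ℕ) → ℕ
  | [] => 0
  | (p, q) :: _ => p * q

lemma syms_P {L : List (ℕ × ℕ)} {P : ℕ} : ∀ s ∈ syms L P, P ∣ s.2.2 := by
  induction L generalizing P with
  | nil => intro s hs; simp [syms] at hs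
  | cons c L ih =>
    obtain ⟨p, q⟩ := c
    intro s hs
    simp only [syms, List.mem_cons] at hs
    rcases hs with rfl | hs
    · exact dvd_refl _
    · exact (Dvd.intro_left p rfl).trans (ih s hs)

lemma count_one {p q : ℕ} (hp : 2 ≤ p) (L : List (ℕ × ℕ)) {s : ℕ × ℕ × ℕ} (hs : s.2.2 = 1) :
    (syms ((p, q) :: L) 1).count s = if s = (min p q, max p q, 1) then 1 else 0 := by
  have h1 : (syms L (p * 1)).count s = 0 := by
    rw [List.count_eq_zero]
    intro h
    have h2 := syms_P s h
    rw [hs, mul_one] at h2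
    have := Nat.le_of_dvd one_pos h2
    omega
  simp only [syms]
  rw [List.count_cons, h1, zero_add]
  simp only [beq_iff_eq]
  by_cases h : s = (min p q, max p q, 1)
  · rw [if_pos h, if_pos h.symm]
  · rw [if_neg h, if_neg (fun h' => h h'.symm)]

theorem last_products {ι : Type*} (S : Finset ι) (a : ι → ℝ) (K : ι → List (ℕ × ℕ))
    (hK : ∀ k ∈ S, ∀ c ∈ K k, Nat.Coprime c.1 c.2 ∧ 2 ≤ c.1 ∧ 2 ≤ c.2)
    (hfin : {x : ℝ | x ∈ Set.Ioo (0 : ℝ) 1 ∧ ∑ k ∈ S, a k * (sigK (K k) x : ℝ) ≠ 0}.Finite) :
    ∃ t : ℝ, ∀ N : ℕ, N ≠ 0 → ∑ k ∈ S with lastProd (K k) = N, a k =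
      if N = 30 then t else if N = 6 ∨ N = 10 ∨ N = 15 then -t else 0 := by
  classical
  have hCop : ∀ k ∈ S, Cop (K k) := fun k hk c hc =>
    ⟨(hK k hk c hc).1, by have := (hK k hk c hc).2.1; omega⟩
  have hR := rel_of_sig S a K hCop hfin
  have hG : ∀ s ∈ occ S K, Good s := fun s hs => (occ_good hCop s hs).1
  have hprod := products hG hR one_pos (fun s _ _ hd => Nat.dvd_one.1 hd)
  have key : ∀ N : ℕ, N ≠ 0 →
      ∑ s ∈ (occ S K).filter (fun s => s.2.2 = 1 ∧ s.1 * s.2.1 = N), wt S a K s =
        ∑ k ∈ S with lastProd (K k) = N, a k := by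
    intro N hN
    unfold wt
    rw [sum_comm, sum_filter]
    refine sum_congr rfl fun k hk => ?_
    rw [← mul_sum]
    rcases hKk : K k with _ | ⟨⟨p, q⟩, L⟩
    · rw [if_neg (by simpa [lastProd] using hN.symm)]
      simp [syms]
    · have hc := hK k hk (p, q) (by rw [hKk]; simp)
      simp only at hc
      have h1 : ∀ s ∈ (occ S K).filter (fun s => s.2.2 = 1 ∧ s.1 * s.2.1 = N),
          (((syms ((p, q) :: L) 1).count s : ℕ) : ℝ) =
            if s = (min p q, max p q, 1) then 1 else 0 := by
        intro s hs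
        rw [count_one hc.2.1 L (mem_filter.1 hs).2.1]
        push_cast; rfl
      rw [sum_congr rfl h1, sum_ite_eq']
      have hmem : (min p q, max p q, 1) ∈ occ S K := by
        rw [mem_occ]
        refine ⟨⟨k, hk, by rw [hKk]; simp [syms]⟩, ?_⟩
        simp only
        have := hc.2.1
        have := hc.2.2
        omega
      by_cases hpq : p * q = N
      · rw [if_pos, if_pos (by simpa [lastProd] using hpq), mul_one]
        rw [mem_filter]
        exact ⟨hmem, rfl, by simp only; rw [min_mul_max]; exact hpq⟩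
      · rw [if_neg, if_neg (by simpa [lastProd] using hpq), mul_zero]
        rw [mem_filter]
        rintro ⟨_, _, h2⟩
        simp only at h2
        rw [min_mul_max] at h2
        exact hpq h2
  refine ⟨∑ k ∈ S with lastProd (K k) = 30, a k, fun N hN => ?_⟩
  have h1 := hprod N
  rw [key N hN, key 30 (by norm_num)] at h1
  unfold rho at h1
  split_ifs with h2 h3
  · rw [h2]
  · rw [if_neg h2, if_pos h3, mul_neg_one] at h1
    exact_mod_cast h1
  · rw [if_neg h2, if_neg h3, mul_zero] at h1
    exact_mod_cast h1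

/-- the value of the signature between two multiples of `1 / n` -/
def sigD (p q m k : ℕ) : ℤ :=
  ∑ i ∈ Finset.Ico 1 p, ∑ j ∈ Finset.Ico 1 q,
    if k < (i * q + j * p) * m ∧ (i * q + j * p) * m ≤ k + p * q * m then -1 else 1

lemma sig_eq_sigD {p q m K : ℕ} (hp : 0 < p) (hq : 0 < q) (hm : 0 < m) {y : ℝ}
    (h1 : (K : ℝ) < y * (p * q * m)) (h2 : y * (p * q * m) < K + 1) :
    sig p q y = sigD p q m (K % (p * q * m)) := by
  have hp' : (0 : ℝ) < p := by exact_mod_cast hp
  have hq' : (0 : ℝ) < q := by exact_mod_cast hq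
  have hm' : (0 : ℝ) < m := by exact_mod_cast hm
  set n := p * q * m with hn
  have hn0 : 0 < n := by positivity
  have hn' : (0 : ℝ) < n := by exact_mod_cast hn0
  have hnr : (n : ℝ) = p * q * m := by rw [hn]; push_cast; ring
  rw [← hnr] at h1 h2
  set r := K % n with hr
  set d := K / n with hd
  have hK : K = n * d + r := (Nat.div_add_mod K n).symm
  have hrn : r < n := Nat.mod_lt _ hn0
  have hKr : (K : ℝ) = n * d + r := by exact_mod_cast hK
  have hfl : ⌊y⌋ = (d : ℤ) := by
    rw [Int.floor_eq_iff]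
    constructor
    · have : (n : ℝ) * d ≤ y * n := by
        have : (0 : ℝ) ≤ r := by positivity
        linarith
      have h3 : ((d : ℤ) : ℝ) * n ≤ y * n := by push_cast; linarith
      exact le_of_mul_le_mul_right h3 hn'
    · have h3 : (r : ℝ) + 1 ≤ n := by exact_mod_cast hrn
      have h4 : y * n < (((d : ℤ) : ℝ) + 1) * n := by push_cast; linarith
      exact lt_of_mul_lt_mul_right h4 hn'.le
  have hfr : Int.fract y = y - d := by
    rw [← Int.self_sub_floor, hfl]; push_cast; ring
  unfold sig sigD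
  refine Finset.sum_congr rfl fun i _ => Finset.sum_congr rfl fun j _ => ?_
  have e : (i : ℝ) / p + (j : ℝ) / q = (((i * q + j * p) * m : ℕ) : ℝ) / n := by
    rw [hnr]; push_cast; field_simp
  rw [hfr, e]
  set c := (i * q + j * p) * m with hc
  have a1 : y - d < (c : ℝ) / n ↔ r < c := by
    rw [lt_div_iff₀ hn']
    have e1 : (y - d) * n = y * n - n * d := by ring
    rw [e1]
    constructor
    · intro h
      have : (r : ℝ) < c := by linarith
      exact_mod_cast this
    · intro h
      have : (r : ℝ) + 1 ≤ c := by exact_mod_cast h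
      linarith
  have a2 : (c : ℝ) / n < y - d + 1 ↔ c ≤ r + n := by
    rw [div_lt_iff₀ hn']
    have e1 : (y - d + 1) * n = y * n - n * d + n := by ring
    rw [e1]
    constructor
    · intro h
      have : (c : ℝ) < r + n + 1 := by linarith
      have : c < r + n + 1 := by exact_mod_cast this
      omega
    · intro h
      have : (c : ℝ) ≤ r + n := by exact_mod_cast h
      linarith
  by_cases h : r < c ∧ c ≤ r + n
  · rw [if_pos h, if_pos ⟨a1.2 h.1, a2.2 h.2⟩]
  · rw [if_neg h, if_neg (fun h' => h ⟨a1.1 h'.1, a2.1 h'.2⟩)]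

lemma check30 : ∀ k < 30, sigD 5 6 1 k = sigD 2 3 5 k + sigD 2 5 3 k +
    (sigD 5 3 2 k + sigD 2 3 1 (k % 6)) := by decide

/-- The signature functions of `T(5,6)` and of `T(2,3) # T(2,5) # T(2,3;5,3)` agree at all but
finitely many points. -/
theorem exceptional : {x : ℝ | x ∈ Set.Ioo (0 : ℝ) 1 ∧ sigK [(5, 6)] x ≠
    sigK [(2, 3)] x + sigK [(2, 5)] x + sigK [(5, 3), (2, 3)] x}.Finite := by
  apply ((Finset.range 31).image (fun k : ℕ => (k : ℝ) / 30)).finite_toSet.subset
  rintro x ⟨⟨hx0, hx1⟩, hne⟩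
  by_contra hcon
  apply hne
  obtain ⟨k, hk⟩ : ∃ k : ℕ, k = ⌊x * 30⌋₊ := ⟨_, rfl⟩
  have hx30 : 0 ≤ x * 30 := by linarith
  have h1 : (k : ℝ) ≤ x * 30 := by rw [hk]; exact Nat.floor_le hx30
  have h2 : x * 30 < k + 1 := by rw [hk]; exact Nat.lt_floor_add_one _
  have hk30 : k < 30 := by
    have : (k : ℝ) < 30 := by linarith
    exact_mod_cast this
  have h3 : (k : ℝ) ≠ x * 30 := by
    intro h
    apply hcon
    simp only [Finset.coe_image, Set.mem_image, Finset.mem_coe, Finset.mem_range]
    exact ⟨k, by omega, by rw [h]; ring⟩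
  have h1' : (k : ℝ) < x * 30 := lt_of_le_of_ne h1 h3
  have s1 := sig_eq_sigD (p := 5) (q := 6) (m := 1) (K := k) (y := x) (by norm_num) (by norm_num)
    (by norm_num) (by push_cast; linarith) (by push_cast; linarith)
  have s2 := sig_eq_sigD (p := 2) (q := 3) (m := 5) (K := k) (y := x) (by norm_num) (by norm_num)
    (by norm_num) (by push_cast; linarith) (by push_cast; linarith)
  have s3 := sig_eq_sigD (p := 2) (q := 5) (m := 3) (K := k) (y := x) (by norm_num) (by norm_num)
    (by norm_num) (by push_cast; linarith) (by push_cast; linarith)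
  have s4 := sig_eq_sigD (p := 5) (q := 3) (m := 2) (K := k) (y := x) (by norm_num) (by norm_num)
    (by norm_num) (by push_cast; linarith) (by push_cast; linarith)
  have s5 := sig_eq_sigD (p := 2) (q := 3) (m := 1) (K := k) (y := 5 * x) (by norm_num)
    (by norm_num) (by norm_num) (by push_cast; linarith) (by push_cast; linarith)
  have hmod : k % 30 = k := Nat.mod_eq_of_lt hk30
  norm_num at s1 s2 s3 s4 s5
  rw [hmod] at s1 s2 s3 s4
  simp only [sigK, add_zero]
  push_cast
  rw [s1, s2, s3, s4, s5]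
  exact check30 k hk30

end Pool.Agent.H80.Sig
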