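import Pool.Agent.H80.Sig.Saw
import Pool.Agent.H80.Sig.Cot
set_option autoImplicit false

/-!
# Small odd numbers are independent on the odd primitive characters
-/

namespace Pool.Agent.H80.Sig

open Finset

lemma func {f : ℕ} [NeZero f] (Q : (ZMod f)ˣ) (κ : ℕ → (ZMod f)ˣ)
    (hκ : ∀ l ∈ f.primeFactors, ∃ u : ℕ, u.Coprime f ∧ u ≡ 1 [MOD f / l] ∧
      ((κ l : ZMod f)) = (u : ZMod f))
    (N : Finset ℕ) (c : ℕ → ℂ)
    (h : ∀ χ : DC f, Prim χ → χ (-1) = -1 → ∑ m ∈ N, c m * χ (m : ZMod f) = 0)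
    (q : ℕ) (hq : q ∈ N) (hQ : (Q : ZMod f) = q)
    (H1 : ∀ T ⊆ f.primeFactors, ∀ m ∈ N,
      ((Q * ∏ l ∈ T, κ l : (ZMod f)ˣ) : ZMod f) = m → T = ∅ ∧ m = q)
    (H2 : ∀ T ⊆ f.primeFactors, ∀ m ∈ N,
      ((Q * ∏ l ∈ T, κ l : (ZMod f)ˣ) : ZMod f) ≠ -m) : c q = 0 := by
  classical
  set P := f.primeFactors with hP
  set Z : DC f → ℂ := fun χ => χ ((Q⁻¹ : (ZMod f)ˣ) : ZMod f) * (1 - χ (-1)) *
    (∏ l ∈ P, (1 - χ (((κ l)⁻¹ : (ZMod f)ˣ) : ZMod f))) * ∑ m ∈ N, c m * χ (m : ZMod f) with hZdef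
  have hZ : ∀ χ, Z χ = 0 := by
    intro χ
    rcases parity_sq χ with h1 | h1
    · simp only [hZdef, h1]; ring
    by_cases hp : Prim χ
    · simp only [hZdef, h χ hp h1]; ring
    · unfold Prim at hp
      push Not at hp
      obtain ⟨l, hl, hlf, hl2⟩ := hp
      have hlP : l ∈ P := Nat.mem_primeFactors.2 ⟨hl, hlf, NeZero.ne f⟩
      obtain ⟨u, hu1, hu2, hu3⟩ := hκ l hlP
      have h2 := hl2 u hu1 hu2
      have h3 : χ (((κ l)⁻¹ : (ZMod f)ˣ) : ZMod f) = 1 := by
        have h4 : χ ((κ l : (ZMod f)ˣ) : ZMod f) * χ (((κ l)⁻¹ : (ZMod f)ˣ) : ZMod f) = 1 := by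
          rw [← map_mul, ← Units.val_mul, mul_inv_cancel, Units.val_one, map_one]
        rw [hu3, h2, one_mul] at h4
        exact h4
      have h5 : ∏ l ∈ P, (1 - χ (((κ l)⁻¹ : (ZMod f)ˣ) : ZMod f)) = 0 :=
        Finset.prod_eq_zero hlP (by rw [h3, sub_self])
      simp only [hZdef, h5]; ring
  have hexp : ∀ χ, Z χ = ∑ T ∈ P.powerset, (-1 : ℂ) ^ T.card * ∑ m ∈ N, c m *
      (χ (((Q * ∏ l ∈ T, κ l : (ZMod f)ˣ) : ZMod f)⁻¹) * χ (m : ZMod f) -
        χ (((Q * ∏ l ∈ T, κ l : (ZMod f)ˣ) : ZMod f)⁻¹) * χ (-m : ZMod f)) := by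
    intro χ
    have h1 : ∏ l ∈ P, (1 - χ (((κ l)⁻¹ : (ZMod f)ˣ) : ZMod f)) =
        ∑ T ∈ P.powerset, (-1 : ℂ) ^ T.card * ∏ l ∈ T, χ (((κ l)⁻¹ : (ZMod f)ˣ) : ZMod f) := by
      have h2 := Finset.prod_one_add (f := fun l => - χ (((κ l)⁻¹ : (ZMod f)ˣ) : ZMod f)) P
      simp only [← sub_eq_add_neg] at h2
      rw [h2]
      refine sum_congr rfl fun T _ => ?_
      rw [Finset.prod_neg]
    simp only [hZdef]
    rw [h1]
    rw [Finset.mul_sum (s := P.powerset), Finset.sum_mul (s := P.powerset)]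
    refine sum_congr rfl fun T _ => ?_
    have h3 : χ (((Q * ∏ l ∈ T, κ l : (ZMod f)ˣ) : ZMod f)⁻¹) =
        χ ((Q⁻¹ : (ZMod f)ˣ) : ZMod f) * ∏ l ∈ T, χ (((κ l)⁻¹ : (ZMod f)ˣ) : ZMod f) := by
      rw [ZMod.inv_coe_unit, mul_inv, Units.val_mul, map_mul, ← Finset.prod_inv_distrib,
        Units.coe_prod, map_prod]
    rw [mul_sum, mul_sum]
    refine sum_congr rfl fun m _ => ?_
    have h4 : χ (-m : ZMod f) = χ (-1) * χ (m : ZMod f) := by
      rw [← map_mul]; congr 1; ring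
    rw [h3, h4]; ring
  have hsum : ∑ χ : DC f, Z χ = ∑ T ∈ P.powerset, (-1 : ℂ) ^ T.card * ∑ m ∈ N, c m *
      ((if ((Q * ∏ l ∈ T, κ l : (ZMod f)ˣ) : ZMod f) = (m : ZMod f) then (f.totient : ℂ) else 0) -
        (if ((Q * ∏ l ∈ T, κ l : (ZMod f)ˣ) : ZMod f) = (-m : ZMod f)
          then (f.totient : ℂ) else 0)) := by
    simp_rw [hexp]
    rw [sum_comm]
    refine sum_congr rfl fun T _ => ?_
    rw [← mul_sum, sum_comm]
    congr 1
    refine sum_congr rfl fun m _ => ?_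
    rw [← mul_sum, sum_sub_distrib,
      DirichletCharacter.sum_char_inv_mul_char_eq ℂ (Units.isUnit _),
      DirichletCharacter.sum_char_inv_mul_char_eq ℂ (Units.isUnit _)]
  rw [sum_eq_zero (fun χ _ => hZ χ)] at hsum
  rw [Finset.sum_eq_single ∅] at hsum
  · rw [Finset.sum_eq_single q] at hsum
    · simp only [card_empty, pow_zero, prod_empty, mul_one, one_mul] at hsum
      rw [if_pos hQ, if_neg, sub_zero] at hsum
      · have ht : (f.totient : ℂ) ≠ 0 := by
          exact_mod_cast (Nat.totient_pos.2 (NeZero.pos f)).ne'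
        exact (mul_eq_zero.1 hsum.symm).resolve_right ht
      · have := H2 ∅ (empty_subset _) q hq
        simpa using this
    · intro m hm hne
      rw [if_neg, if_neg]
      · ring
      · exact H2 ∅ (empty_subset _) m hm
      · intro h'
        exact hne (H1 ∅ (empty_subset _) m hm h').2
    · intro h'; exact absurd hq h'
  · intro T hT hne
    rw [mem_powerset] at hT
    rw [sum_eq_zero, mul_zero]
    intro m hm
    rw [if_neg, if_neg]
    · ring
    · exact H2 T hT m hm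
    · intro h'
      exact hne (H1 T hT m hm h').1
  · intro h'; simp at h'

lemma crt_elt {l e g r : ℕ} (hl : l.Prime) (he : 1 ≤ e) (hc : (l ^ e).Coprime g)
    (hr : r.Coprime l) (hr1 : r ≡ 1 [MOD l ^ (e - 1)]) :
    ∃ u : ℕ, u.Coprime (l ^ e * g) ∧ u ≡ 1 [MOD (l ^ e * g) / l] ∧ u ≡ r [MOD l ^ e] ∧
      u ≡ 1 [MOD g] := by
  obtain ⟨u, hu1, hu2⟩ := Nat.chineseRemainder hc r 1
  have hle : l ^ e = l * l ^ (e - 1) := by
    rw [← pow_succ']; congr 1; omega
  have hcop1 : u.Coprime (l ^ e) := cop_of_modEq hu1 (Nat.Coprime.pow_right e hr)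
  have hcop2 : u.Coprime g := cop_of_modEq hu2 (Nat.coprime_one_left g)
  refine ⟨u, Nat.Coprime.mul_right hcop1 hcop2, ?_, hu1, hu2⟩
  have e1 : (l ^ e * g) / l = l ^ (e - 1) * g := by
    rw [hle, mul_assoc, Nat.mul_div_cancel_left _ hl.pos]
  rw [e1, ← Nat.modEq_and_modEq_iff_modEq_mul]
  · refine ⟨?_, hu2⟩
    exact (hu1.of_dvd (by rw [hle]; exact Dvd.intro_left l rfl)).trans hr1
  · exact Nat.Coprime.coprime_dvd_left (by rw [hle]; exact Dvd.intro_left l rfl) hc

/-- a difference of odd numbers divisible by an odd number -/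
lemma eq_of_odd {x y : ℤ} {n : ℕ} (hx : Odd x) (hy : Odd y) (hn : Odd n) (h : x ≡ y [ZMOD n])
    (hlt : |y - x| < 2 * n) : x = y := by
  have h1 : (n : ℤ) ∣ y - x := Int.modEq_iff_dvd.1 h
  have h2 : (2 : ℤ) ∣ y - x := by
    have := hy.sub_odd hx
    exact this.two_dvd
  have h3 : IsCoprime (2 : ℤ) (n : ℤ) := by
    have : Nat.Coprime 2 n := (Nat.coprime_two_left).2 hn
    exact_mod_cast Nat.isCoprime_iff_coprime.2 this
  have h4 : 2 * (n : ℤ) ∣ y - x := h3.mul_dvd h2 h1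
  have h5 : y - x = 0 := Int.eq_zero_of_abs_lt_dvd h4 hlt
  linarith

lemma fact_pos {f l : ℕ} (hl : l ∈ f.primeFactors) : 1 ≤ f.factorization l := by
  have h := Nat.mem_primeFactors.1 hl
  exact (h.1.dvd_iff_one_le_factorization h.2.2).1 h.2.1

lemma comp_eq {f l : ℕ} : l ^ f.factorization l * (f / l ^ f.factorization l) = f :=
  Nat.ordProj_mul_ordCompl_eq_self f l

lemma comp_cop {f l : ℕ} (hl : l ∈ f.primeFactors) :
    (l ^ f.factorization l).Coprime (f / l ^ f.factorization l) := by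
  have h := Nat.mem_primeFactors.1 hl
  exact Nat.Coprime.pow_left _ (Nat.coprime_ordCompl h.1 h.2.2)

lemma choose_one {f l j : ℕ} (hl : l ∈ f.primeFactors) (hj0 : 0 < j) (hjl : j < l)
    (hcop : (1 + j * l ^ (f.factorization l - 1)).Coprime l) :
    ∃ u : ℕ, u.Coprime f ∧ u ≡ 1 [MOD f / l] ∧
      u ≡ 1 + j * l ^ (f.factorization l - 1) [MOD l ^ f.factorization l] ∧
      u ≡ 1 [MOD f / l ^ f.factorization l] ∧ ¬ u ≡ 1 [MOD l ^ f.factorization l] := by
  have hlp := (Nat.mem_primeFactors.1 hl).1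
  obtain ⟨u, h1, h2, h3, h4⟩ := crt_elt hlp (fact_pos hl) (comp_cop hl) hcop (by
    have : 1 + j * l ^ (f.factorization l - 1) ≡ 1 + 0 [MOD l ^ (f.factorization l - 1)] :=
      Nat.ModEq.add_left 1 ((Nat.modEq_zero_iff_dvd).2 (Dvd.intro_left j rfl))
    simpa using this)
  rw [comp_eq] at h1 h2
  refine ⟨u, h1, h2, h3, h4, fun h5 => ?_⟩
  have h6 : 1 + j * l ^ (f.factorization l - 1) ≡ 1 + 0 [MOD l ^ f.factorization l] := by
    simpa using h3.symm.trans h5
  have h7 : j * l ^ (f.factorization l - 1) ≡ 0 [MOD l ^ f.factorization l] :=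
    Nat.ModEq.add_left_cancel' 1 h6
  rw [Nat.modEq_zero_iff_dvd] at h7
  have h8 : l ^ f.factorization l = l * l ^ (f.factorization l - 1) := by
    rw [← pow_succ']; congr 1; have := fact_pos hl; omega
  have h9 : 0 < l ^ (f.factorization l - 1) := pow_pos hlp.pos _
  have h10 := Nat.le_of_dvd (Nat.mul_pos hj0 h9) h7
  rw [h8] at h10
  have := Nat.le_of_mul_le_mul_right h10 h9
  omega

lemma cop_r {l e j : ℕ} (hl : l.Prime) (he : 1 ≤ e) (h : 2 ≤ e ∨ (1 + j).Coprime l) :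
    (1 + j * l ^ (e - 1)).Coprime l := by
  by_cases h2 : 2 ≤ e
  · have h3 : l ∣ j * l ^ (e - 1) := Dvd.dvd.mul_left (dvd_pow_self l (by omega)) j
    have h4 : 1 + j * l ^ (e - 1) ≡ 1 + 0 [MOD l] :=
      Nat.ModEq.add_left 1 ((Nat.modEq_zero_iff_dvd).2 h3)
    exact cop_of_modEq h4 (Nat.coprime_one_left l)
  · have h3 := h.resolve_left h2
    have h4 : e - 1 = 0 := by omega
    rw [h4, pow_zero, mul_one]; exact h3

lemma choose_two {f l : ℕ} (hf : Odd f) (hl : l ∈ f.primeFactors) {q : ℕ} (hq : q.Coprime f)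
    (z : ℤ) (hcase : l ≠ 3 ∨ 2 ≤ f.factorization l) :
    ∃ u : ℕ, u.Coprime f ∧ u ≡ 1 [MOD f / l] ∧ u ≡ 1 [MOD f / l ^ f.factorization l] ∧
      ¬ u ≡ 1 [MOD l ^ f.factorization l] ∧
      ¬ ((q * u : ℕ) : ℤ) ≡ z [ZMOD (l ^ f.factorization l : ℕ)] := by
  have hlp := (Nat.mem_primeFactors.1 hl).1
  have hlf := (Nat.mem_primeFactors.1 hl).2.1
  have hl2 : l ≠ 2 := by
    rintro rfl
    have := hf.of_dvd_nat hlf
    revert this; decide
  have hl3 : 3 ≤ l := by have := hlp.two_le; omega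
  obtain ⟨u, a1, a2, a3, a4, a5⟩ := choose_one (j := 1) hl one_pos (by omega)
    (cop_r hlp (fact_pos hl) (Or.inr ((Nat.coprime_primes Nat.prime_two hlp).2 (Ne.symm hl2))))
  obtain ⟨w, b1, b2, b3, b4, b5⟩ := choose_one (j := 2) hl two_pos (by omega)
    (cop_r hlp (fact_pos hl) (by
      rcases hcase with h | h
      · exact Or.inr ((Nat.coprime_primes Nat.prime_three hlp).2 (Ne.symm h))
      · exact Or.inl h))
  by_cases h : ((q * u : ℕ) : ℤ) ≡ z [ZMOD (l ^ f.factorization l : ℕ)]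
  · by_cases h' : ((q * w : ℕ) : ℤ) ≡ z [ZMOD (l ^ f.factorization l : ℕ)]
    · exfalso
      have h1 : q * u ≡ q * w [MOD l ^ f.factorization l] :=
        Int.natCast_modEq_iff.1 (h.trans h'.symm)
      have hqc : (l ^ f.factorization l).Coprime q :=
        (Nat.Coprime.coprime_dvd_right (Nat.ordProj_dvd f l) hq).symm
      have h2 : u ≡ w [MOD l ^ f.factorization l] :=
        Nat.ModEq.cancel_left_of_coprime (by simpa using hqc) h1
      have h3 := (a3.symm.trans h2).trans b3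
      set M := l ^ (f.factorization l - 1) with hM
      have h4 : (1 + 1 * M) + 0 ≡ (1 + 1 * M) + M [MOD l ^ f.factorization l] := by
        have e1 : 1 + 2 * M = (1 + 1 * M) + M := by ring
        rw [← e1]; simpa using h3
      have h5 := (Nat.ModEq.add_left_cancel' _ h4).symm
      rw [Nat.modEq_zero_iff_dvd] at h5
      have h9 : 0 < M := pow_pos hlp.pos _
      have h8 : l ^ f.factorization l = l * M := by
        rw [hM, ← pow_succ']; congr 1; have := fact_pos hl; omega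
      have h10 := Nat.le_of_dvd h9 h5
      rw [h8] at h10
      nlinarith
    · exact ⟨w, b1, b2, b4, b5, h'⟩
  · exact ⟨u, a1, a2, a4, a5, h⟩

lemma choose_l {f l : ℕ} (hl : l ∈ f.primeFactors) {q : ℕ} (hq : q.Coprime f)
    {z : ℤ} (hz1 : z ≡ q [ZMOD (l ^ (f.factorization l - 1) : ℕ)]) (hz2 : ¬ (l : ℤ) ∣ z) :
    ∃ u : ℕ, u.Coprime f ∧ u ≡ 1 [MOD f / l] ∧ u ≡ 1 [MOD f / l ^ f.factorization l] ∧
      ((q * u : ℕ) : ℤ) ≡ z [ZMOD (l ^ f.factorization l : ℕ)] := by
  have hlp := (Nat.mem_primeFactors.1 hl).1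
  have hlf := (Nat.mem_primeFactors.1 hl).2.1
  have he := fact_pos hl
  set L := l ^ f.factorization l with hL
  have hL0 : 0 < L := pow_pos hlp.pos _
  have hlL : l ∣ L := dvd_pow_self l (by omega)
  have hML : l ^ (f.factorization l - 1) ∣ L := pow_dvd_pow l (by omega)
  have hqL : q.Coprime L := Nat.Coprime.coprime_dvd_right (Nat.ordProj_dvd f l) hq
  obtain ⟨e, hqe⟩ := exists_inv hL0 hqL
  obtain ⟨z', hz'⟩ : ∃ z' : ℕ, (z' : ℤ) ≡ z [ZMOD (L : ℕ)] := by
    refine ⟨(z % (L : ℤ)).toNat, ?_⟩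
    rw [Int.toNat_of_nonneg (Int.emod_nonneg _ (by exact_mod_cast hL0.ne'))]
    exact Int.mod_modEq _ _
  have hqr : ((q * (e * z') : ℕ) : ℤ) ≡ z [ZMOD (L : ℕ)] := by
    refine Int.ModEq.trans ?_ hz'
    rw [Int.natCast_modEq_iff]
    have := hqe.mul_right z'
    rw [one_mul, mul_assoc] at this
    exact this
  have hrl : (e * z').Coprime l := by
    rw [Nat.coprime_comm, hlp.coprime_iff_not_dvd]
    intro h
    apply hz2
    have h1 : ((q * (e * z') : ℕ) : ℤ) ≡ z [ZMOD (l : ℕ)] :=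
      hqr.of_dvd (by exact_mod_cast hlL)
    have h2 : (l : ℤ) ∣ ((q * (e * z') : ℕ) : ℤ) := by
      exact_mod_cast h.mul_left q
    have h3 := (Int.modEq_iff_dvd.1 h1)
    have h4 := dvd_add h3 h2
    simpa using h4
  have hr1 : e * z' ≡ 1 [MOD l ^ (f.factorization l - 1)] := by
    have h1 : ((q * (e * z') : ℕ) : ℤ) ≡ ((q * 1 : ℕ) : ℤ) [ZMOD (l ^ (f.factorization l - 1) : ℕ)] := by
      rw [mul_one]
      exact (hqr.of_dvd (by exact_mod_cast hML)).trans hz1
    have h2 := Int.natCast_modEq_iff.1 h1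
    apply Nat.ModEq.cancel_left_of_coprime _ h2
    exact Nat.Coprime.symm (Nat.Coprime.coprime_dvd_right hML hqL)
  obtain ⟨u, h1, h2, h3, h4⟩ := crt_elt hlp he (comp_cop hl) hrl hr1
  rw [comp_eq] at h1 h2
  refine ⟨u, h1, h2, h4, ?_⟩
  refine Int.ModEq.trans ?_ hqr
  rw [Int.natCast_modEq_iff]
  exact h3.mul_left q

/-- the core of the independence lemma -/
lemma lemP_core {f l q : ℕ} (hf : Odd f) (hl : l ∈ f.primeFactors) (hqo : Odd q)
    (hqL : q < l ^ f.factorization l) (hq : q.Coprime f) {z : ℤ} (hzo : Odd z)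
    (hzL : |z| < (l ^ f.factorization l : ℕ))
    (hz1 : z ≡ q [ZMOD (l ^ (f.factorization l - 1) : ℕ)]) (hz2 : ¬ (l : ℤ) ∣ z)
    (hcase : (3 ∣ f ∧ (3 : ℤ) ∣ z) ∨
      ((∀ l' ∈ f.primeFactors, l' ≠ l → l' ≠ 3 ∨ 2 ≤ f.factorization l') ∧
        ¬ z ≡ q [ZMOD (f / l ^ f.factorization l : ℕ)]))
    (N : Finset ℕ) (hqN : q ∈ N) (hN : ∀ m ∈ N, Odd m ∧ m ≤ q ∧ m.Coprime f) (c : ℕ → ℂ)
    (h : ∀ χ : DC f, Prim χ → χ (-1) = -1 → ∑ m ∈ N, c m * χ (m : ZMod f) = 0) : c q = 0 := by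
  classical
  have hf0 : 0 < f := hf.pos
  have : NeZero f := ⟨hf0.ne'⟩
  set P := f.primeFactors with hP
  set L : ℕ → ℕ := fun k => k ^ f.factorization k with hLdef
  have hLodd : ∀ k ∈ P, Odd (L k) := fun k _ => hf.of_dvd_nat (Nat.ordProj_dvd f k)
  -- the choice of the elements
  have hex : ∀ k ∈ P, ∃ u : ℕ, u.Coprime f ∧ u ≡ 1 [MOD f / k] ∧ u ≡ 1 [MOD f / L k] ∧
      (k = l → ((q * u : ℕ) : ℤ) ≡ z [ZMOD (L k : ℕ)]) ∧
      (k ≠ l → ¬ u ≡ 1 [MOD L k]) ∧
      (k ≠ l → ¬ (3 ∣ f ∧ (3 : ℤ) ∣ z) → ¬ ((q * u : ℕ) : ℤ) ≡ z [ZMOD (L k : ℕ)]) := by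
    intro k hk
    have hkp := (Nat.mem_primeFactors.1 hk).1
    have hkf := (Nat.mem_primeFactors.1 hk).2.1
    by_cases hkl : k = l
    · subst hkl
      obtain ⟨u, h1, h2, h3, h4⟩ := choose_l hk hq hz1 hz2
      exact ⟨u, h1, h2, h3, fun _ => h4, fun h => absurd rfl h, fun h => absurd rfl h⟩
    · by_cases h3 : 3 ∣ f ∧ (3 : ℤ) ∣ z
      · have hk2 : k ≠ 2 := by
          rintro rfl
          have := hf.of_dvd_nat hkf
          revert this; decide
        have hk3 : 3 ≤ k := by have := hkp.two_le; omega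
        obtain ⟨u, a1, a2, a3, a4, a5⟩ := choose_one (j := 1) hk one_pos (by omega)
          (cop_r hkp (fact_pos hk)
            (Or.inr ((Nat.coprime_primes Nat.prime_two hkp).2 (Ne.symm hk2))))
        exact ⟨u, a1, a2, a4, fun h => absurd h hkl, fun _ => a5, fun _ h => absurd h3 h⟩
      · have hc2 := (hcase.resolve_left h3).1 k hk hkl
        obtain ⟨u, a1, a2, a3, a4, a5⟩ := choose_two hf hk hq z hc2
        exact ⟨u, a1, a2, a3, fun h => absurd h hkl, fun _ => a4, fun _ _ => a5⟩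
  choose! u hu1 hu2 hu3 hu4 hu5 hu6 using hex
  -- products of the elements
  have hLdvd : ∀ k ∈ P, ∀ k' ∈ P, k ≠ k' → L k ∣ f / L k' := by
    intro k hk k' hk' hne
    have hcop : (L k).Coprime (L k') := by
      apply Nat.Coprime.pow
      exact (Nat.coprime_primes (Nat.mem_primeFactors.1 hk).1 (Nat.mem_primeFactors.1 hk').1).2 hne
    have h1 : L k ∣ L k' * (f / L k') := by
      simp only [hLdef]
      rw [comp_eq]; exact Nat.ordProj_dvd f k
    exact hcop.dvd_of_dvd_mul_left h1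
  have hprod_out : ∀ k ∈ P, ∀ T ⊆ P, k ∉ T → ∏ t ∈ T, u t ≡ 1 [MOD L k] := by
    intro k hk T hT hkT
    have : ∀ t ∈ T, u t ≡ 1 [MOD L k] := by
      intro t ht
      exact (hu3 t (hT ht)).of_dvd (hLdvd k hk t (hT ht) (fun h => hkT (h ▸ ht)))
    have h2 := Nat.ModEq.prod (s := T) (f := u) (g := fun _ => 1) (n := L k) this
    simpa using h2
  have hprod_in : ∀ k ∈ P, ∀ T ⊆ P, k ∈ T → ∏ t ∈ T, u t ≡ u k [MOD L k] := by
    intro k hk T hT hkT
    rw [← Finset.mul_prod_erase T u hkT]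
    have h1 := hprod_out k hk (T.erase k) ((erase_subset _ _).trans hT) (notMem_erase k T)
    simpa using h1.mul_left (u k)
  have hlP : l ∈ P := hl
  -- the main property
  have main : ∀ T ⊆ P, ∀ m ∈ N, ∀ ε : ℤ, ε = 1 ∨ ε = -1 →
      ((q * ∏ t ∈ T, u t : ℕ) : ℤ) ≡ ε * m [ZMOD (f : ℕ)] → T = ∅ ∧ ε = 1 ∧ m = q := by
    intro T hT m hm ε hε hmod
    obtain ⟨hmo, hmq, hmf⟩ := hN m hm
    have hεm : Odd (ε * m : ℤ) := by
      rcases hε with rfl | rfl
      · simpa using (by exact_mod_cast hmo : Odd (m : ℤ))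
      · have : Odd (m : ℤ) := by exact_mod_cast hmo
        simpa using this
    have habs : |ε * (m : ℤ)| = m := by
      rcases hε with rfl | rfl <;> simp
    have hredL : ∀ k ∈ P, ((q * ∏ t ∈ T, u t : ℕ) : ℤ) ≡ ε * m [ZMOD (L k : ℕ)] := by
      intro k _
      exact hmod.of_dvd (by exact_mod_cast Nat.ordProj_dvd f k)
    by_cases hlT : l ∈ T
    · exfalso
      have h1 : ((q * ∏ t ∈ T, u t : ℕ) : ℤ) ≡ z [ZMOD (L l : ℕ)] := by
        refine Int.ModEq.trans ?_ (hu4 l hlP rfl)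
        rw [Int.natCast_modEq_iff]
        exact (hprod_in l hlP T hT hlT).mul_left q
      have h2 : z ≡ ε * m [ZMOD (L l : ℕ)] := h1.symm.trans (hredL l hlP)
      have h3 : z = ε * m := by
        refine eq_of_odd hzo hεm (hLodd l hlP) h2 ?_
        have e1 : |ε * (m : ℤ) - z| ≤ |ε * (m : ℤ)| + |z| := abs_sub _ _
        rw [habs] at e1
        have e2 : (m : ℤ) ≤ q := by exact_mod_cast hmq
        have e3 : (q : ℤ) < (l ^ f.factorization l : ℕ) := by exact_mod_cast hqL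
        simp only [hLdef]
        linarith
      by_cases hc3 : 3 ∣ f ∧ (3 : ℤ) ∣ z
      · have h4 : (3 : ℤ) ∣ m := by
          have h5 := hc3.2
          rw [h3] at h5
          rcases hε with rfl | rfl
          · simpa using h5
          · simpa using h5
        have h5 : 3 ∣ m := by exact_mod_cast h4
        have h6 : 3 ∣ Nat.gcd m f := Nat.dvd_gcd h5 hc3.1
        rw [hmf] at h6
        revert h6; decide
      · have hc := hcase.resolve_left hc3
        by_cases hex : ∃ k ∈ T, k ≠ l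
        · obtain ⟨k, hkT, hkl⟩ := hex
          apply hu6 k (hT hkT) hkl hc3
          rw [h3]
          refine Int.ModEq.trans ?_ (hredL k (hT hkT))
          rw [Int.natCast_modEq_iff]
          exact ((hprod_in k (hT hkT) T hT hkT).mul_left q).symm
        · push Not at hex
          have hTl : T = {l} := by
            ext t
            rw [mem_singleton]
            exact ⟨fun ht => hex t ht, fun ht => ht ▸ hlT⟩
          apply hc.2
          have h7 : ((q * ∏ t ∈ T, u t : ℕ) : ℤ) ≡ ε * m [ZMOD (f / L l : ℕ)] :=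
            hmod.of_dvd (by
              have : f / L l ∣ f := Nat.div_dvd_of_dvd (Nat.ordProj_dvd f l)
              exact_mod_cast this)
          rw [hTl, prod_singleton] at h7
          rw [h3]
          refine h7.symm.trans ?_
          rw [Int.natCast_modEq_iff]
          simpa using (hu3 l hlP).mul_left q
    · have h1 : (q : ℤ) ≡ ε * m [ZMOD (L l : ℕ)] := by
        refine Int.ModEq.trans ?_ (hredL l hlP)
        rw [Int.natCast_modEq_iff]
        simpa using ((hprod_out l hlP T hT hlT).mul_left q).symm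
      have h3 : (q : ℤ) = ε * m := by
        refine eq_of_odd (by exact_mod_cast hqo) hεm (hLodd l hlP) h1 ?_
        have e1 : |ε * (m : ℤ) - q| ≤ |ε * (m : ℤ)| + |(q : ℤ)| := abs_sub _ _
        rw [habs, Nat.abs_cast] at e1
        have e2 : (m : ℤ) ≤ q := by exact_mod_cast hmq
        have e3 : (q : ℤ) < (l ^ f.factorization l : ℕ) := by exact_mod_cast hqL
        simp only [hLdef]
        linarith
      have hq0 : (0 : ℤ) < q := by exact_mod_cast hqo.pos
      have hε1 : ε = 1 := by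
        rcases hε with h | h
        · exact h
        · rw [h] at h3
          have : (0 : ℤ) ≤ m := by positivity
          linarith
      have hmq' : m = q := by
        rw [hε1, one_mul] at h3
        exact_mod_cast h3.symm
      refine ⟨?_, hε1, hmq'⟩
      by_contra hTe
      obtain ⟨k, hkT⟩ := Finset.nonempty_iff_ne_empty.2 hTe
      have hkl : k ≠ l := fun h => hlT (h ▸ hkT)
      apply hu5 k (hT hkT) hkl
      have h4 := hredL k (hT hkT)
      rw [← h3, Int.natCast_modEq_iff] at h4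
      have h5 : q * u k ≡ q * 1 [MOD L k] := by
        rw [mul_one]
        exact ((hprod_in k (hT hkT) T hT hkT).mul_left q).symm.trans h4
      apply Nat.ModEq.cancel_left_of_coprime _ h5
      exact (Nat.Coprime.coprime_dvd_right (Nat.ordProj_dvd f k) hq).symm
  -- conclusion
  set κ : ℕ → (ZMod f)ˣ := fun k => if hk : k ∈ P then ZMod.unitOfCoprime (u k) (hu1 k hk) else 1
    with hκ
  have hκu : ∀ k ∈ P, ((κ k : (ZMod f)ˣ) : ZMod f) = (u k : ZMod f) := by
    intro k hk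
    simp only [hκ, dif_pos hk, ZMod.coe_unitOfCoprime]
  have hval : ∀ T ⊆ P, ((ZMod.unitOfCoprime q hq * ∏ t ∈ T, κ t : (ZMod f)ˣ) : ZMod f) =
      ((q * ∏ t ∈ T, u t : ℕ) : ZMod f) := by
    intro T hT
    rw [Units.val_mul, ZMod.coe_unitOfCoprime, Units.coe_prod]
    push_cast
    congr 1
    exact Finset.prod_congr rfl fun t ht => hκu t (hT ht)
  refine func (ZMod.unitOfCoprime q hq) κ ?_ N c h q hqN (by simp) ?_ ?_
  · intro k hk
    exact ⟨u k, hu1 k hk, hu2 k hk, hκu k hk⟩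
  · intro T hT m hm h1
    rw [hval T hT, ZMod.natCast_eq_natCast_iff, ← Int.natCast_modEq_iff] at h1
    obtain ⟨h2, _, h3⟩ := main T hT m hm 1 (Or.inl rfl) (by simpa using h1)
    exact ⟨h2, h3⟩
  · intro T hT m hm h1
    rw [hval T hT] at h1
    have h2 : (((q * ∏ t ∈ T, u t : ℕ) : ℤ) : ZMod f) = ((-1 * (m : ℤ) : ℤ) : ZMod f) := by
      push_cast at h1 ⊢
      rw [h1]; ring
    rw [ZMod.intCast_eq_intCast_iff] at h2
    obtain ⟨_, h3, _⟩ := main T hT m hm (-1) (Or.inr rfl) h2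
    revert h3; decide

/-- Let `f` be odd and not a power of the prime `l`, and let `q` be odd, prime to `f` and smaller than
the exact power of `l` dividing `f`. Then `q` is independent of the smaller odd numbers on the odd
primitive characters modulo `f`. -/
theorem lemP {f l q : ℕ} (hf : Odd f) (hl : l ∈ f.primeFactors)
    (hne : f ≠ l ^ f.factorization l) (hqo : Odd q)
    (hqL : q < l ^ f.factorization l) (hq : q.Coprime f)
    (N : Finset ℕ) (hqN : q ∈ N) (hN : ∀ m ∈ N, Odd m ∧ m ≤ q ∧ m.Coprime f) (c : ℕ → ℂ)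
    (h : ∀ χ : DC f, Prim χ → χ (-1) = -1 → ∑ m ∈ N, c m * χ (m : ZMod f) = 0) : c q = 0 := by
  have hf0 : 0 < f := hf.pos
  have hlp := (Nat.mem_primeFactors.1 hl).1
  have hlf := (Nat.mem_primeFactors.1 hl).2.1
  have hl2 : l ≠ 2 := by
    rintro rfl
    have := hf.of_dvd_nat hlf
    revert this; decide
  have hl3 : 3 ≤ l := by have := hlp.two_le; omega
  have he := fact_pos hl
  set L := l ^ f.factorization l with hL
  set M := l ^ (f.factorization l - 1) with hM
  have hLM : L = l * M := by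
    rw [hL, hM, ← pow_succ']; congr 1; omega
  have hM0 : 0 < M := pow_pos hlp.pos _
  have hLo : Odd L := hf.of_dvd_nat (Nat.ordProj_dvd f l)
  have hlodd : Odd l := hlp.odd_of_ne_two hl2
  have hMo : Odd M := hlodd.pow
  have hql : q.Coprime l := Nat.Coprime.coprime_dvd_right hlf hq
  -- numbers `q - 2 j M`
  have hz : ∀ j : ℤ, Odd ((q : ℤ) - 2 * j * M) ∧
      (q : ℤ) - 2 * j * M ≡ q [ZMOD (M : ℕ)] := by
    intro j
    constructor
    · have h1 : Odd (q : ℤ) := by exact_mod_cast hqo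
      have h2 : Even (2 * j * (M : ℤ)) := by
        rw [mul_assoc]; exact even_two_mul _
      exact h1.sub_even h2
    · rw [Int.modEq_iff_dvd]
      exact ⟨2 * j, by ring⟩
  have hzl : ∀ z : ℤ, Odd z → z ≡ q [ZMOD (M : ℕ)] → |z| < (L : ℕ) → ¬ (l : ℤ) ∣ z := by
    intro z hzo hzM hzL hdvd
    by_cases h2 : 2 ≤ f.factorization l
    · have h3 : l ∣ M := dvd_pow_self l (by omega)
      have h4 : z ≡ q [ZMOD (l : ℕ)] := hzM.of_dvd (by exact_mod_cast h3)
      have h5 := Int.modEq_iff_dvd.1 h4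
      have h6 : (l : ℤ) ∣ (q : ℤ) := by
        have := dvd_add h5 hdvd
        simpa using this
      have h7 : l ∣ q := by exact_mod_cast h6
      have h8 : l ∣ Nat.gcd q l := Nat.dvd_gcd h7 dvd_rfl
      rw [hql] at h8
      exact hlp.one_lt.ne' (Nat.dvd_one.1 h8)
    · have h3 : M = 1 := by
        rw [hM]
        have : f.factorization l - 1 = 0 := by omega
        rw [this, pow_zero]
      rw [hLM, h3, mul_one] at hzL
      have h4 := Int.eq_zero_of_abs_lt_dvd hdvd hzL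
      rw [h4] at hzo
      revert hzo; decide
  have hLi : (L : ℤ) = l * M := by exact_mod_cast hLM
  have hqLi : (q : ℤ) < L := by exact_mod_cast hqL
  have hMi : (0 : ℤ) < M := by exact_mod_cast hM0
  have hqi : (0 : ℤ) < q := by exact_mod_cast hqo.pos
  by_cases h3 : 3 ∈ f.primeFactors ∧ 3 ≠ l
  · obtain ⟨h3f, h3l⟩ := h3
    have h3f' := (Nat.mem_primeFactors.1 h3f).2.1
    have hl5 : 5 ≤ l := by
      have h4 : l ≠ 4 := by rintro rfl; revert hlp; decide
      omega
    have hl5i : (5 : ℤ) ≤ l := by exact_mod_cast hl5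
    have h5M : 5 * (M : ℤ) ≤ L := by rw [hLi]; nlinarith
    have hq3 : ¬ (3 : ℤ) ∣ q := by
      intro h4
      have h5 : 3 ∣ q := by exact_mod_cast h4
      have h6 : 3 ∣ Nat.gcd q f := Nat.dvd_gcd h5 h3f'
      rw [hq] at h6
      revert h6; decide
    have hM3 : ¬ (3 : ℤ) ∣ M := by
      intro h4
      have h5 : 3 ∣ M := by exact_mod_cast h4
      have h6 := Nat.prime_three.dvd_of_dvd_pow h5
      exact h3l ((Nat.prime_dvd_prime_iff_eq Nat.prime_three hlp).1 h6)
    obtain ⟨j, hj, h3z⟩ : ∃ j : ℤ, (j = 1 ∨ j = 2) ∧ (3 : ℤ) ∣ (q : ℤ) - 2 * j * M := by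
      by_cases h4 : (3 : ℤ) ∣ (q : ℤ) - 2 * 1 * M
      · exact ⟨1, Or.inl rfl, h4⟩
      · refine ⟨2, Or.inr rfl, ?_⟩
        clear_value M
        generalize (q : ℤ) = x at h4 hq3 ⊢
        generalize (M : ℤ) = y at h4 hM3 ⊢
        have e1 : x % 3 = 1 ∨ x % 3 = 2 := by
          have := Int.emod_nonneg x (by norm_num : (3 : ℤ) ≠ 0)
          have := Int.emod_lt_of_pos x (by norm_num : (0 : ℤ) < 3)
          rw [Int.dvd_iff_emod_eq_zero] at hq3
          omega
        have e2 : y % 3 = 1 ∨ y % 3 = 2 := by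
          have := Int.emod_nonneg y (by norm_num : (3 : ℤ) ≠ 0)
          have := Int.emod_lt_of_pos y (by norm_num : (0 : ℤ) < 3)
          rw [Int.dvd_iff_emod_eq_zero] at hM3
          omega
        rw [Int.dvd_iff_emod_eq_zero] at h4 ⊢
        rcases e1 with e1 | e1 <;> rcases e2 with e2 | e2 <;> omega
    refine lemP_core hf hl hqo hqL hq (z := (q : ℤ) - 2 * j * M) (hz j).1 ?_ (hz j).2 ?_ ?_
      N hqN hN c h
    · rw [abs_lt]
      rcases hj with rfl | rfl <;> constructor <;> nlinarith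
    · apply hzl _ (hz j).1 (hz j).2
      rw [abs_lt]
      rcases hj with rfl | rfl <;> constructor <;> nlinarith
    · exact Or.inl ⟨h3f', h3z⟩
  · have h3M : 3 * (M : ℤ) ≤ L := by
      have : (3 : ℤ) ≤ l := by exact_mod_cast hl3
      rw [hLi]; nlinarith
    refine lemP_core hf hl hqo hqL hq (z := (q : ℤ) - 2 * 1 * M) (hz 1).1 ?_ (hz 1).2 ?_ ?_
      N hqN hN c h
    · rw [abs_lt]
      constructor <;> nlinarith
    · apply hzl _ (hz 1).1 (hz 1).2
      rw [abs_lt]
      constructor <;> nlinarith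
    · right
      constructor
      · intro l' hl' hne'
        left
        rintro rfl
        exact h3 ⟨hl', hne'⟩
      · intro h4
        have h5 := Int.modEq_iff_dvd.1 h4
        have h6 : ((f / L : ℕ) : ℤ) ∣ ((2 * M : ℕ) : ℤ) := by
          have e : (q : ℤ) - ((q : ℤ) - 2 * 1 * M) = ((2 * M : ℕ) : ℤ) := by push_cast; ring
          rw [← e]; exact h5
        have h7 : f / L ∣ 2 * M := by exact_mod_cast h6
        have hfL : L * (f / L) = f := comp_eq
        have hfLo : Odd (f / L) := by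
          rw [← hfL] at hf
          exact (Nat.odd_mul.1 hf).2
        have h8 : (f / L).Coprime 2 := (Nat.coprime_two_right).2 hfLo
        have h9 : (f / L).Coprime M := by
          have := (comp_cop hl).symm
          exact Nat.Coprime.coprime_dvd_right
            (show M ∣ L by rw [hLM]; exact Dvd.intro_left l rfl) this
        have h10 : f / L ∣ 1 := by
          have := (h8.mul_right h9).gcd_eq_one
          rw [← this]
          exact Nat.dvd_gcd dvd_rfl h7
        have h11 := Nat.dvd_one.1 h10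
        rw [h11, mul_one] at hfL
        exact hne hfL.symm

end Pool.Agent.H80.Sig
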