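import Pool.Agent.H80.Sig.OddChar
import Pool.Agent.H80.Sig.Four
set_option autoImplicit false

/-!
# Cotangent sums of odd characters do not vanish
-/

namespace Pool.Agent.H80.Sig

open Finset Complex HurwitzZeta ZMod Pool.Agent.H80.OC

/-- the sum of the Fourier transform of an odd character against the sawtooth does not vanish -/
lemma dft_saw_ne_zero {m : ℕ} [NeZero m] (ψ : DirichletCharacter ℂ m) (hψodd : ψ.Odd) :
    ∑ j : ZMod m, ZMod.dft (fun j => ψ j) j * (saw j : ℂ) ≠ 0 := by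
  intro hsaw
  have hψ1 : ψ ≠ 1 := by
    intro h
    unfold DirichletCharacter.Odd at hψodd
    rw [h] at hψodd
    rw [MulChar.one_apply (by simp : IsUnit (-1 : ZMod m))] at hψodd
    norm_num at hψodd
  have hL := DirichletCharacter.LFunction_apply_one_ne_zero (χ := ψ) hψ1
  apply hL
  have hm : (m : ℂ) ≠ 0 := Nat.cast_ne_zero.mpr (NeZero.ne m)
  set F : ZMod m → ℂ := ZMod.dft (fun j => ψ j) with hF
  have hF0 : F 0 = 0 := by
    rw [hF, ZMod.dft_apply_zero]
    exact MulChar.sum_eq_zero_of_ne_one hψ1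
  have hfun : Function.Odd (fun j : ZMod m => ψ j) := hψodd.to_fun
  have hFodd : ∀ j, F (-j) = - F j := by
    have := ZMod.dft_odd_iff.mpr hfun
    exact this
  have hFF : ZMod.dft F = fun j => (m : ℂ) * (- ψ j) := by
    rw [hF, ZMod.dft_dft]
    funext j
    simp only [smul_eq_mul]
    rw [DirichletCharacter.Odd.eval_neg (ψ := ψ) j hψodd]
  have hLF := ZMod.LFunction_dft F (s := 1) (Or.inl hF0)
  rw [hFF] at hLF
  have hlhs : ZMod.LFunction (fun j => (m : ℂ) * (- ψ j)) 1 =
      - (m : ℂ) * DirichletCharacter.LFunction ψ 1 := by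
    unfold DirichletCharacter.LFunction ZMod.LFunction
    simp only [mul_sum]
    refine sum_congr rfl fun j _ => ?_
    ring
  have hrhs : ∑ j : ZMod m, F j * expZeta (toAddCircle (-j)) 1 =
      (-I) * ∑ j : ZMod m, F j * sinZeta (toAddCircle j) 1 := by
    have h1 : ∑ j : ZMod m, F j * expZeta (toAddCircle (-j)) 1 =
        ∑ j : ZMod m, (- F j) * expZeta (toAddCircle j) 1 := by
      rw [← Equiv.sum_comp (Equiv.neg (ZMod m))]
      refine sum_congr rfl fun j _ => ?_
      simp only [Equiv.neg_apply, neg_neg, hFodd]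
    have h2 : 2 * ∑ j : ZMod m, F j * expZeta (toAddCircle (-j)) 1 =
        2 * ((-I) * ∑ j : ZMod m, F j * sinZeta (toAddCircle j) 1) := by
      rw [two_mul]
      nth_rewrite 2 [h1]
      rw [← sum_add_distrib, mul_sum, mul_sum]
      refine sum_congr rfl fun j _ => ?_
      rw [sinZeta_eq, map_neg]
      have hI : (2 : ℂ) * I ≠ 0 := by simp
      field_simp
      ring
    exact mul_left_cancel₀ two_ne_zero h2
  have hfinal : ∑ j : ZMod m, F j * sinZeta (toAddCircle j) 1 = 0 := by
    have : ∑ j : ZMod m, F j * sinZeta (toAddCircle j) 1 =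
        - (Real.pi / (2 * m)) * ∑ j : ZMod m, F j * (saw j : ℂ) := by
      rw [mul_sum]
      refine sum_congr rfl fun j _ => ?_
      rw [sinZeta_toAddCircle]
      ring
    rw [this, hsaw, mul_zero]
  rw [hlhs, hrhs, hfinal, mul_zero] at hLF
  exact (mul_eq_zero.mp hLF).resolve_left (neg_ne_zero.mpr hm)

/-- `d (η + 1) / (η - 1)` as a sum -/
lemma saw_sum (d : ℕ) (hd : 0 < d) (η : ℂ) (h1 : η ^ d = 1) (h2 : η ≠ 1) :
    ∑ j ∈ range d, (saw (j : ZMod d) : ℂ) * η ^ j = d * ((η + 1) / (η - 1)) := by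
  have hne : η - 1 ≠ 0 := sub_ne_zero.mpr h2
  have g0 : ∑ j ∈ range d, η ^ j = 0 := by
    have := geom_sum_mul η d
    rw [h1, sub_self] at this
    exact (mul_eq_zero.mp this).resolve_right hne
  have g1 : ∀ n : ℕ, (∑ j ∈ range n, (j : ℂ) * η ^ j) * (η - 1) =
      n * η ^ n - η * ∑ j ∈ range n, η ^ j := by
    intro n
    induction n with
    | zero => simp
    | succ n ih =>
      rw [sum_range_succ, sum_range_succ, add_mul, ih]
      push_cast
      ring
  have g2 := g1 d
  rw [g0, h1, mul_zero, sub_zero, mul_one] at g2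
  have hs : ∀ j ∈ range d, (saw (j : ZMod d) : ℂ) * η ^ j =
      2 * ((j : ℂ) * η ^ j) - d * η ^ j + (if j = 0 then (d : ℂ) else 0) := by
    intro j hj
    have hjd := mem_range.mp hj
    unfold saw
    by_cases h0 : j = 0
    · subst h0; simp
    · have hjz : (j : ZMod d) ≠ 0 := by
        intro h
        rw [ZMod.natCast_eq_zero_iff] at h
        exact h0 (Nat.eq_zero_of_dvd_of_lt h hjd)
      rw [if_neg hjz, if_neg h0, ZMod.val_natCast, Nat.mod_eq_of_lt hjd]
      push_cast
      ring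
  rw [sum_congr rfl hs, sum_add_distrib, sum_sub_distrib, ← mul_sum, ← mul_sum, g0, mul_zero,
    sub_zero, sum_ite_eq' (range d) 0 (fun _ => (d : ℂ)), if_pos (mem_range.mpr hd)]
  have g3 : ∑ j ∈ range d, (j : ℂ) * η ^ j = d / (η - 1) := by
    rw [eq_div_iff hne, g2]
  rw [g3]
  field_simp
  ring

lemma range_sum (d : ℕ) [NeZero d] (f : ZMod d → ℂ) :
    ∑ j ∈ range d, f (j : ZMod d) = ∑ x : ZMod d, f x := by
  refine Finset.sum_nbij' (fun j => (j : ZMod d)) (fun x => x.val) ?_ ?_ ?_ ?_ ?_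
  · intro j _; exact mem_univ _
  · intro x _; exact mem_range.mpr (ZMod.val_lt x)
  · intro j hj
    rw [ZMod.val_natCast, Nat.mod_eq_of_lt (mem_range.mp hj)]
  · intro x _; exact ZMod.natCast_zmod_val x
  · intro j _; rfl

/-- `K N h = i cot (π h / N)` -/
noncomputable def K (N h : ℕ) : ℂ := (1 + ee ((h : ℝ) / N)) / (ee ((h : ℝ) / N) - 1)

lemma ee_congr {N : ℕ} (hN : 0 < N) {h h' : ℕ} (e : h ≡ h' [MOD N]) :
    ee ((h : ℝ) / N) = ee ((h' : ℝ) / N) := by
  rw [ee_eq_iff]
  have hN' : (N : ℝ) ≠ 0 := by exact_mod_cast hN.ne'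
  obtain ⟨k, hk⟩ := (Nat.modEq_iff_dvd.1 e.symm)
  refine ⟨k, ?_⟩
  have h2 : (h : ℝ) - h' = N * k := by exact_mod_cast hk
  rw [← sub_div, h2]; field_simp

lemma K_congr {N : ℕ} (hN : 0 < N) {h h' : ℕ} (e : h ≡ h' [MOD N]) : K N h = K N h' := by
  unfold K; rw [ee_congr hN e]

lemma stdAddChar_eq_ee {m : ℕ} [NeZero m] (k : ℕ) :
    (ZMod.stdAddChar (-(k : ZMod m)) : ℂ) = ee ((k : ℝ) / m) := by
  have : (-(k : ZMod m)) = ((-(k : ℤ) : ℤ) : ZMod m) := by push_cast; ring
  rw [this, ZMod.stdAddChar_coe]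
  unfold ee
  congr 1
  push_cast
  ring

/-- For an odd character the sum `∑ ψ(u) cot (π u / m)` does not vanish. -/
theorem cotsum_ne_zero {m : ℕ} [NeZero m] (ψ : DirichletCharacter ℂ m) (hψ : ψ.Odd) :
    ∑ u : (ZMod m)ˣ, ψ (u : ZMod m) * K m ((u : ZMod m).val) ≠ 0 := by
  have h := dft_saw_ne_zero ψ hψ
  intro h0
  apply h
  have hm0 : 0 < m := NeZero.pos m
  have hm : (m : ℂ) ≠ 0 := Nat.cast_ne_zero.mpr hm0.ne'
  have hm1 : m ≠ 1 := by
    rintro rfl
    unfold DirichletCharacter.Odd at hψ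
    have : (-1 : ZMod 1) = 1 := by decide
    rw [this, map_one] at hψ
    norm_num at hψ
  calc ∑ j : ZMod m, ZMod.dft (fun j => ψ j) j * (saw j : ℂ)
      = ∑ j : ZMod m, ∑ k : ZMod m, ψ k * (ZMod.stdAddChar (-(k * j)) * (saw j : ℂ)) := by
        refine sum_congr rfl fun j _ => ?_
        rw [ZMod.dft_apply, sum_mul]
        refine sum_congr rfl fun k _ => ?_
        rw [smul_eq_mul]; ring
    _ = ∑ k : ZMod m, ψ k * ∑ j : ZMod m, (ZMod.stdAddChar (-(k * j)) * (saw j : ℂ)) := by
        rw [sum_comm]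
        refine sum_congr rfl fun k _ => ?_
        rw [mul_sum]
    _ = ∑ u : (ZMod m)ˣ, ψ (u : ZMod m) *
          ∑ j : ZMod m, (ZMod.stdAddChar (-((u : ZMod m) * j)) * (saw j : ℂ)) := by
        symm
        apply Fintype.sum_of_injective (fun u : (ZMod m)ˣ => (u : ZMod m)) Units.val_injective
        · intro x hx
          have : ¬ IsUnit x := by
            rintro ⟨v, hv⟩
            exact hx ⟨v, hv⟩
          rw [ψ.map_nonunit this, zero_mul]
        · intro u; rfl
    _ = ∑ u : (ZMod m)ˣ, m * (ψ (u : ZMod m) * K m ((u : ZMod m).val)) := by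
        refine sum_congr rfl fun u _ => ?_
        have hk : ((u : ZMod m).val : ZMod m) = (u : ZMod m) := ZMod.natCast_zmod_val _
        set η : ℂ := ZMod.stdAddChar (-(u : ZMod m)) with hη
        have hη' : η = ee ((((u : ZMod m).val : ℕ) : ℝ) / m) := by
          rw [hη, ← stdAddChar_eq_ee, hk]
        have hpow : ∀ n : ℕ, η ^ n = ZMod.stdAddChar (-((u : ZMod m) * (n : ZMod m))) := by
          intro n
          rw [hη, ← AddChar.map_nsmul_eq_pow]
          congr 1
          rw [nsmul_eq_mul]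
          ring
        have h1 : η ^ m = 1 := by
          rw [hpow]; simp
        have h2 : η ≠ 1 := by
          intro h3
          have h4 : -(u : ZMod m) = 0 := by
            apply ZMod.injective_stdAddChar (N := m)
            rw [← hη, h3, AddChar.map_zero_eq_one]
          rw [neg_eq_zero] at h4
          have h5 : IsUnit (0 : ZMod m) := h4 ▸ u.isUnit
          rw [isUnit_zero_iff] at h5
          have h6 : ((0 : ℕ) : ZMod m) = ((1 : ℕ) : ZMod m) := by exact_mod_cast h5
          rw [ZMod.natCast_eq_natCast_iff'] at h6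
          have : 1 % m = 1 := Nat.mod_eq_of_lt (by omega)
          rw [this] at h6
          simp at h6
        have h3 := saw_sum m hm0 η h1 h2
        have h4 : ∑ j : ZMod m, (ZMod.stdAddChar (-((u : ZMod m) * j)) * (saw j : ℂ)) =
            ∑ j ∈ range m, (saw (j : ZMod m) : ℂ) * η ^ j := by
          rw [← range_sum m (fun j => (ZMod.stdAddChar (-((u : ZMod m) * j)) * (saw j : ℂ)))]
          refine sum_congr rfl fun j _ => ?_
          rw [hpow]; ring
        rw [h4, h3]
        unfold K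
        rw [← hη']; ring
    _ = 0 := by rw [← mul_sum, h0, mul_zero]

end Pool.Agent.H80.Sig
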