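import Pool.Agent.H80.Sig.Rel
set_option autoImplicit false

/-!
# Relations between the signature functions of iterated torus knots
-/

namespace Pool.Agent.H80.Sig

open Finset

/-- The symbols of the iterated torus knot given by the list `L` (last cabling first): for the
cabling with parameters `p, q` the triple `(min p q, max p q, P)`, where `P` is the product of the
winding numbers of the later cablings. The signature function is the sum of the functions
`x ↦ σ_(Px)(T(p,q))` over the symbols `(p, q, P)` of `syms L 1`. -/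
def syms : List (ℕ × ℕ) → ℕ → List (ℕ × ℕ × ℕ)
  | [], _ => []
  | (p, q) :: L, P => (min p q, max p q, P) :: syms L (p * P)

lemma J_minmax (p q : ℕ) (x : ℝ) : J (min p q) (max p q) x = J p q x := by
  rcases le_total p q with h | h
  · rw [min_eq_left h, max_eq_right h]
  · rw [min_eq_right h, max_eq_left h, J_swap]

lemma JK_syms (L : List (ℕ × ℕ)) (P : ℕ) (x : ℝ) :
    JK L (P * x) = ((syms L P).map fun s => J s.1 s.2.1 (s.2.2 * x)).sum := by
  induction L generalizing P with
  | nil => rfl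
  | cons c L ih =>
    obtain ⟨p, q⟩ := c
    simp only [JK, syms, List.map_cons, List.sum_cons]
    rw [J_minmax, ← ih (p * P)]
    congr 2
    push_cast; ring

lemma syms_prop {L : List (ℕ × ℕ)} (hL : Cop L) {P : ℕ} (hP : 0 < P) :
    ∀ s ∈ syms L P, 1 < s.1 → Good s ∧ s.1 < s.2.1 := by
  induction L generalizing P with
  | nil => intro s hs; simp [syms] at hs
  | cons c L ih =>
    obtain ⟨p, q⟩ := c
    intro s hs h1
    simp only [syms, List.mem_cons] at hs
    have hc := hL (p, q) (by simp)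
    simp only at hc
    rcases hs with rfl | hs
    · simp only at h1
      have h2 : 2 ≤ p := by
        have := min_le_left p q; omega
      have h3 : 2 ≤ q := by
        have := min_le_right p q; omega
      have hne : p ≠ q := by
        rintro rfl
        have := hc.1
        rw [Nat.coprime_self] at this
        omega
      refine ⟨⟨?_, h1, ?_, hP⟩, by simpa using hne.symm⟩
      · rcases le_total p q with h | h
        · simpa [min_eq_left h, max_eq_right h] using hc.1
        · simpa [min_eq_right h, max_eq_left h] using hc.1.symm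
      · simp only
        exact le_trans h2 (le_max_left p q)
    · exact ih (fun c hc => hL c (by simp [hc])) (Nat.mul_pos hc.2 hP) s hs h1

/-- the total coefficient of a symbol -/
noncomputable def wt {ι : Type*} (S : Finset ι) (a : ι → ℝ) (K : ι → List (ℕ × ℕ))
    (s : ℕ × ℕ × ℕ) : ℝ := ∑ k ∈ S, a k * ((syms (K k) 1).count s : ℝ)

/-- the symbols which occur -/
def occ {ι : Type*} (S : Finset ι) (K : ι → List (ℕ × ℕ)) : Finset (ℕ × ℕ × ℕ) :=
  (S.biUnion (fun k => (syms (K k) 1).toFinset)).filter (fun s => 1 < s.1)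

lemma mem_occ {ι : Type*} {S : Finset ι} {K : ι → List (ℕ × ℕ)} {s : ℕ × ℕ × ℕ} :
    s ∈ occ S K ↔ (∃ k ∈ S, s ∈ syms (K k) 1) ∧ 1 < s.1 := by
  unfold occ
  rw [mem_filter, mem_biUnion]
  simp only [List.mem_toFinset]

lemma wt_eq_zero {ι : Type*} {S : Finset ι} (a : ι → ℝ) {K : ι → List (ℕ × ℕ)} {s : ℕ × ℕ × ℕ}
    (h1 : 1 < s.1) (h : s ∉ occ S K) : wt S a K s = 0 := by
  refine Finset.sum_eq_zero fun k hk => ?_
  have : (syms (K k) 1).count s = 0 := by
    rw [List.count_eq_zero]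
    intro h2
    exact h (mem_occ.2 ⟨⟨k, hk, h2⟩, h1⟩)
  rw [this]; simp

lemma occ_good {ι : Type*} {S : Finset ι} {K : ι → List (ℕ × ℕ)} (hK : ∀ k ∈ S, Cop (K k)) :
    ∀ s ∈ occ S K, Good s ∧ s.1 < s.2.1 := by
  intro s hs
  obtain ⟨⟨k, hk, h2⟩, h1⟩ := mem_occ.1 hs
  exact syms_prop (hK k hk) one_pos s h2 h1

theorem rel_of_sig {ι : Type*} (S : Finset ι) (a : ι → ℝ) (K : ι → List (ℕ × ℕ))
    (hK : ∀ k ∈ S, Cop (K k))
    (hfin : {x : ℝ | x ∈ Set.Ioo (0 : ℝ) 1 ∧ ∑ k ∈ S, a k * (sigK (K k) x : ℝ) ≠ 0}.Finite) :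
    Rel (occ S K) (wt S a K) := by
  have hrel := jump_relation S a K hK hfin
  set all : Finset (ℕ × ℕ × ℕ) := S.biUnion (fun k => (syms (K k) 1).toFinset) with hall
  have hT : occ S K = all.filter (fun s => 1 < s.1) := rfl
  intro x
  have h1 := hrel x
  have h2 : ∀ k ∈ S, (JK (K k) x : ℝ) =
      ∑ s ∈ occ S K, ((syms (K k) 1).count s : ℝ) * (J s.1 s.2.1 (s.2.2 * x) : ℝ) := by
    intro k hk
    have h3 := JK_syms (K k) 1 x
    rw [Nat.cast_one, one_mul] at h3
    rw [h3, Finset.sum_list_map_count]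
    push_cast
    have h4 : ∑ s ∈ all, ((syms (K k) 1).count s : ℝ) * (J s.1 s.2.1 (s.2.2 * x) : ℝ) =
        ∑ s ∈ (syms (K k) 1).toFinset,
          ((syms (K k) 1).count s : ℝ) * (J s.1 s.2.1 (s.2.2 * x) : ℝ) := by
      symm
      apply Finset.sum_subset
      · exact Finset.subset_biUnion_of_mem (fun k => (syms (K k) 1).toFinset) hk
      · intro s _ hs
        rw [List.mem_toFinset, ← List.count_eq_zero] at hs
        rw [hs]; simp
    have h5 : ∑ s ∈ occ S K, ((syms (K k) 1).count s : ℝ) * (J s.1 s.2.1 (s.2.2 * x) : ℝ) =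
        ∑ s ∈ all, ((syms (K k) 1).count s : ℝ) * (J s.1 s.2.1 (s.2.2 * x) : ℝ) := by
      rw [hT, Finset.sum_filter]
      refine Finset.sum_congr rfl fun s _ => ?_
      split_ifs with h6
      · rfl
      · have : J s.1 s.2.1 (s.2.2 * x) = 0 := by
          unfold J
          rw [Finset.Ico_eq_empty (by omega), Finset.sum_empty]
        rw [this]; simp
    rw [h5, h4]
    refine Finset.sum_congr rfl fun s _ => ?_
    rw [nsmul_eq_mul]
    push_cast
    congr 2
    unfold List.count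
    apply List.countP_congr
    intro y _
    simp
  have h3 : ∑ s ∈ occ S K, wt S a K s * (J s.1 s.2.1 (s.2.2 * x) : ℝ) =
      ∑ k ∈ S, a k * (JK (K k) x : ℝ) := by
    unfold wt
    simp_rw [Finset.sum_mul]
    rw [Finset.sum_comm]
    refine Finset.sum_congr rfl fun k hk => ?_
    rw [h2 k hk, Finset.mul_sum]
    refine Finset.sum_congr rfl fun s _ => ?_
    ring
  rw [h3, h1]

/-- Independence of the functions of symbols `(p, q, P)` which are determined by `p q` and `P`. -/
theorem indep_unique {T : Finset (ℕ × ℕ × ℕ)} {w : ℕ × ℕ × ℕ → ℝ} (hT : ∀ s ∈ T, Good s)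
    (hR : Rel T w)
    (hu : ∀ s ∈ T, ∀ s' ∈ T, s.2.2 = s'.2.2 → s.1 * s.2.1 = s'.1 * s'.2.1 → s = s')
    (h30 : ∀ P : ℕ, ∃ N ∈ ({6, 10, 15, 30} : Finset ℕ), ∀ s ∈ T, s.2.2 = P → s.1 * s.2.1 ≠ N) :
    ∀ s ∈ T, w s = 0 := by
  classical
  by_contra hcon
  push Not at hcon
  obtain ⟨t₀, ht₀, hwt₀⟩ := hcon
  obtain ⟨s₀, hs₀, hmin⟩ := Finset.exists_min_image (T.filter fun s => w s ≠ 0)
    (fun s => s.2.2) ⟨t₀, mem_filter.2 ⟨ht₀, hwt₀⟩⟩
  obtain ⟨hs₀T, hw₀⟩ := mem_filter.1 hs₀
  set P := s₀.2.2 with hPdef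
  have hP : 0 < P := (hT s₀ hs₀T).2.2.2
  have hmin' : ∀ s ∈ T, w s ≠ 0 → s.2.2 ∣ P → s.2.2 = P := by
    intro s hs hw hd
    exact le_antisymm (Nat.le_of_dvd hP hd) (hmin s (mem_filter.2 ⟨hs, hw⟩))
  have hprod := products hT hR hP hmin'
  -- the sum over the symbols with a given product has at most one term
  have hone : ∀ s ∈ T, s.2.2 = P →
      ∑ s' ∈ T.filter (fun s' => s'.2.2 = P ∧ s'.1 * s'.2.1 = s.1 * s.2.1), w s' = w s := by
    intro s hs hsP
    have : T.filter (fun s' => s'.2.2 = P ∧ s'.1 * s'.2.1 = s.1 * s.2.1) = {s} := by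
      ext s'
      rw [mem_filter, mem_singleton]
      constructor
      · rintro ⟨h1, h2, h3⟩
        exact hu s' h1 s hs (h2.trans hsP.symm) h3
      · rintro rfl
        exact ⟨hs, hsP, rfl⟩
    rw [this, sum_singleton]
  -- the coefficient `t`
  set t : ℂ := ((∑ s ∈ T.filter (fun s => s.2.2 = P ∧ s.1 * s.2.1 = 30), w s : ℝ) : ℂ) with ht
  have ht0 : t = 0 := by
    obtain ⟨N, hN, hno⟩ := h30 P
    have h1 : T.filter (fun s => s.2.2 = P ∧ s.1 * s.2.1 = N) = ∅ := by
      rw [filter_eq_empty_iff]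
      rintro s hs ⟨h2, h3⟩
      exact hno s hs h2 h3
    have h2 := hprod N
    rw [h1] at h2
    simp only [sum_empty, Complex.ofReal_zero] at h2
    have h3 : rho N ≠ 0 := by
      simp only [mem_insert, mem_singleton] at hN
      rcases hN with rfl | rfl | rfl | rfl <;> simp [rho]
    exact (mul_eq_zero.1 h2.symm).resolve_right h3
  have h1 := hprod (s₀.1 * s₀.2.1)
  rw [ht0, zero_mul, hone s₀ hs₀T rfl] at h1
  exact hw₀ (by exact_mod_cast h1)

end Pool.Agent.H80.Sig
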