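import Pool.Agent.H80.Sig.Top
import Pool.Agent.H80.Sig.Syms
set_option autoImplicit false

/-!
# All relations are formal for dominated odd parameters
-/

namespace Pool.Agent.H80.Sig

open Finset

lemma J_support {p q : ℕ} (hp : 0 < p) (hq : 0 < q) {y : ℝ} (h : J p q y ≠ 0) :
    ∃ n : ℤ, y * ((p * q : ℕ) : ℝ) = n := by
  classical
  unfold J at h
  obtain ⟨i, hi, h1⟩ := Finset.exists_ne_zero_of_sum_ne_zero h
  obtain ⟨j, hj, h2⟩ := Finset.exists_ne_zero_of_sum_ne_zero h1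
  split_ifs at h2 with h3 h4
  all_goals
    first
    | (obtain ⟨n, hn⟩ := h3
       refine ⟨n * (p * q) + i * q + j * p, ?_⟩
       have hp' : (p : ℝ) ≠ 0 := by exact_mod_cast hp.ne'
       have hq' : (q : ℝ) ≠ 0 := by exact_mod_cast hq.ne'
       have h5 : y = n + ((i : ℝ) / p + (j : ℝ) / q) := by linarith
       rw [h5]; push_cast; field_simp; ring)
    | exact absurd rfl h2

theorem dom_indep {T : Finset (ℕ × ℕ × ℕ)} {w : ℕ × ℕ × ℕ → ℝ}
    (hT : ∀ s ∈ T, Good s ∧ s.1 < s.2.1 ∧ Odd s.1 ∧ Odd s.2.1 ∧ Dom s.1 s.2.1)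
    (hR : Rel T w) : ∀ s ∈ T, w s = 0 := by
  classical
  by_contra hcon
  push Not at hcon
  obtain ⟨t₀, ht₀, hwt₀⟩ := hcon
  set Nn : ℕ × ℕ × ℕ → ℕ := fun s => s.2.2 * (s.1 * s.2.1) with hNn
  obtain ⟨s₀, hs₀, hmax⟩ := Finset.exists_max_image (T.filter fun s => w s ≠ 0) Nn
    ⟨t₀, mem_filter.2 ⟨ht₀, hwt₀⟩⟩
  obtain ⟨L, hLdef⟩ : ∃ L, L = Nn s₀ := ⟨_, rfl⟩
  rw [← hLdef] at hmax
  have hpos : ∀ s ∈ T, 0 < Nn s := by
    intro s hs
    obtain ⟨⟨h1, h2, h3, h4⟩, -⟩ := hT s hs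
    simp only [hNn]
    positivity
  have hL : 0 < L := hLdef ▸ hpos s₀ (mem_filter.1 hs₀).1
  set B := (T.filter fun s => w s ≠ 0).filter (fun s => Nn s = L) with hB
  have hmemB : ∀ s, s ∈ B ↔ s ∈ T ∧ w s ≠ 0 ∧ Nn s = L := by
    intro s
    rw [hB, mem_filter, mem_filter, and_assoc]
  have hinj : Set.InjOn (fun s : ℕ × ℕ × ℕ => (s.1, s.2.1)) (B : Set (ℕ × ℕ × ℕ)) := by
    intro s hs s' hs' he
    obtain ⟨h1, h2, h3⟩ := (hmemB s).1 (by exact_mod_cast hs)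
    obtain ⟨h1', h2', h3'⟩ := (hmemB s').1 (by exact_mod_cast hs')
    simp only [Prod.mk.injEq] at he
    obtain ⟨e1, e2⟩ := he
    have h4 : s.2.2 * (s.1 * s.2.1) = s'.2.2 * (s.1 * s.2.1) := by
      have e3 : s'.2.2 * (s.1 * s.2.1) = s'.2.2 * (s'.1 * s'.2.1) := by rw [e1, e2]
      rw [e3]
      exact h3.trans h3'.symm
    have h5 : 0 < s.1 * s.2.1 := by
      obtain ⟨⟨g1, g2, g3, g4⟩, -⟩ := hT s h1
      positivity
    exact Prod.ext e1 (Prod.ext e2 (Nat.eq_of_mul_eq_mul_right h5 h4))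
  have key := top hL (B.image fun s => (s.1, s.2.1))
    (fun s => ((w (s.1, s.2, L / (s.1 * s.2)) : ℝ) : ℂ)) ?_ ?_ ?_
  · have h1 : (s₀.1, s₀.2.1) ∈ B.image fun s => (s.1, s.2.1) :=
      mem_image.2 ⟨s₀, (hmemB s₀).2 ⟨(mem_filter.1 hs₀).1, (mem_filter.1 hs₀).2, hLdef.symm⟩, rfl⟩
    rw [key] at h1
    simp at h1
  · intro s hs
    obtain ⟨t, ht, rfl⟩ := mem_image.1 hs
    obtain ⟨h1, h2, h3⟩ := (hmemB t).1 ht
    obtain ⟨⟨g1, g2, g3, g4⟩, g5, g6, g7, g8⟩ := hT t h1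
    exact ⟨g5, g1, g6, g7, g2, h3 ▸ Dvd.intro_left t.2.2 rfl, g8⟩
  · intro s hs
    obtain ⟨t, ht, rfl⟩ := mem_image.1 hs
    obtain ⟨h1, h2, h3⟩ := (hmemB t).1 ht
    obtain ⟨⟨g1, g2, g3, g4⟩, g5, g6, g7, g8⟩ := hT t h1
    have h4 : L / (t.1 * t.2.1) = t.2.2 := by
      rw [← h3]
      exact Nat.mul_div_cancel _ (by positivity)
    simp only [h4]
    exact_mod_cast h2
  · intro k hk
    have h1 := hR ((k : ℝ) / L)
    have h2 : ∑ s ∈ T, w s * (J s.1 s.2.1 (s.2.2 * ((k : ℝ) / L)) : ℝ) =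
        ∑ s ∈ B, w s * (J s.1 s.2.1 (s.2.2 * ((k : ℝ) / L)) : ℝ) := by
      symm
      apply Finset.sum_subset
      · intro s hs
        exact ((hmemB s).1 hs).1
      · intro s hs hsB
        by_cases hw : w s = 0
        · rw [hw, zero_mul]
        · by_cases hJ : J s.1 s.2.1 (s.2.2 * ((k : ℝ) / L)) = 0
          · rw [hJ]; simp
          · exfalso
            obtain ⟨⟨g1, g2, g3, g4⟩, -⟩ := hT s hs
            obtain ⟨n, hn⟩ := J_support (by omega) (by omega) hJ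
            have hL' : (L : ℝ) ≠ 0 := by exact_mod_cast hL.ne'
            have h3 : ((Nn s * k : ℕ) : ℝ) = n * L := by
              rw [← hn]; simp only [hNn]; push_cast; field_simp
            have h4 : ((Nn s * k : ℕ) : ℤ) = n * L := by exact_mod_cast h3
            have h5 : (L : ℤ) ∣ ((Nn s * k : ℕ) : ℤ) := ⟨n, by rw [h4]; ring⟩
            have h6 : L ∣ Nn s * k := by exact_mod_cast h5
            have h7 : L ∣ Nn s := hk.symm.dvd_of_dvd_mul_right h6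
            have h8 := Nat.le_of_dvd (hpos s hs) h7
            have h9 := hmax s (mem_filter.2 ⟨hs, hw⟩)
            exact hsB ((hmemB s).2 ⟨hs, hw, le_antisymm h9 h8⟩)
    rw [h2] at h1
    rw [Finset.sum_image (by exact_mod_cast hinj)]
    have h3 : ((∑ s ∈ B, w s * (J s.1 s.2.1 (s.2.2 * ((k : ℝ) / L)) : ℝ) : ℝ) : ℂ) = 0 := by
      rw [h1]; simp
    rw [← h3]
    push_cast
    refine sum_congr rfl fun s hs => ?_
    obtain ⟨g1, g2, g3⟩ := (hmemB s).1 hs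
    obtain ⟨⟨e1, e2, e3, e4⟩, -⟩ := hT s g1
    have h4 : L / (s.1 * s.2.1) = s.2.2 := by
      rw [← g3]
      exact Nat.mul_div_cancel _ (by positivity)
    have h5 : (s.2.2 : ℝ) * ((k : ℝ) / L) = (k : ℝ) / (s.1 * s.2.1) := by
      have hp' : (s.1 : ℝ) ≠ 0 := by exact_mod_cast (by omega : s.1 ≠ 0)
      have hq' : (s.2.1 : ℝ) ≠ 0 := by exact_mod_cast (by omega : s.2.1 ≠ 0)
      have hP' : (s.2.2 : ℝ) ≠ 0 := by exact_mod_cast (by omega : s.2.2 ≠ 0)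
      rw [← g3]; simp only [hNn]; push_cast; field_simp
    rw [h4, h5]

end Pool.Agent.H80.Sig
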