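import Pool.Agent.H80.Sig.CotIndep
import Pool.Agent.H80.Sig.Jump
set_option autoImplicit false

/-!
# Relations between jump functions of torus knots and cotangents
-/

namespace Pool.Agent.H80.Sig

open Finset

/-- a relation between the functions `x ↦ J p q (P x)` -/
def Rel (T : Finset (ℕ × ℕ × ℕ)) (w : ℕ × ℕ × ℕ → ℝ) : Prop :=
  ∀ x : ℝ, ∑ s ∈ T, w s * (J s.1 s.2.1 (s.2.2 * x) : ℝ) = 0

/-- symbols `(p, q, P)` -/
def Good (s : ℕ × ℕ × ℕ) : Prop := Nat.Coprime s.1 s.2.1 ∧ 2 ≤ s.1 ∧ 2 ≤ s.2.1 ∧ 0 < s.2.2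

lemma G_eq_K {p q h : ℕ} (hc : Nat.Coprime p q) (hp : 2 ≤ p) (hq : 2 ≤ q)
    (hh : Nat.Coprime h (p * q)) : G p q h = K (p * q) h := by
  have hph : ¬ p ∣ h := by
    intro h1
    have h2 : p ∣ Nat.gcd h (p * q) := Nat.dvd_gcd h1 (Dvd.intro q rfl)
    rw [hh] at h2
    have := Nat.dvd_one.1 h2
    omega
  have hqh : ¬ q ∣ h := by
    intro h1
    have h2 : q ∣ Nat.gcd h (p * q) := Nat.dvd_gcd h1 (Dvd.intro_left p rfl)
    rw [hh] at h2
    have := Nat.dvd_one.1 h2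
    omega
  rw [G_formula hc (by omega) (by omega) hqh, if_neg hph, sub_zero]
  unfold K
  push_cast
  rfl

lemma fourier {T : Finset (ℕ × ℕ × ℕ)} {w : ℕ × ℕ × ℕ → ℝ} (hT : ∀ s ∈ T, Good s)
    (hR : Rel T w) {P : ℕ} (hP : 0 < P) (hmin : ∀ s ∈ T, w s ≠ 0 → s.2.2 ∣ P → s.2.2 = P)
    {h : ℕ} (hh : ∀ s ∈ T, Nat.Coprime h (s.1 * s.2.1 * s.2.2)) :
    ∑ s ∈ T.filter (fun s => s.2.2 = P), (w s : ℂ) * K (s.1 * s.2.1) h = 0 := by
  classical
  set M := ∏ s ∈ T, s.1 * s.2.1 * s.2.2 with hM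
  have hM0 : 0 < M := by
    rw [hM]
    apply Finset.prod_pos
    intro s hs
    obtain ⟨_, h2, h3, h4⟩ := hT s hs
    positivity
  have hdvd : ∀ s ∈ T, s.1 * s.2.1 * s.2.2 ∣ M := fun s hs => Finset.dvd_prod_of_mem _ hs
  have h0 : ∑ s ∈ T, (w s : ℂ) * Ft M (fun x => J s.1 s.2.1 (s.2.2 * x)) (P * h) = 0 := by
    unfold Ft
    simp_rw [mul_sum]
    rw [sum_comm]
    apply sum_eq_zero
    intro k _
    have h1 := hR ((k : ℝ) / M)
    have h2 : ∑ s ∈ T, (w s : ℂ) * ((J s.1 s.2.1 (s.2.2 * ((k : ℝ) / M)) : ℤ) : ℂ) = 0 := by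
      have h3 : ((∑ s ∈ T, w s * (J s.1 s.2.1 (s.2.2 * ((k : ℝ) / M)) : ℝ) : ℝ) : ℂ) = 0 := by
        rw [h1]; simp
      push_cast at h3
      exact h3
    have h4 : ∀ s ∈ T, (w s : ℂ) * (((J s.1 s.2.1 (s.2.2 * ((k : ℝ) / M)) : ℤ) : ℂ) *
        ee (((P * h : ℕ) : ℝ) * (k / M))) =
        ((w s : ℂ) * ((J s.1 s.2.1 (s.2.2 * ((k : ℝ) / M)) : ℤ) : ℂ)) *
          ee (((P * h : ℕ) : ℝ) * (k / M)) := by
      intro s _; ring
    rw [sum_congr rfl h4, ← sum_mul, h2, zero_mul]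
  have h5 : ∑ s ∈ T, (w s : ℂ) * Ft M (fun x => J s.1 s.2.1 (s.2.2 * x)) (P * h) =
      ∑ s ∈ T, if s.2.2 = P then (P : ℂ) * ((w s : ℂ) * K (s.1 * s.2.1) h) else 0 := by
    refine sum_congr rfl fun s hs => ?_
    by_cases hw : w s = 0
    · rw [hw]; simp
    · obtain ⟨hc, h2, h3, h4⟩ := hT s hs
      obtain ⟨p, q, Q⟩ := s
      simp only at hc h2 h3 h4 ⊢
      have hd := hdvd (p, q, Q) hs
      simp only at hd
      have hQM : Q ∣ M := (Dvd.intro_left _ rfl).trans hd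
      obtain ⟨N, hN⟩ := hQM
      have hN0 : 0 < N := by
        rcases Nat.eq_zero_or_pos N with h | h
        · rw [h, mul_zero] at hN; omega
        · exact h
      have hpq : p * q ∣ N := by
        rw [hN, mul_comm Q N] at hd
        exact (Nat.mul_dvd_mul_iff_right h4).1 hd
      have h6 := Ft_comp (f := J p q) (fun x k => J_add_int p q x k) h4 hN0 (P * h)
      rw [mul_comm N Q, ← hN] at h6
      rw [h6]
      have hhc : Nat.Coprime h (p * q * Q) := hh (p, q, Q) hs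
      by_cases hQ : Q ∣ P * h
      · have hQP : Q ∣ P := by
          have h7 : Nat.Coprime Q h :=
            (Nat.Coprime.coprime_dvd_right (Dvd.intro_left (p * q) rfl) hhc).symm
          exact h7.dvd_of_dvd_mul_right hQ
        have h8 := hmin (p, q, Q) hs hw hQP
        simp only at h8
        subst h8
        rw [if_pos hQ, if_pos rfl, Nat.mul_div_cancel_left _ h4,
          Ft_J (by omega) (by omega) hN0 hpq,
          G_eq_K hc h2 h3 (Nat.Coprime.coprime_dvd_right (Dvd.intro Q rfl) hhc)]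
        ring
      · rw [if_neg hQ, if_neg (fun h8 => hQ (by rw [h8]; exact Dvd.intro h rfl)), mul_zero]
  rw [h5, ← sum_filter, ← mul_sum] at h0
  exact (mul_eq_zero.1 h0).resolve_left (by exact_mod_cast hP.ne')

lemma not_primePow {p q : ℕ} (hc : Nat.Coprime p q) (hp : 2 ≤ p) (hq : 2 ≤ q) :
    6 ≤ p * q ∧ ¬ IsPrimePow (p * q) := by
  constructor
  · have hne : p ≠ q := by
      rintro rfl
      rw [Nat.coprime_self] at hc
      omega
    rcases Nat.lt_or_gt_of_ne hne with h | h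
    · have h3 : 3 ≤ q := by omega
      calc 6 = 2 * 3 := rfl
        _ ≤ p * q := Nat.mul_le_mul hp h3
    · have h3 : 3 ≤ p := by omega
      calc 6 = 3 * 2 := rfl
        _ ≤ p * q := Nat.mul_le_mul h3 hq
  · intro h
    rw [isPrimePow_nat_iff] at h
    obtain ⟨l, k, hl, hk, he⟩ := h
    have h1 : ∀ t, 2 ≤ t → t ∣ p * q → l ∣ t := by
      intro t ht htd
      rw [← he] at htd
      obtain ⟨j, _, rfl⟩ := (Nat.dvd_prime_pow hl).1 htd
      rcases Nat.eq_zero_or_pos j with h0 | h0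
      · subst h0; simp at ht
      · exact dvd_pow_self l h0.ne'
    have h2 := Nat.dvd_gcd (h1 p hp (Dvd.intro q rfl)) (h1 q hq (Dvd.intro_left p rfl))
    rw [hc] at h2
    exact hl.one_lt.ne' (Nat.dvd_one.1 h2)

/-- The sums of the coefficients over the symbols `(p, q, P)` with a given product `p q`, where `P` is
minimal. -/
theorem products {T : Finset (ℕ × ℕ × ℕ)} {w : ℕ × ℕ × ℕ → ℝ} (hT : ∀ s ∈ T, Good s)
    (hR : Rel T w) {P : ℕ} (hP : 0 < P) (hmin : ∀ s ∈ T, w s ≠ 0 → s.2.2 ∣ P → s.2.2 = P) (N : ℕ) :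
    ((∑ s ∈ T.filter (fun s => s.2.2 = P ∧ s.1 * s.2.1 = N), w s : ℝ) : ℂ) =
      ((∑ s ∈ T.filter (fun s => s.2.2 = P ∧ s.1 * s.2.1 = 30), w s : ℝ) : ℂ) * rho N := by
  classical
  set D : Finset ℕ := (T.filter fun s => s.2.2 = P).image (fun s => s.1 * s.2.1) with hD
  set M := ∏ s ∈ T, s.1 * s.2.1 * s.2.2 with hM
  have hM0 : 0 < M := by
    rw [hM]
    apply Finset.prod_pos
    intro s hs
    obtain ⟨_, h2, h3, h4⟩ := hT s hs
    positivity
  have hdvd : ∀ s ∈ T, s.1 * s.2.1 * s.2.2 ∣ M := fun s hs => Finset.dvd_prod_of_mem _ hs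
  refine indep_full M hM0 D ?_
    (fun N => ((∑ s ∈ T.filter (fun s => s.2.2 = P ∧ s.1 * s.2.1 = N), w s : ℝ) : ℂ)) ?_ ?_ N
  · intro N hN
    obtain ⟨s, hs, rfl⟩ := mem_image.1 hN
    have hsT := (mem_filter.1 hs).1
    obtain ⟨hc, h2, h3, _⟩ := hT s hsT
    have := not_primePow hc h2 h3
    exact ⟨(Dvd.intro _ rfl).trans (hdvd s hsT), this.1, this.2⟩
  · intro N hN
    have : T.filter (fun s => s.2.2 = P ∧ s.1 * s.2.1 = N) = ∅ := by
      rw [filter_eq_empty_iff]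
      rintro s hs ⟨h1, h2⟩
      exact hN (mem_image.2 ⟨s, mem_filter.2 ⟨hs, h1⟩, h2⟩)
    rw [this]; simp
  · intro h hh
    have h1 := fourier hT hR hP hmin (h := h)
      (fun s hs => Nat.Coprime.coprime_dvd_right (hdvd s hs) hh)
    rw [← h1]
    rw [← Finset.sum_fiberwise_of_maps_to (s := T.filter fun s => s.2.2 = P) (t := D)
      (g := fun s => s.1 * s.2.1) (fun s hs => mem_image.2 ⟨s, hs, rfl⟩)]
    refine sum_congr rfl fun N _ => ?_
    rw [filter_filter]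
    push_cast
    rw [sum_mul]
    refine sum_congr rfl fun s hs => ?_
    rw [(mem_filter.1 hs).2.2]

end Pool.Agent.H80.Sig
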