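import Pool.Agent.H80.Sig.Star
set_option autoImplicit false

/-!
# Last products for relations between jump functions; equality of knots
-/

namespace Pool.Agent.H80.Sig

open Finset

theorem rel_of_J {ι : Type} (S : Finset ι) (a : ι → ℝ) (K : ι → List (ℕ × ℕ))
    (hrel : JRel S a K) : Rel (occ S K) (wt S a K) := by
  classical
  set all : Finset (ℕ × ℕ × ℕ) := S.biUnion (fun k => (syms (K k) 1).toFinset) with hall
  have hT : occ S K = all.filter (fun s => 1 < s.1) := rfl
  intro x
  have h1 := hrel x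
  have h2 : ∀ k ∈ S, (JK (K k) x : ℝ) =
      ∑ s ∈ occ S K, ((syms (K k) 1).count s : ℝ) * (J s.1 s.2.1 (s.2.2 * x) : ℝ) := by
    intro k hk
    have h3 := JK_syms (K k) 1 x
    rw [Nat.cast_one, one_mul] at h3
    rw [h3, Finset.sum_list_map_count]
    push_cast
    have h4 : ∑ s ∈ all, ((syms (K k) 1).count s : ℝ) * (J s.1 s.2.1 (s.2.2 * x) : ℝ) =
        ∑ s ∈ (syms (K k) 1).toFinset,
          ((syms (K k) 1).count s : ℝ) * (J s.1 s.2.1 (s.2.2 * x) : ℝ) := by
      symm
      apply Finset.sum_subset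
      · exact Finset.subset_biUnion_of_mem (fun k => (syms (K k) 1).toFinset) hk
      · intro s _ hs
        rw [List.mem_toFinset, ← List.count_eq_zero] at hs
        rw [hs]; simp
    have h5 : ∑ s ∈ occ S K, ((syms (K k) 1).count s : ℝ) * (J s.1 s.2.1 (s.2.2 * x) : ℝ) =
        ∑ s ∈ all, ((syms (K k) 1).count s : ℝ) * (J s.1 s.2.1 (s.2.2 * x) : ℝ) := by
      rw [hT, Finset.sum_filter]
      refine Finset.sum_congr rfl fun s _ => ?_
      split_ifs with h6
      · rfl
      · have : J s.1 s.2.1 (s.2.2 * x) = 0 := by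
          unfold J
          rw [Finset.Ico_eq_empty (by omega), Finset.sum_empty]
        rw [this]; simp
    rw [h5, h4]
    refine Finset.sum_congr rfl fun s _ => ?_
    rw [nsmul_eq_mul]
    push_cast
    congr 2
    unfold List.count
    apply List.countP_congr
    intro y _
    simp
  have h3 : ∑ s ∈ occ S K, wt S a K s * (J s.1 s.2.1 (s.2.2 * x) : ℝ) =
      ∑ k ∈ S, a k * (JK (K k) x : ℝ) := by
    unfold wt
    simp_rw [Finset.sum_mul]
    rw [Finset.sum_comm]
    refine Finset.sum_congr rfl fun k hk => ?_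
    rw [h2 k hk, Finset.mul_sum]
    refine Finset.sum_congr rfl fun s _ => ?_
    ring
  rw [h3, h1]

theorem last_products_J {ι : Type} (S : Finset ι) (a : ι → ℝ) (K : ι → List (ℕ × ℕ))
    (hK : ∀ k ∈ S, Valid (K k)) (hrel : JRel S a K) :
    ∃ t : ℝ, ∀ N : ℕ, N ≠ 0 → ∑ k ∈ S with lastProd (K k) = N, a k =
      if N = 30 then t else if N = 6 ∨ N = 10 ∨ N = 15 then -t else 0 := by
  classical
  have hCop : ∀ k ∈ S, Cop (K k) := fun k hk c hc =>
    ⟨(hK k hk c hc).1, by have := (hK k hk c hc).2.1; omega⟩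
  have hR := rel_of_J S a K hrel
  have hG : ∀ s ∈ occ S K, Good s := fun s hs => (occ_good hCop s hs).1
  have hprod := products hG hR one_pos (fun s _ _ hd => Nat.dvd_one.1 hd)
  have key : ∀ N : ℕ, N ≠ 0 →
      ∑ s ∈ (occ S K).filter (fun s => s.2.2 = 1 ∧ s.1 * s.2.1 = N), wt S a K s =
        ∑ k ∈ S with lastProd (K k) = N, a k := by
    intro N hN
    unfold wt
    rw [sum_comm, sum_filter]
    refine sum_congr rfl fun k hk => ?_
    rw [← mul_sum]
    rcases hKk : K k with _ | ⟨⟨p, q⟩, L⟩
    · rw [if_neg (by simpa [lastProd] using hN.symm)]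
      simp [syms]
    · have hc := hK k hk (p, q) (by rw [hKk]; simp)
      simp only at hc
      have h1 : ∀ s ∈ (occ S K).filter (fun s => s.2.2 = 1 ∧ s.1 * s.2.1 = N),
          (((syms ((p, q) :: L) 1).count s : ℕ) : ℝ) =
            if s = (min p q, max p q, 1) then 1 else 0 := by
        intro s hs
        rw [count_one hc.2.1 L (mem_filter.1 hs).2.1]
        push_cast; rfl
      rw [sum_congr rfl h1, sum_ite_eq']
      have hmem : (min p q, max p q, 1) ∈ occ S K := by
        rw [mem_occ]
        refine ⟨⟨k, hk, by rw [hKk]; simp [syms]⟩, ?_⟩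
        simp only
        have := hc.2.1
        have := hc.2.2
        omega
      by_cases hpq : p * q = N
      · rw [if_pos, if_pos (by simpa [lastProd] using hpq), mul_one]
        rw [mem_filter]
        exact ⟨hmem, rfl, by simp only; rw [min_mul_max]; exact hpq⟩
      · rw [if_neg, if_neg (by simpa [lastProd] using hpq), mul_zero]
        rw [mem_filter]
        rintro ⟨_, _, h2⟩
        simp only at h2
        rw [min_mul_max] at h2
        exact hpq h2
  refine ⟨∑ k ∈ S with lastProd (K k) = 30, a k, fun N hN => ?_⟩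
  have h1 := hprod N
  rw [key N hN, key 30 (by norm_num)] at h1
  unfold rho at h1
  split_ifs with h2 h3
  · rw [h2]
  · rw [if_neg h2, if_pos h3, mul_neg_one] at h1
    exact_mod_cast h1
  · rw [if_neg h2, if_neg h3, mul_zero] at h1
    exact_mod_cast h1

/-- Two lists of cabling parameters describe the same iterated torus knot: they are equal, or they
differ only in the order of the parameters of the first cabling (`T(p,q) = T(q,p)`), the last entry of
the list. -/
def Same (L L' : List (ℕ × ℕ)) : Prop :=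
  L = L' ∨ ∃ (M : List (ℕ × ℕ)) (p q : ℕ), L = M ++ [(p, q)] ∧ L' = M ++ [(q, p)]

lemma Same.symm {L L' : List (ℕ × ℕ)} (h : Same L L') : Same L' L := by
  rcases h with h | ⟨M, p, q, h1, h2⟩
  · exact Or.inl h.symm
  · exact Or.inr ⟨M, q, p, h2, h1⟩

lemma Same.cons {L L' : List (ℕ × ℕ)} (c : ℕ × ℕ) (h : Same L L') : Same (c :: L) (c :: L') := by
  rcases h with h | ⟨M, p, q, h1, h2⟩
  · exact Or.inl (by rw [h])
  · exact Or.inr ⟨c :: M, p, q, by rw [h1]; rfl, by rw [h2]; rfl⟩

lemma Same.single {p q : ℕ} {L : List (ℕ × ℕ)} (h : Same [(q, p)] L) : Same [(p, q)] L := by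
  rcases h with h | ⟨M, x, y, h1, h2⟩
  · exact Or.inr ⟨[], p, q, rfl, by rw [← h]; rfl⟩
  · rcases M with _ | ⟨c, M⟩
    · simp only [List.nil_append, List.cons.injEq, Prod.mk.injEq, and_true] at h1 h2
      left
      rw [h2, h1.1, h1.2]
    · simp at h1

lemma JK_single_swap (p q : ℕ) (x : ℝ) : JK [(p, q)] x = JK [(q, p)] x := by
  simp only [JK]
  rw [J_swap]

/-- a nonempty set of nonzero numbers with sum zero has at least two elements -/
lemma two_le_card {ι : Type} {C : Finset ι} {a : ι → ℝ} (hne : C.Nonempty)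
    (ha : ∀ i ∈ C, a i ≠ 0) (h : ∑ i ∈ C, a i = 0) : 2 ≤ C.card := by
  by_contra hcon
  have h1 : C.card = 1 := by
    have := hne.card_pos
    omega
  obtain ⟨i, rfl⟩ := Finset.card_eq_one.1 h1
  rw [sum_singleton] at h
  exact ha i (by simp) h

lemma lastProd_ne {L : List (ℕ × ℕ)} (hne : L ≠ []) (hV : Valid L) : lastProd L ≠ 0 := by
  rcases L with _ | ⟨⟨p, q⟩, L⟩
  · exact absurd rfl hne
  · have h1 := hV.head
    simp only at h1
    have : 2 * 2 ≤ p * q := Nat.mul_le_mul h1.2.1 h1.2.2
    simp only [lastProd]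
    omega

/-- In a relation with nonzero coefficients between at most three knots all last products agree, and
the sum of the coefficients vanishes. -/
theorem same_product {ι : Type} {S : Finset ι} {a : ι → ℝ} {K : ι → List (ℕ × ℕ)}
    (hR : JRel S a K) (hcard : S.card ≤ 3) (hV : ∀ i ∈ S, K i ≠ [] ∧ Valid (K i))
    (ha : ∀ i ∈ S, a i ≠ 0) (hne : S.Nonempty) :
    ∃ N : ℕ, (∀ i ∈ S, lastProd (K i) = N) ∧ ∑ i ∈ S, a i = 0 := by
  classical
  obtain ⟨t, ht⟩ := last_products_J S a K (fun k hk => (hV k hk).2) hR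
  have ht0 : t = 0 := by
    by_contra htne
    have hex : ∀ N : ℕ, N = 30 ∨ N = 6 ∨ N = 10 ∨ N = 15 → ∃ i ∈ S, lastProd (K i) = N := by
      intro N hN
      by_contra hcon
      push Not at hcon
      have h1 := ht N (by omega)
      have h2 : S.filter (fun k => lastProd (K k) = N) = ∅ := by
        rw [filter_eq_empty_iff]
        exact fun i hi => hcon i hi
      rw [h2, sum_empty] at h1
      split_ifs at h1 with h3 h4
      · exact htne h1.symm
      · exact htne (by linarith)
      · omega
    obtain ⟨i₁, h1, e1⟩ := hex 30 (by tauto)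
    obtain ⟨i₂, h2, e2⟩ := hex 6 (by tauto)
    obtain ⟨i₃, h3, e3⟩ := hex 10 (by tauto)
    obtain ⟨i₄, h4, e4⟩ := hex 15 (by tauto)
    have hn12 : i₁ ≠ i₂ := by rintro rfl; omega
    have hn13 : i₁ ≠ i₃ := by rintro rfl; omega
    have hn14 : i₁ ≠ i₄ := by rintro rfl; omega
    have hn23 : i₂ ≠ i₃ := by rintro rfl; omega
    have hn24 : i₂ ≠ i₄ := by rintro rfl; omega
    have hn34 : i₃ ≠ i₄ := by rintro rfl; omega
    have hsub : ({i₁, i₂, i₃, i₄} : Finset ι) ⊆ S := by
      intro i hi
      simp only [mem_insert, mem_singleton] at hi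
      rcases hi with rfl | rfl | rfl | rfl <;> assumption
    have hc : ({i₁, i₂, i₃, i₄} : Finset ι).card = 4 := by
      rw [card_insert_of_notMem (by simp [hn12, hn13, hn14]),
        card_insert_of_notMem (by simp [hn23, hn24]), card_insert_of_notMem (by simp [hn34]),
        card_singleton]
    have := card_le_card hsub
    omega
  subst ht0
  have hz : ∀ N : ℕ, N ≠ 0 → ∑ k ∈ S with lastProd (K k) = N, a k = 0 := by
    intro N hN
    rw [ht N hN]
    split_ifs <;> simp
  obtain ⟨i₀, hi₀⟩ := hne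
  have htwo : ∀ i ∈ S, 2 ≤ (S.filter fun k => lastProd (K k) = lastProd (K i)).card := by
    intro i hi
    exact two_le_card (C := S.filter fun k => lastProd (K k) = lastProd (K i)) (a := a)
      ⟨i, mem_filter.2 ⟨hi, rfl⟩⟩ (fun k hk => ha k (mem_filter.1 hk).1)
      (hz _ (lastProd_ne (hV i hi).1 (hV i hi).2))
  have hall : ∀ i ∈ S, lastProd (K i) = lastProd (K i₀) := by
    intro i hi
    by_contra hne'
    have h1 := htwo i hi
    have h2 := htwo i₀ hi₀
    have hdis : Disjoint (S.filter fun k => lastProd (K k) = lastProd (K i))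
        (S.filter fun k => lastProd (K k) = lastProd (K i₀)) := by
      rw [disjoint_filter]
      intro k _ h3 h4
      exact hne' (h3.symm.trans h4)
    have h3 := card_union_of_disjoint hdis
    have h4 : (S.filter fun k => lastProd (K k) = lastProd (K i)) ∪
        (S.filter fun k => lastProd (K k) = lastProd (K i₀)) ⊆ S :=
      union_subset (filter_subset _ _) (filter_subset _ _)
    have := card_le_card h4
    omega
  refine ⟨lastProd (K i₀), hall, ?_⟩
  have h1 := hz _ (lastProd_ne (hV i₀ hi₀).1 (hV i₀ hi₀).2)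
  rwa [filter_true_of_mem hall] at h1

end Pool.Agent.H80.Sig
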