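import Pool.Agent.H80.Sig.Rel
set_option autoImplicit false

/-!
# The jump functions of torus knots as sawtooth functions, and their character sums
-/

namespace Pool.Agent.H80.Sig

open Finset

/-- the sawtooth function `2 {k / N} - 1` (and `0` if `N` divides `k`) -/
noncomputable def sw (N k : ℕ) : ℂ := (OC.saw ((k : ℕ) : ZMod N) : ℂ) / N

lemma sw_congr {N h h' : ℕ} (e : h ≡ h' [MOD N]) : sw N h = sw N h' := by
  unfold sw; rw [natcast_congr e]

lemma sw_eq {N k : ℕ} (hN : 0 < N) (h : ¬ N ∣ k) :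
    sw N k = (2 * ((k % N : ℕ) : ℂ) - N) / N := by
  have : NeZero N := ⟨hN.ne'⟩
  unfold sw OC.saw
  rw [if_neg (fun h' => h ((ZMod.natCast_eq_zero_iff k N).1 h')), ZMod.val_natCast]
  simp only [Int.cast_sub, Int.cast_mul, Int.cast_natCast, Int.cast_ofNat]

open scoped Classical in
lemma J_at {p q k a b : ℕ} (hc : Nat.Coprime p q) (ha0 : 0 < a)
    (haq : a < q) (hb0 : 0 < b) (hbp : b < p) (hk : b * q + a * p ≡ k [MOD p * q]) :
    J p q ((k : ℝ) / ((p * q : ℕ) : ℝ)) = if b * q + a * p < p * q then 1 else -1 := by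
  have hp : 0 < p := by omega
  have hq : 0 < q := by omega
  have hp' : (p : ℝ) ≠ 0 := by exact_mod_cast hp.ne'
  have hq' : (q : ℝ) ≠ 0 := by exact_mod_cast hq.ne'
  have key : ∀ i j : ℕ, (∃ n : ℤ, (k : ℝ) / ((p * q : ℕ) : ℝ) - ((i : ℝ) / p + (j : ℝ) / q) = n) ↔
      i * q + j * p ≡ k [MOD p * q] := by
    intro i j
    rw [← Int.natCast_modEq_iff, Int.modEq_iff_dvd]
    constructor
    · rintro ⟨n, hn⟩
      refine ⟨n, ?_⟩
      have h1 : (k : ℝ) - (i * q + j * p) = p * q * n := by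
        rw [← hn]; push_cast; field_simp
      have h2 : (k : ℝ) - (i * q + j * p) = ((p * q : ℕ) : ℝ) * n := by rw [h1]; push_cast; ring
      have h3 : (k : ℤ) - (i * q + j * p) = ((p * q : ℕ) : ℤ) * n := by exact_mod_cast h2
      rw [← h3]; push_cast; ring
    · rintro ⟨n, hn⟩
      refine ⟨n, ?_⟩
      have h1 : ((k : ℤ) : ℝ) - ((i * q + j * p : ℕ) : ℤ) = (((p * q : ℕ) : ℤ) : ℝ) * n := by
        exact_mod_cast hn
      push_cast at h1
      have h2 : (k : ℝ) = i * q + j * p + p * q * n := by linarith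
      rw [h2]; push_cast; field_simp; ring
  have uniq : ∀ i ∈ Ico 1 p, ∀ j ∈ Ico 1 q, i * q + j * p ≡ k [MOD p * q] → i = b ∧ j = a := by
    intro i hi j hj h
    rw [mem_Ico] at hi hj
    have h1 : i * q + j * p ≡ b * q + a * p [MOD p * q] := h.trans hk.symm
    constructor
    · have h2 : i * q + j * p ≡ b * q + a * p [MOD p] := h1.of_dvd (Dvd.intro q rfl)
      have h3 : i * q ≡ b * q [MOD p] := by
        have e1 : j * p ≡ 0 [MOD p] := (Nat.modEq_zero_iff_dvd).2 (Dvd.intro_left j rfl)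
        have e2 : a * p ≡ 0 [MOD p] := (Nat.modEq_zero_iff_dvd).2 (Dvd.intro_left a rfl)
        exact Nat.ModEq.add_right_cancel (e1.trans e2.symm) h2
      have h4 : i ≡ b [MOD p] := Nat.ModEq.cancel_right_of_coprime (by simpa using hc) h3
      exact Nat.ModEq.eq_of_lt_of_lt h4 hi.2 hbp
    · have h2 : i * q + j * p ≡ b * q + a * p [MOD q] := h1.of_dvd (Dvd.intro_left p rfl)
      have h3 : j * p ≡ a * p [MOD q] := by
        have e1 : i * q ≡ 0 [MOD q] := (Nat.modEq_zero_iff_dvd).2 (Dvd.intro_left i rfl)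
        have e2 : b * q ≡ 0 [MOD q] := (Nat.modEq_zero_iff_dvd).2 (Dvd.intro_left b rfl)
        exact Nat.ModEq.add_left_cancel (e1.trans e2.symm) h2
      have h4 : j ≡ a [MOD q] := Nat.ModEq.cancel_right_of_coprime (by simpa using hc.symm) h3
      exact Nat.ModEq.eq_of_lt_of_lt h4 hj.2 haq
  have hbm : b ∈ Ico 1 p := by rw [mem_Ico]; omega
  have ham : a ∈ Ico 1 q := by rw [mem_Ico]; omega
  unfold J
  rw [Finset.sum_eq_single b]
  · rw [Finset.sum_eq_single a]
    · rw [if_pos ((key b a).2 hk)]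
      by_cases hlt : b * q + a * p < p * q
      · rw [if_pos hlt, if_pos ((lt_one_iff hp hq).2 hlt)]
      · rw [if_neg hlt, if_neg (fun h => hlt ((lt_one_iff hp hq).1 h))]
    · intro j hj hne
      rw [if_neg]
      intro h
      exact hne (uniq b hbm j hj ((key b j).1 h)).2
    · intro h; exact absurd ham h
  · intro i hi hne
    refine Finset.sum_eq_zero fun j hj => ?_
    rw [if_neg]
    intro h
    exact hne (uniq i hi j hj ((key i j).1 h)).1
  · intro h; exact absurd hbm h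

lemma J_sw {p q k p' q' : ℕ} (hc : Nat.Coprime p q) (hp : 2 ≤ p) (hq : 2 ≤ q)
    (hk : k.Coprime (p * q)) (hp' : p * p' ≡ 1 [MOD q]) (hq' : q * q' ≡ 1 [MOD p]) :
    (J p q ((k : ℝ) / ((p * q : ℕ) : ℝ)) : ℂ) =
      sw (p * q) k - sw p (q' * k) - sw q (p' * k) := by
  classical
  have hkp : k.Coprime p := Nat.Coprime.coprime_mul_right_right hk
  have hkq : k.Coprime q := Nat.Coprime.coprime_mul_left_right hk
  have hq'p : q'.Coprime p := by
    have : (q * q').Coprime p := cop_of_modEq hq' (Nat.coprime_one_left p)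
    exact Nat.Coprime.coprime_mul_left this
  have hp'q : p'.Coprime q := by
    have : (p * p').Coprime q := cop_of_modEq hp' (Nat.coprime_one_left q)
    exact Nat.Coprime.coprime_mul_left this
  have n1 : ¬ p ∣ q' * k := by
    intro h
    have : p ∣ 1 := by
      have h2 : Nat.Coprime p (q' * k) := (Nat.Coprime.mul_left hq'p hkp).symm
      rw [← h2.gcd_eq_one]; exact Nat.dvd_gcd dvd_rfl h
    have := Nat.dvd_one.1 this; omega
  have n2 : ¬ q ∣ p' * k := by
    intro h
    have : q ∣ 1 := by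
      have h2 : Nat.Coprime q (p' * k) := (Nat.Coprime.mul_left hp'q hkq).symm
      rw [← h2.gcd_eq_one]; exact Nat.dvd_gcd dvd_rfl h
    have := Nat.dvd_one.1 this; omega
  have n3 : ¬ p * q ∣ k := by
    intro h
    have : p * q ∣ 1 := by
      rw [← hk.symm.gcd_eq_one]; exact Nat.dvd_gcd dvd_rfl h
    have := Nat.dvd_one.1 this
    nlinarith
  obtain ⟨b, hb⟩ : ∃ b, b = q' * k % p := ⟨_, rfl⟩
  obtain ⟨a, ha⟩ : ∃ a, a = p' * k % q := ⟨_, rfl⟩
  have hb0 : 0 < b := by
    rw [hb]; exact Nat.pos_of_ne_zero fun h => n1 (Nat.dvd_of_mod_eq_zero h)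
  have ha0 : 0 < a := by
    rw [ha]; exact Nat.pos_of_ne_zero fun h => n2 (Nat.dvd_of_mod_eq_zero h)
  have hbp : b < p := by rw [hb]; exact Nat.mod_lt _ (by omega)
  have haq : a < q := by rw [ha]; exact Nat.mod_lt _ (by omega)
  have hbm : b ≡ q' * k [MOD p] := by rw [hb]; exact Nat.mod_modEq _ _
  have ham : a ≡ p' * k [MOD q] := by rw [ha]; exact Nat.mod_modEq _ _
  have hmod : b * q + a * p ≡ k [MOD p * q] := by
    rw [← Nat.modEq_and_modEq_iff_modEq_mul hc]
    constructor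
    · have e1 : a * p ≡ 0 [MOD p] := (Nat.modEq_zero_iff_dvd).2 (Dvd.intro_left a rfl)
      have e2 : b * q ≡ k [MOD p] := by
        have := hbm.mul_right q
        refine this.trans ?_
        have h3 := hq'.mul_right k
        rw [one_mul] at h3
        have e : q' * k * q = q * q' * k := by ring
        rw [e]; exact h3
      simpa using e2.add e1
    · have e1 : b * q ≡ 0 [MOD q] := (Nat.modEq_zero_iff_dvd).2 (Dvd.intro_left b rfl)
      have e2 : a * p ≡ k [MOD q] := by
        have := ham.mul_right p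
        refine this.trans ?_
        have h3 := hp'.mul_right k
        rw [one_mul] at h3
        have e : p' * k * p = p * p' * k := by ring
        rw [e]; exact h3
      simpa using e1.add e2
  rw [J_at hc ha0 haq hb0 hbp hmod, sw_eq (by positivity) n3, sw_eq (by omega) n1,
    sw_eq (by omega) n2, ← hb, ← ha]
  have hpC : (p : ℂ) ≠ 0 := by exact_mod_cast (by omega : p ≠ 0)
  have hqC : (q : ℂ) ≠ 0 := by exact_mod_cast (by omega : q ≠ 0)
  have hne : b * q + a * p ≠ p * q := by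
    intro h
    have h1 : k ≡ 0 [MOD p * q] := by
      refine hmod.symm.trans ?_
      rw [h]; exact (Nat.modEq_zero_iff_dvd).2 dvd_rfl
    exact n3 ((Nat.modEq_zero_iff_dvd).1 h1)
  have hlt2 : b * q + a * p < 2 * (p * q) := by nlinarith
  by_cases hlt : b * q + a * p < p * q
  · rw [if_pos hlt]
    have e : k % (p * q) = b * q + a * p := by
      rw [← Nat.mod_eq_of_lt hlt]
      exact hmod.symm
    rw [e]; push_cast; field_simp; ring
  · rw [if_neg hlt]
    have e : k % (p * q) = b * q + a * p - p * q := by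
      have h1 : b * q + a * p - p * q ≡ k [MOD p * q] := by
        have h2 : p * q ≤ b * q + a * p := by omega
        have h3 : b * q + a * p - p * q + p * q ≡ k [MOD p * q] := by
          rw [Nat.sub_add_cancel h2]; exact hmod
        simpa [Nat.ModEq] using h3
      have h2 : b * q + a * p - p * q < p * q := by omega
      rw [← Nat.mod_eq_of_lt h2]
      exact h1.symm
    rw [e]
    push_cast [show p * q ≤ b * q + a * p by omega]
    field_simp; ring

/-- twisted sums -/
noncomputable def As {f : ℕ} (L : ℕ) [NeZero L] (χ : DC f) (g : ℕ → ℂ) : ℂ :=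
  ∑ v : (ZMod L)ˣ, χ ((vl v : ℕ) : ZMod f) * g (vl v)

lemma As_shift {f L N : ℕ} [NeZero L] (χ : DC f) (hf : f ∣ L) (hN : N ∣ L) {g : ℕ → ℂ}
    (hg : ∀ h h' : ℕ, h ≡ h' [MOD N] → g h = g h') (w : (ZMod L)ˣ) :
    As L χ g = χ ((vl w : ℕ) : ZMod f) *
      ∑ v : (ZMod L)ˣ, χ ((vl v : ℕ) : ZMod f) * g (vl w * vl v) := by
  unfold As
  rw [← Equiv.sum_comp (Equiv.mulLeft w), mul_sum]
  refine sum_congr rfl fun v _ => ?_
  have h1 := vl_mul w v
  simp only [Equiv.coe_mulLeft]
  rw [natcast_congr (h1.of_dvd hf), hg _ _ (h1.of_dvd hN)]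
  push_cast
  rw [map_mul]; ring

lemma As_kill {f L N : ℕ} [NeZero L] (χ : DC f) (hχ : Prim χ) (hf : f ∣ L) (hN : N ∣ L)
    (hfN : ¬ f ∣ N) {g : ℕ → ℂ} (hg : ∀ h h' : ℕ, h ≡ h' [MOD N] → g h = g h') :
    As L χ g = 0 := by
  have hL : 0 < L := NeZero.pos L
  have hf0 : 0 < f := Nat.pos_of_dvd_of_pos hf hL
  have hN0 : 0 < N := Nat.pos_of_dvd_of_pos hN hL
  obtain ⟨p, k, hp, h1, h2⟩ : ∃ p k, p.Prime ∧ p ^ k ∣ f ∧ ¬ p ^ k ∣ N := by
    by_contra hcon
    push Not at hcon
    exact hfN ((Nat.dvd_iff_prime_pow_dvd_dvd N f).2 fun p k hp h => hcon p k hp h)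
  obtain ⟨hpf, hgd⟩ := gcd_dvd_div hp h1 h2
  obtain ⟨u, hu1, hu2, hu3⟩ := hχ p hp hpf
  obtain ⟨w, hw1, hw2⟩ := lift_two hf hN hu1 (hu2.of_dvd hgd)
  have h3 := As_shift χ hf hN hg w
  have h4 : ∑ v : (ZMod L)ˣ, χ ((vl v : ℕ) : ZMod f) * g (vl w * vl v) = As L χ g := by
    unfold As
    refine sum_congr rfl fun v _ => ?_
    rw [hg _ (vl v) (by simpa using hw2.mul_right (vl v))]
  rw [h4, natcast_congr hw1] at h3
  have h5 : (1 - χ ((u : ℕ) : ZMod f)) * As L χ g = 0 := by
    rw [sub_mul, ← h3]; ring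
  rcases mul_eq_zero.1 h5 with h6 | h6
  · exact absurd (sub_eq_zero.1 h6).symm hu3
  · exact h6

lemma As_self {f L : ℕ} [NeZero L] (χ : DC f) (hf : f ∣ L) {g : ℕ → ℂ}
    (hg : ∀ h h' : ℕ, h ≡ h' [MOD f] → g h = g h') {c : ℕ} (hc : c.Coprime f) :
    χ ((c : ℕ) : ZMod f) * As L χ (fun k => g (c * k)) = As L χ g := by
  obtain ⟨w, hw⟩ := lift_unit hf hc
  rw [As_shift χ hf hf hg w, natcast_congr hw]
  congr 1
  unfold As
  refine sum_congr rfl fun v _ => ?_
  show χ _ * g (c * vl v) = _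
  rw [hg (c * vl v) (vl w * vl v) (hw.symm.mul_right _)]

lemma SS_one_ne {f : ℕ} [NeZero f] (χ : DC f) (hχ : Prim χ) (hodd : χ (-1) = -1) :
    OC.SS χ 1 ≠ 0 := by
  obtain ⟨a, ha⟩ := OC.exists_SS_ne_zero χ hodd
  intro h1
  apply ha
  by_cases hu : IsUnit a
  · obtain ⟨u, rfl⟩ := hu
    have h2 : χ (u : ZMod f) * OC.SS χ (u : ZMod f) = OC.SS χ 1 := by
      unfold OC.SS
      conv_rhs => rw [← Equiv.sum_comp (Equiv.mulRight u)]
      rw [mul_sum]
      refine sum_congr rfl fun t _ => ?_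
      simp only [Equiv.coe_mulRight, Units.val_mul, map_mul, mul_one]
      ring
    rw [h1] at h2
    exact (mul_eq_zero.1 h2).resolve_left (fun h => by
      have : IsUnit (χ (u : ZMod f)) := (Units.isUnit u).map χ
      exact this.ne_zero h)
  · have hf0 : 0 < f := NeZero.pos f
    have hnc : ¬ (a.val).Coprime f := by
      intro h
      apply hu
      rw [← ZMod.natCast_zmod_val a]
      exact (ZMod.isUnit_iff_coprime _ _).2 h
    obtain ⟨l, hl, hla, hlf⟩ := Nat.Prime.not_coprime_iff_dvd.1 hnc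
    obtain ⟨u, hu1, hu2, hu3⟩ := hχ l hl hlf
    have hua : ((u : ℕ) : ZMod f) * a = a := by
      obtain ⟨a', ha'⟩ := hla
      obtain ⟨f', hf'⟩ := hlf
      have e1 : f / l = f' := by rw [hf', Nat.mul_div_cancel_left _ hl.pos]
      rw [e1] at hu2
      have h3 : u * a.val ≡ 1 * a.val [MOD f] := by
        rw [ha', hf']
        have := Nat.ModEq.mul_left' l (hu2.mul_right a')
        have e2 : u * (l * a') = l * (u * a') := by ring
        have e3 : 1 * (l * a') = l * (1 * a') := by ring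
        rw [e2, e3]; exact this
      have h4 := natcast_congr h3
      push_cast at h4
      rw [ZMod.natCast_zmod_val, one_mul] at h4
      exact h4
    set U : (ZMod f)ˣ := ZMod.unitOfCoprime u hu1 with hU
    have hUu : (U : ZMod f) = (u : ZMod f) := by simp [hU]
    have h2 : OC.SS χ a = χ (u : ZMod f) * OC.SS χ a := by
      conv_lhs => unfold OC.SS
      rw [← Equiv.sum_comp (Equiv.mulRight U), OC.SS, mul_sum]
      refine sum_congr rfl fun t _ => ?_
      simp only [Equiv.coe_mulRight, Units.val_mul, map_mul]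
      rw [hUu, mul_assoc (t : ZMod f), hua]; ring
    have h3 : (1 - χ (u : ZMod f)) * OC.SS χ a = 0 := by
      rw [sub_mul, ← h2]; ring
    rcases mul_eq_zero.1 h3 with h4 | h4
    · exact absurd (sub_eq_zero.1 h4).symm hu3
    · exact h4

lemma As_sw_ne {f L : ℕ} [NeZero L] (χ : DC f) (hf : f ∣ L) (hχ : Prim χ)
    (hodd : χ (-1) = -1) : As L χ (sw f) ≠ 0 := by
  have hL : 0 < L := NeZero.pos L
  have hf0 : 0 < f := Nat.pos_of_dvd_of_pos hf hL
  have : NeZero f := ⟨hf0.ne'⟩
  have hne := SS_one_ne χ hχ hodd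
  set F : (ZMod f)ˣ → ℂ := fun u => χ (u : ZMod f) * ((OC.saw (u : ZMod f) : ℂ) / f) with hF
  have hFne : ∑ u, F u ≠ 0 := by
    have e : ∑ u, F u = OC.SS χ 1 / f := by
      unfold OC.SS
      rw [sum_div]
      refine sum_congr rfl fun u _ => ?_
      simp only [hF, mul_one]; ring
    rw [e]
    exact div_ne_zero hne (by exact_mod_cast hf0.ne')
  have h1 : As L χ (sw f) = ∑ v : (ZMod L)ˣ, F (ZMod.unitsMap hf v) := by
    unfold As
    refine sum_congr rfl fun v _ => ?_
    have h2 : (((ZMod.unitsMap hf v : (ZMod f)ˣ) : ZMod f)) = ((vl v : ℕ) : ZMod f) := by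
      rw [ZMod.unitsMap_val]; unfold vl; rw [ZMod.natCast_val]
    simp only [hF, sw]
    rw [h2]
  have hsurj := ZMod.unitsMap_surjective hf
  have h3 : ∑ v : (ZMod L)ˣ, F (ZMod.unitsMap hf v) =
      ((univ.filter fun v : (ZMod L)ˣ => ZMod.unitsMap hf v = 1).card : ℂ) * ∑ u, F u := by
    rw [← Finset.sum_fiberwise (s := univ) (g := fun v : (ZMod L)ˣ => ZMod.unitsMap hf v)
      (f := fun v => F (ZMod.unitsMap hf v)), mul_sum]
    refine sum_congr rfl fun u _ => ?_
    have h4 : ∀ v ∈ univ.filter (fun v : (ZMod L)ˣ => ZMod.unitsMap hf v = u),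
        F (ZMod.unitsMap hf v) = F u := by
      intro v hv
      rw [(mem_filter.1 hv).2]
    rw [sum_congr rfl h4, sum_const, nsmul_eq_mul]
    congr 2
    obtain ⟨w, hw⟩ := hsurj u
    apply Finset.card_bij (fun v _ => w⁻¹ * v)
    · intro v hv
      rw [mem_filter] at hv ⊢
      refine ⟨mem_univ _, ?_⟩
      rw [map_mul, map_inv, hw, hv.2, inv_mul_cancel]
    · intro a _ b _ hab
      exact mul_left_cancel hab
    · intro b hb
      rw [mem_filter] at hb
      refine ⟨w * b, ?_, by group⟩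
      rw [mem_filter]
      exact ⟨mem_univ _, by rw [map_mul, hw, hb.2, mul_one]⟩
  rw [h1, h3]
  apply mul_ne_zero
  · rw [Nat.cast_ne_zero]
    apply Finset.card_ne_zero_of_mem (a := 1)
    rw [mem_filter]
    exact ⟨mem_univ _, map_one _⟩
  · exact hFne

end Pool.Agent.H80.Sig
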