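import Pool.Agent.H80.Sig.Cot
set_option autoImplicit false

/-!
# Fourier coefficients of the jump functions of iterated torus knots
-/

namespace Pool.Agent.H80.Sig

open Finset

/-- a level of the jump function -/
def lev : List (ℕ × ℕ) → ℕ
  | [] => 1
  | (p, q) :: L => p * q * lev L

/-- all parameters are at least `2`, and the parameters of each cabling are coprime -/
def Valid (L : List (ℕ × ℕ)) : Prop := ∀ c ∈ L, Nat.Coprime c.1 c.2 ∧ 2 ≤ c.1 ∧ 2 ≤ c.2

lemma Valid.tail {c : ℕ × ℕ} {L : List (ℕ × ℕ)} (h : Valid (c :: L)) : Valid L :=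
  fun d hd => h d (by simp [hd])

lemma Valid.head {c : ℕ × ℕ} {L : List (ℕ × ℕ)} (h : Valid (c :: L)) :
    Nat.Coprime c.1 c.2 ∧ 2 ≤ c.1 ∧ 2 ≤ c.2 := h c (by simp)

lemma lev_pos {L : List (ℕ × ℕ)} (h : Valid L) : 0 < lev L := by
  induction L with
  | nil => exact one_pos
  | cons c L ih =>
    obtain ⟨p, q⟩ := c
    have h1 := h.head
    simp only at h1
    have h2 := ih h.tail
    have h3 : 0 < p := by omega
    have h4 : 0 < q := by omega
    unfold lev
    positivity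

/-- the real number `cot (π u / N)`, where `N` is the product of the last cabling parameters -/
noncomputable def kap : List (ℕ × ℕ) → ℕ → ℝ
  | [], _ => 0
  | (p, q) :: _, u => ct (p * q) u

lemma Ft_JK_cons {p q M : ℕ} {L : List (ℕ × ℕ)} (hp : 0 < p) (hq : 0 < q) (hM : 0 < M)
    (hd : lev ((p, q) :: L) ∣ M) (h : ℕ) :
    Ft M (JK ((p, q) :: L)) h =
      G p q h + if p ∣ h then (p : ℂ) * Ft (M / p) (JK L) (h / p) else 0 := by
  unfold lev at hd
  have hpq : p * q ∣ M := (Dvd.intro _ rfl).trans hd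
  have hpM : p ∣ M := (Dvd.intro _ rfl).trans hpq
  have h1 : Ft M (JK ((p, q) :: L)) h = Ft M (J p q) h + Ft M (fun x => JK L (p * x)) h := by
    unfold Ft
    rw [← sum_add_distrib]
    refine sum_congr rfl fun k _ => ?_
    simp only [JK]
    push_cast; ring
  rw [h1, Ft_J hp hq hM hpq]
  congr 1
  obtain ⟨m, rfl⟩ := hpM
  have hm : 0 < m := Nat.pos_of_mul_pos_left hM
  rw [Nat.mul_div_cancel_left _ hp, mul_comm p m]
  exact Ft_comp (fun x k => JK_add_int L x k) hp hm h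

lemma Ft_JK_unit {M u : ℕ} {L : List (ℕ × ℕ)} (hL : Valid L) (hM : 0 < M) (hd : lev L ∣ M)
    (hu : u.Coprime M) : Ft M (JK L) u = Complex.I * (kap L u : ℂ) := by
  rcases L with _ | ⟨⟨p, q⟩, L⟩
  · unfold Ft
    simp [JK, kap]
  · have h1 := hL.head
    simp only at h1
    rw [Ft_JK_cons (by omega) (by omega) hM hd]
    unfold lev at hd
    have hpq : p * q ∣ M := (Dvd.intro _ rfl).trans hd
    have hpM : p ∣ M := (Dvd.intro _ rfl).trans hpq
    rw [if_neg, add_zero, G_eq_K h1.1 h1.2.1 h1.2.2 (Nat.Coprime.coprime_dvd_right hpq hu), K_eq_ct]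
    · rfl
    · intro h2
      have h3 : p ∣ Nat.gcd u M := Nat.dvd_gcd h2 hpM
      rw [hu] at h3
      have := Nat.dvd_one.1 h3
      omega

lemma kap_le {L : List (ℕ × ℕ)} (hL : Valid L) {M u : ℕ} (hd : lev L ∣ M) (hu : u.Coprime M) :
    kap L u ≤ kap L 1 := by
  rcases L with _ | ⟨⟨p, q⟩, L⟩
  · simp [kap]
  · have h1 := hL.head
    simp only at h1
    unfold lev at hd
    have hpq : p * q ∣ M := (Dvd.intro _ rfl).trans hd
    refine ct_le_one ?_ (Nat.Coprime.coprime_dvd_right hpq hu)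
    have : 2 * 2 ≤ p * q := Nat.mul_le_mul h1.2.1 h1.2.2
    omega

lemma kap_pos {L : List (ℕ × ℕ)} (hL : Valid L) (hne : L ≠ []) : 0 < kap L 1 := by
  rcases L with _ | ⟨⟨p, q⟩, L⟩
  · exact absurd rfl hne
  · have h1 := hL.head
    simp only at h1
    have := (not_primePow h1.1 h1.2.1 h1.2.2).1
    exact ct_pos one_pos (by omega)

/-- a linear relation between jump functions -/
def JRel {ι : Type} (S : Finset ι) (a : ι → ℝ) (K : ι → List (ℕ × ℕ)) : Prop :=
  ∀ x : ℝ, ∑ i ∈ S, a i * (JK (K i) x : ℝ) = 0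

lemma JRel.ft {ι : Type} {S : Finset ι} {a : ι → ℝ} {K : ι → List (ℕ × ℕ)} (hR : JRel S a K)
    (M h : ℕ) : ∑ i ∈ S, (a i : ℂ) * Ft M (JK (K i)) h = 0 := by
  unfold Ft
  simp_rw [mul_sum]
  rw [sum_comm]
  apply sum_eq_zero
  intro k _
  have h1 := hR ((k : ℝ) / M)
  have h2 : ∑ i ∈ S, (a i : ℂ) * ((JK (K i) ((k : ℝ) / M) : ℤ) : ℂ) = 0 := by
    have h3 : ((∑ i ∈ S, a i * (JK (K i) ((k : ℝ) / M) : ℝ) : ℝ) : ℂ) = 0 := by
      rw [h1]; simp
    push_cast at h3
    exact h3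
  have h4 : ∀ i ∈ S, (a i : ℂ) * (((JK (K i) ((k : ℝ) / M) : ℤ) : ℂ) * ee ((h : ℝ) * (k / M))) =
      ((a i : ℂ) * ((JK (K i) ((k : ℝ) / M) : ℤ) : ℂ)) * ee ((h : ℝ) * (k / M)) := by
    intro i _; ring
  rw [sum_congr rfl h4, ← sum_mul, h2, zero_mul]

lemma G_ct {p q h : ℕ} (hc : Nat.Coprime p q) (hp : 0 < p) (hq : 0 < q) (hqh : ¬ q ∣ h) :
    G p q h = Complex.I * ((ct (p * q) h - if p ∣ h then (p : ℝ) * ct q h else 0 : ℝ) : ℂ) := by
  rw [G_formula hc hp hq hqh]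
  have h1 := K_eq_ct (p * q) h
  have h2 := K_eq_ct q h
  unfold K at h1 h2
  push_cast at h1
  rw [h1, h2]
  by_cases h3 : p ∣ h
  · rw [if_pos h3, if_pos h3]; push_cast; ring
  · rw [if_neg h3, if_neg h3]; push_cast; ring

/-- The Fourier coefficient at `d u` of the jump function of a knot with last parameters `p, q`,
`p q = d f`, such that `p` or `q` divides `d` only if it is equal to `d`. -/
lemma Ft_du {p q d f M u : ℕ} {L : List (ℕ × ℕ)} (hL : Valid ((p, q) :: L)) (hM : 0 < M)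
    (hdM : lev ((p, q) :: L) ∣ M) (hd : 2 ≤ d) (hN : p * q = d * f)
    (hP : p ∣ d → p = d) (hQ : q ∣ d → q = d) (hu : u.Coprime M) :
    Ft M (JK ((p, q) :: L)) (d * u) = Complex.I * ((ct (p * q) (d * u) -
      (if p = d ∨ q = d then (d : ℝ) * ct f (d * u) else 0) +
      (if p = d then (d : ℝ) * kap L u else 0) : ℝ) : ℂ) := by
  have h1 := hL.head
  simp only at h1
  obtain ⟨hc, hp, hq⟩ := h1
  have hd0 : 0 < d := by omega
  have hpqM : p * q ∣ M := by
    unfold lev at hdM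
    exact (Dvd.intro _ rfl).trans hdM
  have hpM : p ∣ M := (Dvd.intro _ rfl).trans hpqM
  have hqM : q ∣ M := (Dvd.intro_left _ rfl).trans hpqM
  have cp : u.Coprime p := Nat.Coprime.coprime_dvd_right hpM hu
  have cq : u.Coprime q := Nat.Coprime.coprime_dvd_right hqM hu
  have ep : p ∣ d * u ↔ p ∣ d := ⟨fun h => cp.symm.dvd_of_dvd_mul_right h, fun h => h.mul_right u⟩
  have eq : q ∣ d * u ↔ q ∣ d := ⟨fun h => cq.symm.dvd_of_dvd_mul_right h, fun h => h.mul_right u⟩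
  have hnot : ¬ (p ∣ d ∧ q ∣ d) := by
    rintro ⟨h2, h3⟩
    have h4 := hP h2
    have h5 := hQ h3
    rw [h4, h5, Nat.coprime_self] at hc
    omega
  rw [Ft_JK_cons (by omega) (by omega) hM hdM]
  have hcomp : (if p ∣ d * u then (p : ℂ) * Ft (M / p) (JK L) (d * u / p) else 0) =
      Complex.I * (((if p = d then (d : ℝ) * kap L u else 0) : ℝ) : ℂ) := by
    by_cases h2 : p = d
    · subst h2
      rw [if_pos (Dvd.intro u rfl), if_pos rfl, Nat.mul_div_cancel_left _ hd0]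
      have hM' : 0 < M / p := Nat.div_pos (Nat.le_of_dvd hM hpM) hd0
      have h3 : lev L ∣ M / p := by
        obtain ⟨m, rfl⟩ := hpM
        rw [Nat.mul_div_cancel_left _ hd0]
        unfold lev at hdM
        rw [mul_assoc] at hdM
        exact (Dvd.intro_left q rfl).trans ((Nat.mul_dvd_mul_iff_left hd0).1 hdM)
      have h4 : u.Coprime (M / p) := Nat.Coprime.coprime_dvd_right (Nat.div_dvd_of_dvd hpM) hu
      rw [Ft_JK_unit hL.tail hM' h3 h4]
      push_cast; ring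
    · have h3 : ¬ p ∣ d * u := fun h => h2 (hP (ep.1 h))
      rw [if_neg h3, if_neg h2]; simp
  have hG : G p q (d * u) = Complex.I * ((ct (p * q) (d * u) -
      (if p = d ∨ q = d then (d : ℝ) * ct f (d * u) else 0) : ℝ) : ℂ) := by
    by_cases h2 : p = d
    · have hqf : q = f := by
        rw [h2] at hN
        exact Nat.eq_of_mul_eq_mul_left hd0 hN
      have h3 : ¬ q ∣ d * u := fun h => hnot ⟨h2 ▸ dvd_refl p, eq.1 h⟩
      rw [G_ct hc (by omega) (by omega) h3, if_pos (h2 ▸ Dvd.intro u rfl), if_pos (Or.inl h2),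
        hqf, h2]
    · by_cases h4 : q = d
      · have hpf : p = f := by
          rw [h4, mul_comm] at hN
          exact Nat.eq_of_mul_eq_mul_left hd0 hN
        have h3 : ¬ p ∣ d * u := fun h => hnot ⟨ep.1 h, h4 ▸ dvd_refl q⟩
        rw [G_swap, G_ct hc.symm (by omega) (by omega) h3, if_pos (h4 ▸ Dvd.intro u rfl),
          if_pos (Or.inr h4), hpf, h4, mul_comm f d]
      · have h3 : ¬ p ∣ d * u := fun h => h2 (hP (ep.1 h))
        have h5 : ¬ q ∣ d * u := fun h => h4 (hQ (eq.1 h))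
        rw [G_ct hc (by omega) (by omega) h5, if_neg h3, if_neg (by tauto)]
  rw [hcomp, hG]
  push_cast; ring

/-- the first parameter of the last cabling -/
def hd1 : List (ℕ × ℕ) → ℕ
  | [] => 0
  | (p, _) :: _ => p

/-- the second parameter of the last cabling -/
def hd2 : List (ℕ × ℕ) → ℕ
  | [] => 0
  | (_, q) :: _ => q

lemma list_eq {L : List (ℕ × ℕ)} (h : L ≠ []) : L = (hd1 L, hd2 L) :: L.tail := by
  rcases L with _ | ⟨⟨p, q⟩, L⟩
  · exact absurd rfl h
  · rfl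

/-- The relation at the frequencies `d u`. -/
theorem star {ι : Type} {S : Finset ι} {a : ι → ℝ} {K : ι → List (ℕ × ℕ)} (hR : JRel S a K)
    (hV : ∀ i ∈ S, K i ≠ [] ∧ Valid (K i)) {d f M : ℕ} (hM : 0 < M)
    (hlev : ∀ i ∈ S, lev (K i) ∣ M) (hd : 2 ≤ d) (hN : ∀ i ∈ S, hd1 (K i) * hd2 (K i) = d * f)
    (ha : ∑ i ∈ S, a i = 0) (hP : ∀ i ∈ S, hd1 (K i) ∣ d → hd1 (K i) = d)
    (hQ : ∀ i ∈ S, hd2 (K i) ∣ d → hd2 (K i) = d) {u : ℕ} (hu : u.Coprime M) :
    (∑ i ∈ S with hd1 (K i) = d ∨ hd2 (K i) = d, a i) * ct f (d * u) =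
      ∑ i ∈ S with hd1 (K i) = d, a i * kap (K i).tail u := by
  have h1 := hR.ft M (d * u)
  have h2 : ∀ i ∈ S, (a i : ℂ) * Ft M (JK (K i)) (d * u) =
      Complex.I * ((a i * (ct (d * f) (d * u) -
        (if hd1 (K i) = d ∨ hd2 (K i) = d then (d : ℝ) * ct f (d * u) else 0) +
        (if hd1 (K i) = d then (d : ℝ) * kap (K i).tail u else 0)) : ℝ) : ℂ) := by
    intro i hi
    have h3 := list_eq (hV i hi).1
    have h4 := Ft_du (p := hd1 (K i)) (q := hd2 (K i)) (L := (K i).tail) (f := f)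
      (h3 ▸ (hV i hi).2) hM (h3 ▸ hlev i hi) hd (hN i hi) (hP i hi) (hQ i hi) hu
    rw [← h3, hN i hi] at h4
    rw [h4]
    push_cast; ring
  rw [sum_congr rfl h2, ← mul_sum] at h1
  have h3 := (mul_eq_zero.1 h1).resolve_left Complex.I_ne_zero
  rw [← Complex.ofReal_sum] at h3
  have h4 : ∑ i ∈ S, a i * (ct (d * f) (d * u) -
        (if hd1 (K i) = d ∨ hd2 (K i) = d then (d : ℝ) * ct f (d * u) else 0) +
        (if hd1 (K i) = d then (d : ℝ) * kap (K i).tail u else 0)) = 0 := by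
    exact_mod_cast h3
  have h5 : ∑ i ∈ S, a i * (ct (d * f) (d * u) -
        (if hd1 (K i) = d ∨ hd2 (K i) = d then (d : ℝ) * ct f (d * u) else 0) +
        (if hd1 (K i) = d then (d : ℝ) * kap (K i).tail u else 0)) =
      (∑ i ∈ S, a i) * ct (d * f) (d * u) -
      d * ((∑ i ∈ S with hd1 (K i) = d ∨ hd2 (K i) = d, a i) * ct f (d * u)) +
      d * ∑ i ∈ S with hd1 (K i) = d, a i * kap (K i).tail u := by
    rw [sum_filter, sum_filter, sum_mul, sum_mul, mul_sum, mul_sum, ← sum_sub_distrib,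
      ← sum_add_distrib]
    refine sum_congr rfl fun i _ => ?_
    split_ifs <;> ring
  rw [h5, ha, zero_mul, zero_sub] at h4
  have hd' : (d : ℝ) ≠ 0 := by
    have : d ≠ 0 := by omega
    exact_mod_cast this
  have h6 : (d : ℝ) * (∑ i ∈ S with hd1 (K i) = d, a i * kap (K i).tail u -
    (∑ i ∈ S with hd1 (K i) = d ∨ hd2 (K i) = d, a i) * ct f (d * u)) = 0 := by linarith
  have h7 := (mul_eq_zero.1 h6).resolve_left hd'
  linarith

/-- If all coefficients are nonnegative, there is a contradiction. -/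
lemma ss_pos {ι : Type} {T : Finset ι} {b : ι → ℝ} {L : ι → List (ℕ × ℕ)} {A : ℝ} {d f M : ℕ}
    (hM : 0 < M) (hf : f ∣ M) (hV : ∀ i ∈ T, Valid (L i)) (hlev : ∀ i ∈ T, lev (L i) ∣ M)
    (hA : 0 < A) (hb : ∀ i ∈ T, 0 ≤ b i) (hd : 1 < d) (hdf : d < f) (hc : d.Coprime f)
    (hrel : ∀ u : ℕ, u.Coprime M → A * ct f (d * u) = ∑ i ∈ T, b i * kap (L i) u) : False := by
  have : NeZero M := ⟨hM.ne'⟩
  obtain ⟨e, he⟩ := exists_inv (by omega) hc
  have hecop : e.Coprime f :=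
    Nat.Coprime.coprime_dvd_left (Dvd.intro_left d rfl) (cop_of_modEq he (Nat.coprime_one_left f))
  obtain ⟨w, hw⟩ := lift_unit hf hecop
  have r1 := hrel (vl w) (vl_coprime w)
  have r0 := hrel 1 (Nat.coprime_one_left M)
  rw [mul_one] at r0
  have e1 : ct f (d * vl w) = ct f 1 := ct_congr (by omega) ((hw.mul_left d).trans he)
  have e2 : ∑ i ∈ T, b i * kap (L i) (vl w) ≤ ∑ i ∈ T, b i * kap (L i) 1 :=
    sum_le_sum fun i hi => mul_le_mul_of_nonneg_left
      (kap_le (hV i hi) (hlev i hi) (vl_coprime w)) (hb i hi)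
  have e3 : A * ct f d < A * ct f 1 := mul_lt_mul_of_pos_left (ct_lt one_pos hd hdf) hA
  rw [e1] at r1
  linarith

/-- If all coefficients are nonpositive, there is a contradiction. -/
lemma ss_neg {ι : Type} {T : Finset ι} {b : ι → ℝ} {L : ι → List (ℕ × ℕ)} {A : ℝ} {d f M : ℕ}
    (hM : 0 < M) (hf : f ∣ M) (hV : ∀ i ∈ T, Valid (L i)) (hlev : ∀ i ∈ T, lev (L i) ∣ M)
    (hA : 0 < A) (hb : ∀ i ∈ T, b i ≤ 0) (hd : 1 < d) (hdf : d + 1 < f) (hc : d.Coprime f)
    (hrel : ∀ u : ℕ, u.Coprime M → A * ct f (d * u) = ∑ i ∈ T, b i * kap (L i) u) : False := by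
  have : NeZero M := ⟨hM.ne'⟩
  obtain ⟨e, he⟩ := exists_inv (by omega) hc
  have hecop : e.Coprime f :=
    Nat.Coprime.coprime_dvd_left (Dvd.intro_left d rfl) (cop_of_modEq he (Nat.coprime_one_left f))
  have hf1 : (f - 1).Coprime f := coprime_pred (by omega)
  obtain ⟨w, hw⟩ := lift_unit hf (Nat.Coprime.mul_left hf1 hecop)
  have r1 := hrel (vl w) (vl_coprime w)
  have r0 := hrel 1 (Nat.coprime_one_left M)
  rw [mul_one] at r0
  have e1 : ct f (d * vl w) = ct f (f - 1) := by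
    apply ct_congr (by omega)
    calc d * vl w ≡ d * ((f - 1) * e) [MOD f] := hw.mul_left d
      _ = (f - 1) * (d * e) := by ring
      _ ≡ (f - 1) * 1 [MOD f] := he.mul_left _
      _ = f - 1 := mul_one _
  have e2 : ∑ i ∈ T, b i * kap (L i) 1 ≤ ∑ i ∈ T, b i * kap (L i) (vl w) :=
    sum_le_sum fun i hi => mul_le_mul_of_nonpos_left
      (kap_le (hV i hi) (hlev i hi) (vl_coprime w)) (hb i hi)
  have e3 : A * ct f (f - 1) < A * ct f d :=
    mul_lt_mul_of_pos_left (ct_lt (by omega) (by omega) (by omega)) hA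
  rw [e1] at r1
  linarith

end Pool.Agent.H80.Sig
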