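import Pool.Agent.H80.Sig.Same
set_option autoImplicit false

/-!
# At most three iterated torus knots
-/

namespace Pool.Agent.H80.Sig

open Finset

/-- The induction hypothesis: there is no relation with nonzero coefficients between at most three
different knots of total length at most `n`. -/
def Hyp (ι : Type) (n : ℕ) : Prop := ∀ (S : Finset ι) (K : ι → List (ℕ × ℕ)) (a : ι → ℝ),
  ∑ i ∈ S, (K i).length ≤ n → S.card ≤ 3 → (∀ i ∈ S, K i ≠ [] ∧ Valid (K i)) →
  (∀ i ∈ S, ∀ j ∈ S, i ≠ j → ¬ Same (K i) (K j)) → (∀ i ∈ S, a i ≠ 0) → JRel S a K → S = ∅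

/-- the case of equal last parameters -/
lemma all_same {ι : Type} {n : ℕ} (IH : Hyp ι n) {S : Finset ι} {K : ι → List (ℕ × ℕ)} {a : ι → ℝ}
    (hlen : ∑ i ∈ S, (K i).length ≤ n + 1) (hcard : S.card ≤ 3)
    (hV : ∀ i ∈ S, K i ≠ [] ∧ Valid (K i))
    (hne : ∀ i ∈ S, ∀ j ∈ S, i ≠ j → ¬ Same (K i) (K j)) (ha : ∀ i ∈ S, a i ≠ 0)
    (hR : JRel S a K) (hS : S.Nonempty) (hsum : ∑ i ∈ S, a i = 0) {p q : ℕ}
    (hK : ∀ i ∈ S, K i = (p, q) :: (K i).tail) : False := by
  classical
  have hp : 0 < p := by
    obtain ⟨i, hi⟩ := hS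
    have h1 := (hV i hi).2
    rw [hK i hi] at h1
    have := h1.head
    simp only at this
    omega
  have hp' : (p : ℝ) ≠ 0 := by exact_mod_cast hp.ne'
  set S' := S.filter (fun i => (K i).tail ≠ []) with hS'
  have hsub : S' ⊆ S := filter_subset _ _
  have hVt : ∀ i ∈ S, Valid (K i).tail := by
    intro i hi
    have h1 := (hV i hi).2
    rw [hK i hi] at h1
    exact h1.tail
  have hempty : S' = ∅ := by
    apply IH S' (fun i => (K i).tail) a
    · have h1 : ∑ i ∈ S', (K i).tail.length ≤ ∑ i ∈ S, (K i).tail.length :=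
        sum_le_sum_of_subset hsub
      have h2 : ∑ i ∈ S, (K i).length = ∑ i ∈ S, ((K i).tail.length + 1) := by
        refine sum_congr rfl fun i hi => ?_
        conv_lhs => rw [hK i hi]
        simp
      rw [sum_add_distrib] at h2
      have h3 : ∑ i ∈ S, 1 = S.card := by simp
      have h4 := hS.card_pos
      omega
    · exact (card_le_card hsub).trans hcard
    · intro i hi
      exact ⟨(mem_filter.1 hi).2, hVt i (hsub hi)⟩
    · intro i hi j hj hij hsame
      apply hne i (hsub hi) j (hsub hj) hij
      rw [hK i (hsub hi), hK j (hsub hj)]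
      exact hsame.cons (p, q)
    · exact fun i hi => ha i (hsub hi)
    · intro y
      have h1 := hR (y / p)
      have h2 : ∑ i ∈ S, a i * (JK (K i) (y / p) : ℝ) =
          (∑ i ∈ S, a i) * (J p q (y / p) : ℝ) + ∑ i ∈ S, a i * (JK (K i).tail y : ℝ) := by
        rw [sum_mul, ← sum_add_distrib]
        refine sum_congr rfl fun i hi => ?_
        conv_lhs => rw [hK i hi]
        simp only [JK]
        rw [mul_div_cancel₀ _ hp']
        push_cast; ring
      rw [h2, hsum, zero_mul, zero_add] at h1
      have h5 : ∑ i ∈ S', a i * (JK (K i).tail y : ℝ) = ∑ i ∈ S, a i * (JK (K i).tail y : ℝ) := by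
        rw [hS', sum_filter]
        refine sum_congr rfl fun i _ => ?_
        split_ifs with h3
        · rfl
        · rw [not_not.1 h3]; simp [JK]
      rw [h5]; exact h1
  have htail : ∀ i ∈ S, (K i).tail = [] := by
    intro i hi
    by_contra h
    have : i ∈ S' := mem_filter.2 ⟨hi, h⟩
    rw [hempty] at this
    simp at this
  have h2 := two_le_card hS ha hsum
  obtain ⟨i, hi, j, hj, hij⟩ := Finset.one_lt_card.1 (by omega : 1 < S.card)
  apply hne i hi j hj hij
  left
  rw [hK i hi, hK j hj, htail i hi, htail j hj]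

/-- the case in which one knot is a torus knot with the parameters in the other order -/
lemma swap_case {ι : Type} {n : ℕ} (IH : Hyp ι n) {S : Finset ι} {K : ι → List (ℕ × ℕ)}
    {a : ι → ℝ} (hlen : ∑ i ∈ S, (K i).length ≤ n + 1) (hcard : S.card ≤ 3)
    (hV : ∀ i ∈ S, K i ≠ [] ∧ Valid (K i))
    (hne : ∀ i ∈ S, ∀ j ∈ S, i ≠ j → ¬ Same (K i) (K j)) (ha : ∀ i ∈ S, a i ≠ 0)
    (hR : JRel S a K) (hS : S.Nonempty) (hsum : ∑ i ∈ S, a i = 0) {x y : ℕ}
    (hxy : ∀ i ∈ S, (hd1 (K i) = x ∧ hd2 (K i) = y) ∨ (hd1 (K i) = y ∧ hd2 (K i) = x))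
    (hstar : ∑ i ∈ S with hd1 (K i) = x, a i * kap (K i).tail 1 = 0)
    (hone : (S.filter fun i => hd1 (K i) = x).card = 1) : False := by
  classical
  obtain ⟨i₁, hi₁⟩ := Finset.card_eq_one.1 hone
  have hmem : i₁ ∈ S.filter fun i => hd1 (K i) = x := by rw [hi₁]; simp
  obtain ⟨hi₁S, hx₁⟩ := mem_filter.1 hmem
  rw [hi₁, sum_singleton] at hstar
  have hVt : Valid (K i₁).tail := by
    have h1 := (hV i₁ hi₁S).2
    rw [list_eq (hV i₁ hi₁S).1] at h1
    exact h1.tail
  have htail : (K i₁).tail = [] := by
    by_contra h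
    rcases mul_eq_zero.1 hstar with h1 | h1
    · exact ha i₁ hi₁S h1
    · have := kap_pos hVt h
      linarith
  have hcx : Nat.Coprime (hd1 (K i₁)) (hd2 (K i₁)) ∧ 2 ≤ hd1 (K i₁) ∧ 2 ≤ hd2 (K i₁) := by
    have h1 := (hV i₁ hi₁S).2
    rw [list_eq (hV i₁ hi₁S).1] at h1
    exact h1.head
  have hxney : x ≠ y := by
    rintro rfl
    rcases hxy i₁ hi₁S with ⟨h1, h2⟩ | ⟨h1, h2⟩ <;>
    · rw [h1, h2, Nat.coprime_self] at hcx
      omega
  have hy₁ : hd2 (K i₁) = y := by
    rcases hxy i₁ hi₁S with ⟨h1, h2⟩ | ⟨h1, h2⟩
    · exact h2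
    · exact absurd (hx₁.symm.trans h1) hxney
  have hK₁ : K i₁ = [(x, y)] := by
    rw [list_eq (hV i₁ hi₁S).1, htail, hx₁, hy₁]
  rw [hx₁, hy₁] at hcx
  set K' := Function.update K i₁ [(y, x)] with hK'
  have hK'₁ : K' i₁ = [(y, x)] := by rw [hK']; simp
  have hK'ne : ∀ i, i ≠ i₁ → K' i = K i := by
    intro i hi; rw [hK']; simp [hi]
  refine all_same (p := y) (q := x) IH (S := S) (K := K') (a := a) ?_ hcard ?_ ?_ ha ?_ hS hsum ?_
  · have : ∑ i ∈ S, (K' i).length = ∑ i ∈ S, (K i).length := by
      refine sum_congr rfl fun i _ => ?_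
      by_cases h : i = i₁
      · rw [h, hK'₁, hK₁]; rfl
      · rw [hK'ne i h]
    rw [this]; exact hlen
  · intro i hi
    by_cases h : i = i₁
    · rw [h, hK'₁]
      refine ⟨by simp, ?_⟩
      intro c hc
      simp only [List.mem_singleton] at hc
      rw [hc]
      exact ⟨hcx.1.symm, hcx.2.2, hcx.2.1⟩
    · rw [hK'ne i h]; exact hV i hi
  · intro i hi j hj hij
    by_cases h : i = i₁
    · subst h
      rw [hK'₁, hK'ne j (Ne.symm hij)]
      intro hs
      apply hne i hi j hj hij
      rw [hK₁]
      exact hs.single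
    · by_cases h' : j = i₁
      · subst h'
        rw [hK'₁, hK'ne i h]
        intro hs
        apply hne j hj i hi (Ne.symm hij)
        rw [hK₁]
        exact hs.symm.single
      · rw [hK'ne i h, hK'ne j h']
        exact hne i hi j hj hij
  · intro z
    rw [← hR z]
    refine sum_congr rfl fun i _ => ?_
    by_cases h : i = i₁
    · rw [h, hK'₁, hK₁, JK_single_swap]
    · rw [hK'ne i h]
  · intro i hi
    by_cases h : i = i₁
    · rw [h, hK'₁]; rfl
    · rw [hK'ne i h]
      have h1 : hd1 (K i) ≠ x := by
        intro h2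
        have h3 : i ∈ S.filter fun i => hd1 (K i) = x := mem_filter.2 ⟨hi, h2⟩
        rw [hi₁, mem_singleton] at h3
        exact h h3
      rcases hxy i hi with ⟨h2, h3⟩ | ⟨h2, h3⟩
      · exact absurd h2 h1
      · conv_lhs => rw [list_eq (hV i hi).1, h2, h3]

lemma lastProd_eq {L : List (ℕ × ℕ)} (h : L ≠ []) : lastProd L = hd1 L * hd2 L := by
  rcases L with _ | ⟨⟨p, q⟩, L⟩
  · exact absurd rfl h
  · rfl

lemma head_prop {L : List (ℕ × ℕ)} (h : L ≠ []) (hV : Valid L) :
    Nat.Coprime (hd1 L) (hd2 L) ∧ 2 ≤ hd1 L ∧ 2 ≤ hd2 L := by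
  rw [list_eq h] at hV
  exact hV.head

lemma tail_valid {L : List (ℕ × ℕ)} (h : L ≠ []) (hV : Valid L) : Valid L.tail := by
  rw [list_eq h] at hV
  exact hV.tail

lemma lev_cons_dvd {L : List (ℕ × ℕ)} (h : L ≠ []) : hd1 L * hd2 L ∣ lev L ∧ lev L.tail ∣ lev L := by
  rcases L with _ | ⟨⟨p, q⟩, L⟩
  · exact absurd rfl h
  · exact ⟨Dvd.intro _ rfl, Dvd.intro_left _ rfl⟩

/-- the sum over a set and its subset of the elements with a property -/
lemma sum_ne_empty {ι : Type} {S : Finset ι} (L : ι → List (ℕ × ℕ)) (b : ι → ℝ) (u : ℕ) :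
    ∑ i ∈ S with L i ≠ [], b i * kap (L i) u = ∑ i ∈ S, b i * kap (L i) u := by
  rw [sum_filter]
  refine sum_congr rfl fun i _ => ?_
  split_ifs with h
  · rfl
  · rw [not_not.1 h]; simp [kap]

/-- There is no relation with nonzero coefficients between at most three different iterated torus
knots. -/
theorem hyp_all (ι : Type) : ∀ n : ℕ, Hyp ι n := by
  classical
  intro n
  induction n with
  | zero =>
    intro S K a hlen _ hV _ _ _
    by_contra hS
    obtain ⟨i, hi⟩ := Finset.nonempty_iff_ne_empty.2 hS
    have h1 : (K i).length ≤ ∑ i ∈ S, (K i).length :=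
      Finset.single_le_sum (f := fun i => (K i).length) (fun _ _ => Nat.zero_le _) hi
    have h2 : (K i).length ≠ 0 := by
      rw [Ne, List.length_eq_zero_iff]; exact (hV i hi).1
    omega
  | succ n IH =>
    intro S K a hlen hcard hV hne ha hR
    by_contra hS0
    have hS := Finset.nonempty_iff_ne_empty.2 hS0
    obtain ⟨N, hN, hsum⟩ := same_product hR hcard hV ha hS
    have hhd : ∀ i ∈ S, Nat.Coprime (hd1 (K i)) (hd2 (K i)) ∧ 2 ≤ hd1 (K i) ∧ 2 ≤ hd2 (K i) :=
      fun i hi => head_prop (hV i hi).1 (hV i hi).2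
    have hNp : ∀ i ∈ S, hd1 (K i) * hd2 (K i) = N := fun i hi => by
      rw [← lastProd_eq (hV i hi).1]; exact hN i hi
    obtain ⟨i₀, hi₀, hmin₀⟩ := Finset.exists_min_image S
      (fun i => min (hd1 (K i)) (hd2 (K i))) hS
    obtain ⟨d, hd⟩ : ∃ d, d = min (hd1 (K i₀)) (hd2 (K i₀)) := ⟨_, rfl⟩
    obtain ⟨f, hf⟩ : ∃ f, f = max (hd1 (K i₀)) (hd2 (K i₀)) := ⟨_, rfl⟩
    have hdf : d * f = N := by rw [hd, hf, min_mul_max]; exact hNp i₀ hi₀
    have hmin : ∀ i ∈ S, d ≤ hd1 (K i) ∧ d ≤ hd2 (K i) := by
      intro i hi
      have := hmin₀ i hi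
      rw [← hd] at this
      exact ⟨this.trans (min_le_left _ _), this.trans (min_le_right _ _)⟩
    have h0 := hhd i₀ hi₀
    have hc : d.Coprime f := by
      rcases le_total (hd1 (K i₀)) (hd2 (K i₀)) with h | h
      · rw [hd, hf, min_eq_left h, max_eq_right h]; exact h0.1
      · rw [hd, hf, min_eq_right h, max_eq_left h]; exact h0.1.symm
    have hd2' : 2 ≤ d := by
      rw [hd]; exact le_min h0.2.1 h0.2.2
    have hdlt : d < f := by
      have h1 : d ≤ f := by rw [hd, hf]; exact min_le_max
      have h2 : d ≠ f := by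
        rintro h3
        rw [← h3, Nat.coprime_self] at hc
        omega
      omega
    have hd0 : 0 < d := by omega
    have hf0 : 0 < f := by omega
    -- a common level
    set M := ∏ i ∈ S, lev (K i) with hM
    have hM0 : 0 < M := prod_pos fun i hi => lev_pos (hV i hi).2
    have hlev : ∀ i ∈ S, lev (K i) ∣ M := fun i hi => dvd_prod_of_mem _ hi
    have hNM : N ∣ M := by
      rw [← hNp i₀ hi₀]
      exact (lev_cons_dvd (hV i₀ hi₀).1).1.trans (hlev i₀ hi₀)
    have hfM : f ∣ M := (Dvd.intro_left d hdf).trans hNM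
    have hlevt : ∀ i ∈ S, lev (K i).tail ∣ M := fun i hi =>
      (lev_cons_dvd (hV i hi).1).2.trans (hlev i hi)
    have hVt : ∀ i ∈ S, Valid (K i).tail := fun i hi => tail_valid (hV i hi).1 (hV i hi).2
    -- the relation at `d u`
    have star_d : ∀ u : ℕ, u.Coprime M →
        (∑ i ∈ S with hd1 (K i) = d ∨ hd2 (K i) = d, a i) * ct f (d * u) =
          ∑ i ∈ S with hd1 (K i) = d, a i * kap (K i).tail u := by
      intro u hu
      refine star hR hV hM0 hlev hd2' (fun i hi => (hNp i hi).trans hdf.symm) hsum ?_ ?_ hu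
      · intro i hi h
        exact le_antisymm (Nat.le_of_dvd hd0 h) (hmin i hi).1
      · intro i hi h
        exact le_antisymm (Nat.le_of_dvd hd0 h) (hmin i hi).2
    by_cases hall : ∀ i ∈ S, hd1 (K i) = d ∨ hd2 (K i) = d
    · -- all pairs are equal up to order
      have hpq : ∀ i ∈ S, (hd1 (K i) = d ∧ hd2 (K i) = f) ∨ (hd1 (K i) = f ∧ hd2 (K i) = d) := by
        intro i hi
        have h1 := (hNp i hi).trans hdf.symm
        rcases hall i hi with h | h
        · left
          refine ⟨h, ?_⟩
          rw [h] at h1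
          exact Nat.eq_of_mul_eq_mul_left hd0 h1
        · right
          refine ⟨?_, h⟩
          rw [h, mul_comm] at h1
          exact Nat.eq_of_mul_eq_mul_left hd0 h1
      have hcount : (S.filter fun i => hd1 (K i) = d).card +
          (S.filter fun i => hd1 (K i) = f).card = S.card := by
        rw [← card_union_of_disjoint]
        · congr 1
          ext i
          simp only [mem_union, mem_filter]
          constructor
          · rintro (h | h) <;> exact h.1
          · intro hi
            rcases hpq i hi with h | h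
            · exact Or.inl ⟨hi, h.1⟩
            · exact Or.inr ⟨hi, h.1⟩
        · rw [disjoint_filter]
          intro i _ h1 h2
          omega
      have hs1 := star_d 1 (Nat.coprime_one_left M)
      rw [filter_true_of_mem hall, hsum, zero_mul] at hs1
      have hs2 := star (f := d) (d := f) hR hV hM0 hlev (by omega)
        (fun i hi => by rw [hNp i hi, ← hdf, mul_comm]) hsum
        (fun i hi h => by
          rcases hpq i hi with h1 | h1
          · rw [h1.1] at h
            have h2 : d ∣ Nat.gcd d f := Nat.dvd_gcd (dvd_refl d) h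
            rw [hc] at h2
            have := Nat.dvd_one.1 h2
            omega
          · exact h1.1)
        (fun i hi h => by
          rcases hpq i hi with h1 | h1
          · exact h1.2
          · rw [h1.2] at h
            have h2 : d ∣ Nat.gcd d f := Nat.dvd_gcd (dvd_refl d) h
            rw [hc] at h2
            have := Nat.dvd_one.1 h2
            omega) (Nat.coprime_one_left M)
      have hall2 : ∀ i ∈ S, hd1 (K i) = f ∨ hd2 (K i) = f := by
        intro i hi
        rcases hpq i hi with h | h
        · exact Or.inr h.2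
        · exact Or.inl h.1
      rw [filter_true_of_mem hall2, hsum, zero_mul] at hs2
      rcases Nat.eq_zero_or_pos (S.filter fun i => hd1 (K i) = d).card with hD | hD
      · -- all first parameters are `f`
        rw [card_eq_zero, filter_eq_empty_iff] at hD
        refine all_same (p := f) (q := d) IH hlen hcard hV hne ha hR hS hsum ?_
        intro i hi
        rcases hpq i hi with h | h
        · exact absurd h.1 (hD hi)
        · conv_lhs => rw [list_eq (hV i hi).1, h.1, h.2]
      · rcases Nat.eq_zero_or_pos (S.filter fun i => hd1 (K i) = f).card with hE | hE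
        · rw [card_eq_zero, filter_eq_empty_iff] at hE
          refine all_same (p := d) (q := f) IH hlen hcard hV hne ha hR hS hsum ?_
          intro i hi
          rcases hpq i hi with h | h
          · conv_lhs => rw [list_eq (hV i hi).1, h.1, h.2]
          · exact absurd h.1 (hE hi)
        · rcases Nat.lt_or_ge (S.filter fun i => hd1 (K i) = d).card 2 with h1 | h1
          · exact swap_case (x := d) (y := f) IH hlen hcard hV hne ha hR hS hsum hpq hs1.symm
              (by omega)
          · exact swap_case (x := f) (y := d) IH hlen hcard hV hne ha hR hS hsum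
              (fun i hi => (hpq i hi).symm) hs2.symm (by omega)
    · -- there is another pair
      push Not at hall
      obtain ⟨k, hk, hk1, hk2⟩ := hall
      set I := S.filter (fun i => hd1 (K i) = d ∨ hd2 (K i) = d) with hI
      obtain ⟨A, hA⟩ : ∃ A, A = ∑ i ∈ I, a i := ⟨_, rfl⟩
      rw [← hA] at star_d
      have hi₀I : i₀ ∈ I := by
        rw [hI, mem_filter]
        refine ⟨hi₀, ?_⟩
        rcases le_total (hd1 (K i₀)) (hd2 (K i₀)) with h | h
        · left; rw [hd, min_eq_left h]
        · right; rw [hd, min_eq_right h]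
      have hkI : k ∉ I := by
        rw [hI, mem_filter]
        rintro ⟨_, h | h⟩
        · exact hk1 h
        · exact hk2 h
      have hIS : I ⊆ S := filter_subset _ _
      have hsplit : I.card + (S \ I).card = S.card := by
        rw [add_comm]; exact card_sdiff_add_card_eq_card hIS
      have hA0 : A ≠ 0 := by
        intro h
        have h1 := two_le_card (C := I) (a := a) ⟨i₀, hi₀I⟩ (fun i hi => ha i (hIS hi))
          (by rw [← hA, h])
        have h2 := two_le_card (C := S \ I) (a := a) ⟨k, mem_sdiff.2 ⟨hk, hkI⟩⟩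
          (fun i hi => ha i (mem_sdiff.1 hi).1) (by
            have := sum_sdiff (f := a) hIS
            rw [hsum, ← hA, h, add_zero] at this
            exact this)
        omega
      -- the other pair
      obtain ⟨d₂, hd₂⟩ : ∃ d₂, d₂ = min (hd1 (K k)) (hd2 (K k)) := ⟨_, rfl⟩
      obtain ⟨f₂, hf₂⟩ : ∃ f₂, f₂ = max (hd1 (K k)) (hd2 (K k)) := ⟨_, rfl⟩
      have hdf₂ : d₂ * f₂ = N := by rw [hd₂, hf₂, min_mul_max]; exact hNp k hk
      have hk0 := hhd k hk
      have hc₂ : d₂.Coprime f₂ := by
        rcases le_total (hd1 (K k)) (hd2 (K k)) with h | h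
        · rw [hd₂, hf₂, min_eq_left h, max_eq_right h]; exact hk0.1
        · rw [hd₂, hf₂, min_eq_right h, max_eq_left h]; exact hk0.1.symm
      have hlt1 : d < d₂ := by
        have h1 := hmin k hk
        rw [hd₂, lt_min_iff]
        omega
      have hlt2 : d₂ < f₂ := by
        have h1 : d₂ ≤ f₂ := by rw [hd₂, hf₂]; exact min_le_max
        have h2 : d₂ ≠ f₂ := by
          rintro h3
          rw [← h3, Nat.coprime_self] at hc₂
          omega
        omega
      have hlt3 : f₂ < f := by
        by_contra hcon
        push Not at hcon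
        have : d * f < d₂ * f₂ := by
          calc d * f < d₂ * f := Nat.mul_lt_mul_of_pos_right hlt1 hf0
            _ ≤ d₂ * f₂ := Nat.mul_le_mul_left _ hcon
        omega
      set T := (S.filter (fun i => hd1 (K i) = d)).filter (fun i => (K i).tail ≠ []) with hT
      have hTS : ∀ i ∈ T, i ∈ S := fun i hi => (mem_filter.1 (mem_filter.1 hi).1).1
      have hTI : T ⊆ I := by
        intro i hi
        have h1 := mem_filter.1 (mem_filter.1 hi).1
        exact mem_filter.2 ⟨h1.1, Or.inl h1.2⟩
      have hrel : ∀ u : ℕ, u.Coprime M → A * ct f (d * u) = ∑ i ∈ T, a i * kap (K i).tail u := by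
        intro u hu
        rw [star_d u hu, hT, sum_ne_empty]
      have hrel' : ∀ u : ℕ, u.Coprime M →
          (-A) * ct f (d * u) = ∑ i ∈ T, (-a i) * kap (K i).tail u := by
        intro u hu
        have := hrel u hu
        simp only [neg_mul, sum_neg_distrib]
        rw [this]
      have hVT : ∀ i ∈ T, Valid (K i).tail := fun i hi => hVt i (hTS i hi)
      have hlevT : ∀ i ∈ T, lev (K i).tail ∣ M := fun i hi => hlevt i (hTS i hi)
      by_cases hpos : ∀ i ∈ T, 0 ≤ a i
      · rcases lt_or_gt_of_ne hA0 with h | h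
        · exact ss_neg (L := fun i => (K i).tail) hM0 hfM hVT hlevT (by linarith : 0 < -A)
            (fun i hi => by have := hpos i hi; linarith) (by omega) (by omega) hc hrel'
        · exact ss_pos (L := fun i => (K i).tail) hM0 hfM hVT hlevT h hpos (by omega) (by omega)
            hc hrel
      by_cases hneg : ∀ i ∈ T, a i ≤ 0
      · rcases lt_or_gt_of_ne hA0 with h | h
        · exact ss_pos (L := fun i => (K i).tail) hM0 hfM hVT hlevT (by linarith : 0 < -A)
            (fun i hi => by have := hneg i hi; linarith) (by omega) (by omega) hc hrel'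
        · exact ss_neg (L := fun i => (K i).tail) hM0 hfM hVT hlevT h hneg (by omega) (by omega)
            hc hrel
      push Not at hpos hneg
      obtain ⟨j, hj, haj⟩ := hpos
      obtain ⟨i, hi, hai⟩ := hneg
      have hij : i ≠ j := by rintro rfl; linarith
      -- `I = T = {i, j}`
      have hIcard : I.card ≤ 2 := by
        have : 0 < (S \ I).card := card_pos.2 ⟨k, mem_sdiff.2 ⟨hk, hkI⟩⟩
        omega
      have hTij : ({i, j} : Finset ι) ⊆ T := by
        intro x hx
        simp only [mem_insert, mem_singleton] at hx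
        rcases hx with rfl | rfl <;> assumption
      have hcij : ({i, j} : Finset ι).card = 2 := card_pair hij
      have hTeq : ({i, j} : Finset ι) = T :=
        eq_of_subset_of_card_le hTij (by have := card_le_card hTI; omega)
      have hIeq : T = I := eq_of_subset_of_card_le hTI (by
        rw [← hTeq, hcij]; exact hIcard)
      have hkij : k ≠ i ∧ k ≠ j := by
        constructor
        · rintro rfl; exact hkI (hTI hi)
        · rintro rfl; exact hkI (hTI hj)
      have hSijk : ∀ x ∈ S, x = i ∨ x = j ∨ x = k := by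
        intro x hx
        by_contra hcon
        push Not at hcon
        have hc4 : ({x, i, j, k} : Finset ι).card = 4 := by
          rw [card_insert_of_notMem (by simp [hcon.1, hcon.2.1, hcon.2.2]),
            card_insert_of_notMem (by simp [hij, hkij.1.symm]),
            card_insert_of_notMem (by simp [hkij.2.symm]), card_singleton]
        have hsub : ({x, i, j, k} : Finset ι) ⊆ S := by
          intro y hy
          simp only [mem_insert, mem_singleton] at hy
          rcases hy with rfl | rfl | rfl | rfl
          · exact hx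
          · exact hTS _ hi
          · exact hTS _ hj
          · exact hk
        have := card_le_card hsub
        omega
      have hsumA : A = a i + a j := by
        rw [hA, ← hIeq, ← hTeq, sum_pair hij]
      have hmi : hd1 (K i) = d ∧ (K i).tail ≠ [] :=
        ⟨(mem_filter.1 (mem_filter.1 hi).1).2, (mem_filter.1 hi).2⟩
      have hmj : hd1 (K j) = d ∧ (K j).tail ≠ [] :=
        ⟨(mem_filter.1 (mem_filter.1 hj).1).2, (mem_filter.1 hj).2⟩
      have hqf : ∀ x ∈ S, hd1 (K x) = d → hd2 (K x) = f := by
        intro x hx h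
        have h1 := (hNp x hx).trans hdf.symm
        rw [h] at h1
        exact Nat.eq_of_mul_eq_mul_left hd0 h1
      -- `4 d < f`
      have h4 : 4 * d < f := by
        by_cases hdd : d ∣ d₂
        · obtain ⟨t, ht⟩ := hdd
          have ht2 : 2 ≤ t := by
            rcases Nat.lt_or_ge t 2 with h | h
            · exfalso
              have : t = 0 ∨ t = 1 := by omega
              rcases this with rfl | rfl
              · omega
              · omega
            · exact h
          have hft : f = t * f₂ := by
            have h1 : d * f = d * (t * f₂) := by rw [hdf, ← hdf₂, ht]; ring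
            exact Nat.eq_of_mul_eq_mul_left hd0 h1
          calc 4 * d = 2 * (d * 2) := by ring
            _ ≤ 2 * (d * t) := Nat.mul_le_mul_left 2 (Nat.mul_le_mul_left d ht2)
            _ = 2 * d₂ := by rw [ht]
            _ < 2 * f₂ := by omega
            _ ≤ t * f₂ := Nat.mul_le_mul_right _ ht2
            _ = f := hft.symm
        · exfalso
          have hkk : (hd1 (K k) = d₂ ∧ hd2 (K k) = f₂) ∨ (hd1 (K k) = f₂ ∧ hd2 (K k) = d₂) := by
            rcases le_total (hd1 (K k)) (hd2 (K k)) with h | h
            · left; rw [hd₂, hf₂, min_eq_left h, max_eq_right h]; exact ⟨rfl, rfl⟩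
            · right; rw [hd₂, hf₂, min_eq_right h, max_eq_left h]; exact ⟨rfl, rfl⟩
          have star₂ : ∀ u : ℕ, u.Coprime M →
              (∑ x ∈ S with hd1 (K x) = d₂ ∨ hd2 (K x) = d₂, a x) * ct f₂ (d₂ * u) =
                ∑ x ∈ S with hd1 (K x) = d₂, a x * kap (K x).tail u := by
            intro u hu
            refine star hR hV hM0 hlev (by omega) (fun x hx => (hNp x hx).trans hdf₂.symm) hsum
              ?_ ?_ hu
            · intro x hx h
              rcases hSijk x hx with rfl | rfl | rfl
              · rw [hmi.1] at h; exact absurd h hdd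
              · rw [hmj.1] at h; exact absurd h hdd
              · rcases hkk with h1 | h1
                · exact h1.1
                · rw [h1.1] at h
                  have := Nat.le_of_dvd (by omega) h
                  omega
            · intro x hx h
              rcases hSijk x hx with rfl | rfl | rfl
              · rw [hqf _ hx hmi.1] at h
                have := Nat.le_of_dvd (by omega) h
                omega
              · rw [hqf _ hx hmj.1] at h
                have := Nat.le_of_dvd (by omega) h
                omega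
              · rcases hkk with h1 | h1
                · rw [h1.2] at h
                  have := Nat.le_of_dvd (by omega) h
                  omega
                · exact h1.2
          have hfil : S.filter (fun x => hd1 (K x) = d₂ ∨ hd2 (K x) = d₂) = {k} := by
            ext x
            rw [mem_filter, mem_singleton]
            constructor
            · rintro ⟨hx, h⟩
              rcases hSijk x hx with rfl | rfl | rfl
              · exfalso
                rw [hmi.1, hqf _ hx hmi.1] at h
                omega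
              · exfalso
                rw [hmj.1, hqf _ hx hmj.1] at h
                omega
              · rfl
            · rintro rfl
              refine ⟨hk, ?_⟩
              rcases hkk with h1 | h1
              · exact Or.inl h1.1
              · exact Or.inr h1.2
          have hf₂M : f₂ ∣ M := (Dvd.intro_left d₂ hdf₂).trans hNM
          have hsubk : ∀ x ∈ S.filter (fun x => hd1 (K x) = d₂), x = k := by
            intro x hx
            have h1 := mem_filter.1 hx
            have h2 : x ∈ S.filter (fun x => hd1 (K x) = d₂ ∨ hd2 (K x) = d₂) :=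
              mem_filter.2 ⟨h1.1, Or.inl h1.2⟩
            rw [hfil, mem_singleton] at h2
            exact h2
          refine ss_pos (T := S.filter (fun x => hd1 (K x) = d₂)) (b := fun _ => 1)
            (L := fun x => (K x).tail) (A := 1) (d := d₂) (f := f₂) hM0 hf₂M
            (fun x hx => hVt x (mem_filter.1 hx).1) (fun x hx => hlevt x (mem_filter.1 hx).1)
            one_pos (fun _ _ => zero_le_one) (by omega) hlt2 hc₂ ?_
          intro u hu
          have h1 := star₂ u hu
          rw [hfil, sum_singleton] at h1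
          have h2 : ∑ x ∈ S with hd1 (K x) = d₂, a x * kap (K x).tail u =
              a k * ∑ x ∈ S with hd1 (K x) = d₂, 1 * kap (K x).tail u := by
            rw [mul_sum]
            refine sum_congr rfl fun x hx => ?_
            rw [hsubk x hx]; ring
          rw [h2] at h1
          rw [one_mul]
          exact mul_left_cancel₀ (ha k hk) h1
      -- the two companions
      obtain ⟨M₁, hM₁⟩ : ∃ M₁, M₁ = hd1 (K i).tail * hd2 (K i).tail := ⟨_, rfl⟩
      obtain ⟨M₂, hM₂⟩ : ∃ M₂, M₂ = hd1 (K j).tail * hd2 (K j).tail := ⟨_, rfl⟩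
      have hVi := hVT i hi
      have hVj := hVT j hj
      have hpi := head_prop hmi.2 hVi
      have hpj := head_prop hmj.2 hVj
      have hM₁6 : 6 ≤ M₁ := hM₁ ▸ (not_primePow hpi.1 hpi.2.1 hpi.2.2).1
      have hM₂6 : 6 ≤ M₂ := hM₂ ▸ (not_primePow hpj.1 hpj.2.1 hpj.2.2).1
      have hM₁M : M₁ ∣ M := hM₁ ▸ (lev_cons_dvd hmi.2).1.trans (hlevT i hi)
      have hM₂M : M₂ ∣ M := hM₂ ▸ (lev_cons_dvd hmj.2).1.trans (hlevT j hj)
      have hkap : ∀ (L : List (ℕ × ℕ)), L ≠ [] → ∀ u, kap L u = ct (hd1 L * hd2 L) u := by
        intro L hL u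
        rcases L with _ | ⟨⟨p, q⟩, L⟩
        · exact absurd rfl hL
        · rfl
      have hrel2 : ∀ u : ℕ, u.Coprime M → A * ct f (d * u) = a i * ct M₁ u + a j * ct M₂ u := by
        intro u hu
        rw [hrel u hu, ← hTeq, sum_pair hij, hkap _ hmi.2, hkap _ hmj.2, hM₁, hM₂]
      rcases lt_or_gt_of_ne hA0 with h | h
      · refine two_terms (A := -A) (a₁ := -a j) (a₂ := -a i) (M₁ := M₂) (M₂ := M₁) hM0 hfM hM₂M
          hM₁M hM₂6 hM₁6 hd2' h4 hc (by rw [hsumA]; ring) (by linarith) (by linarith) ?_
        intro u hu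
        have := hrel2 u hu
        linarith
      · refine two_terms (A := A) (a₁ := a i) (a₂ := a j) (M₁ := M₁) (M₂ := M₂) hM0 hfM hM₁M
          hM₂M hM₁6 hM₂6 hd2' h4 hc hsumA h haj hrel2

/-- The signature functions of at most three different iterated torus knots are linearly
independent. -/
theorem at_most_three {ι : Type} (S : Finset ι) (hS : S.card ≤ 3) (K : ι → List (ℕ × ℕ))
    (hK : ∀ i ∈ S, K i ≠ [] ∧ Valid (K i))
    (hne : ∀ i ∈ S, ∀ j ∈ S, i ≠ j → ¬ Same (K i) (K j)) (a : ι → ℝ)
    (hfin : {x : ℝ | x ∈ Set.Ioo (0 : ℝ) 1 ∧ ∑ i ∈ S, a i * (sigK (K i) x : ℝ) ≠ 0}.Finite) :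
    ∀ i ∈ S, a i = 0 := by
  classical
  have hCop : ∀ k ∈ S, Cop (K k) := fun k hk c hc =>
    ⟨((hK k hk).2 c hc).1, by have := ((hK k hk).2 c hc).2.1; omega⟩
  have hR : JRel S a K := jump_relation S a K hCop hfin
  set S' := S.filter (fun i => a i ≠ 0) with hS'
  have hsub : S' ⊆ S := filter_subset _ _
  have h1 : S' = ∅ := by
    refine hyp_all ι _ S' K a le_rfl ((card_le_card hsub).trans hS) (fun i hi => hK i (hsub hi))
      (fun i hi j hj => hne i (hsub hi) j (hsub hj)) (fun i hi => (mem_filter.1 hi).2) ?_
    intro x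
    rw [← hR x, hS', sum_filter]
    refine sum_congr rfl fun i _ => ?_
    split_ifs with h
    · rfl
    · rw [not_not.1 h, zero_mul]
  intro i hi
  by_contra h
  have : i ∈ S' := mem_filter.2 ⟨hi, h⟩
  rw [h1] at this
  simp at this

end Pool.Agent.H80.Sig
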