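import Pool.Agent.H80.Sig.LemP
set_option autoImplicit false

/-!
# Independence of the jump functions on the points of maximal order
-/

namespace Pool.Agent.H80.Sig

open Finset

/-- The condition on the parameters `p < q`: one of them is a prime power, or `p` is smaller than a
prime power exactly dividing `q`. -/
def Dom (p q : ℕ) : Prop :=
  IsPrimePow p ∨ IsPrimePow q ∨ ∃ l : ℕ, l.Prime ∧ p < l ^ q.factorization l

lemma pp_le {n m : ℕ} (hn : IsPrimePow n) (hm : m ≠ 0) (h : n ∣ m) :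
    ∃ l : ℕ, l.Prime ∧ n ≤ l ^ m.factorization l := by
  obtain ⟨l, k, hl, hk, rfl⟩ := hn
  have hl' : l.Prime := hl.nat_prime
  refine ⟨l, hl', ?_⟩
  exact Nat.pow_le_pow_right hl'.pos ((hl'.pow_dvd_iff_le_factorization hm).1 h)

lemma not_pp_mul {a b : ℕ} (hc : Nat.Coprime a b) (ha : 1 < a) (hb : 1 < b) :
    ¬ IsPrimePow (a * b) := by
  intro h
  rcases (hc.isPrimePow_dvd_mul h).1 dvd_rfl with h1 | h1
  · have := Nat.le_of_dvd (by omega) h1; nlinarith
  · have := Nat.le_of_dvd (by omega) h1; nlinarith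

/-- the combinatorial part -/
lemma only_one {M r : ℕ} {S : Finset (ℕ × ℕ)}
    (hS : ∀ s ∈ S, s.1 < s.2 ∧ Nat.Coprime s.1 s.2 ∧ 2 ≤ s.1 ∧ Dom s.1 s.2)
    (hM : ∀ s ∈ S, s.2 ≤ M) (hr : (r, M) ∈ S)
    (h : IsPrimePow M ∨ (IsPrimePow r ∧ ¬ ∃ l : ℕ, l.Prime ∧ r < l ^ M.factorization l)) :
    ∀ s ∈ S, s.1 * s.2 = r * M → s = (r, M) := by
  intro s hs hprod
  obtain ⟨hlt, hcop, h2, hdom⟩ := hS s hs
  obtain ⟨hrM, hrcop, hr2, -⟩ := hS _ hr
  simp only at hrM hrcop hr2
  have hsM := hM s hs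
  have hM0 : M ≠ 0 := by omega
  rcases h with hpp | ⟨hpr, hno⟩
  · rcases (hcop.isPrimePow_dvd_mul hpp).1 (hprod ▸ Dvd.intro_left r rfl) with h1 | h1
    · have := Nat.le_of_dvd (by omega) h1; omega
    · have h3 := Nat.le_of_dvd (by omega) h1
      have h4 : s.2 = M := le_antisymm hsM h3
      rw [h4] at hprod
      have h5 : s.1 = r := Nat.eq_of_mul_eq_mul_right (by omega) hprod
      exact Prod.ext h5 h4
  · have hle : ∀ l : ℕ, l.Prime → l ^ M.factorization l ≤ r := by
      intro l hl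
      by_contra hcon
      exact hno ⟨l, hl, not_le.1 hcon⟩
    rcases (hcop.isPrimePow_dvd_mul hpr).1 (hprod ▸ Dvd.intro M rfl) with h1 | h1
    · obtain ⟨m, hm⟩ := h1
      have hM' : m * s.2 = M := by
        have : r * (m * s.2) = r * M := by rw [← hprod, hm]; ring
        exact Nat.eq_of_mul_eq_mul_left (by omega) this
      have hm0 : m ≠ 0 := by rintro rfl; rw [zero_mul] at hM'; omega
      by_cases hm1 : m = 1
      · rw [hm1, one_mul] at hM'
        rw [hm1, mul_one] at hm
        exact Prod.ext hm hM'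
      · exfalso
        have hm1' : 1 < m := by omega
        have hrm : Nat.Coprime r m := Nat.Coprime.coprime_dvd_right (Dvd.intro s.2 hM') hrcop
        have hs2M : s.2 ∣ M := Dvd.intro_left m hM'
        have hrs1 : r ≤ s.1 := by rw [hm]; exact Nat.le_mul_of_pos_right r (by omega)
        rcases hdom with hd | hd | ⟨l, hl, hd⟩
        · rw [hm] at hd
          exact not_pp_mul hrm (by omega) hm1' hd
        · obtain ⟨l, hl, h3⟩ := pp_le hd hM0 hs2M
          have := hle l hl; omega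
        · have h3 : s.2.factorization l ≤ M.factorization l :=
            (Nat.factorization_le_iff_dvd (by omega) hM0).2 hs2M l
          have h4 := Nat.pow_le_pow_right hl.pos h3
          have := hle l hl
          omega
    · obtain ⟨m, hm⟩ := h1
      have hM' : s.1 * m = M := by
        have : r * (s.1 * m) = r * M := by rw [← hprod, hm]; ring
        exact Nat.eq_of_mul_eq_mul_left (by omega) this
      have hm0 : m ≠ 0 := by rintro rfl; rw [mul_zero] at hM'; omega
      exfalso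
      by_cases hm1 : m = 1
      · rw [hm1, mul_one] at hM' hm
        omega
      · have hm1' : 1 < m := by omega
        have hrm : Nat.Coprime r m := Nat.Coprime.coprime_dvd_right (Dvd.intro_left s.1 hM') hrcop
        have hs1M : s.1 ∣ M := Dvd.intro m hM'
        have hmM : m ∣ M := Dvd.intro_left s.1 hM'
        have hrs1 : r < s.1 := by
          have h3 : r * m ≤ s.1 * m := by rw [hM', ← hm]; exact hsM
          have h4 := Nat.le_of_mul_le_mul_right h3 (by omega)
          rcases h4.lt_or_eq with h5 | h5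
          · exact h5
          · exfalso
            rw [← h5] at hs1M
            have h6 : r ∣ Nat.gcd r M := Nat.dvd_gcd dvd_rfl hs1M
            rw [hrcop] at h6
            have := Nat.dvd_one.1 h6; omega
        rcases hdom with hd | hd | ⟨l, hl, hd⟩
        · obtain ⟨l, hl, h3⟩ := pp_le hd hM0 hs1M
          have := hle l hl; omega
        · rw [hm] at hd
          exact not_pp_mul hrm (by omega) hm1' hd
        · have hk : s.2.factorization l ≠ 0 := by
            intro h3; rw [h3, pow_zero] at hd; omega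
          have hpp : IsPrimePow (l ^ s.2.factorization l) := hl.isPrimePow.pow hk
          have h3 : l ^ s.2.factorization l ∣ r * m := by
            rw [← hm]; exact Nat.ordProj_dvd _ _
          rcases (hrm.isPrimePow_dvd_mul hpp).1 h3 with h4 | h4
          · have := Nat.le_of_dvd (by omega) h4; omega
          · have h5 := (hl.pow_dvd_iff_le_factorization hM0).1 (h4.trans hmM)
            have h6 := Nat.pow_le_pow_right hl.pos h5
            have := hle l hl; omega

lemma As_zero {f L : ℕ} [NeZero L] (χ : DC f) : As L χ (fun _ => 0) = 0 := by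
  unfold As; simp

/-- the twisted relation -/
lemma rel_twist {L f : ℕ} [NeZero L] {S : Finset (ℕ × ℕ)} {c : ℕ × ℕ → ℂ}
    (hS : ∀ s ∈ S, Nat.Coprime s.1 s.2 ∧ 2 ≤ s.1 ∧ 2 ≤ s.2 ∧ s.1 * s.2 ∣ L)
    (hrel : ∀ k : ℕ, k.Coprime L →
      ∑ s ∈ S, c s * (J s.1 s.2 ((k : ℝ) / ((s.1 * s.2 : ℕ) : ℝ)) : ℂ) = 0)
    {p' q' : ℕ × ℕ → ℕ} (hp' : ∀ s ∈ S, s.1 * p' s ≡ 1 [MOD s.2])
    (hq' : ∀ s ∈ S, s.2 * q' s ≡ 1 [MOD s.1]) (χ : DC f) :
    ∑ s ∈ S, c s * As L χ (sw (s.1 * s.2)) =
      ∑ s ∈ S, c s * (As L χ (fun k => sw s.1 (q' s * k)) + As L χ (fun k => sw s.2 (p' s * k))) := by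
  have h1 : ∑ v : (ZMod L)ˣ, χ ((vl v : ℕ) : ZMod f) *
      ∑ s ∈ S, c s * (J s.1 s.2 ((vl v : ℝ) / ((s.1 * s.2 : ℕ) : ℝ)) : ℂ) = 0 := by
    refine sum_eq_zero fun v _ => ?_
    rw [hrel _ (vl_coprime v), mul_zero]
  have h2 : ∑ v : (ZMod L)ˣ, χ ((vl v : ℕ) : ZMod f) *
      ∑ s ∈ S, c s * (J s.1 s.2 ((vl v : ℝ) / ((s.1 * s.2 : ℕ) : ℝ)) : ℂ) =
      ∑ s ∈ S, c s * (As L χ (sw (s.1 * s.2)) - (As L χ (fun k => sw s.1 (q' s * k)) +
        As L χ (fun k => sw s.2 (p' s * k)))) := by
    simp_rw [mul_sum]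
    rw [sum_comm]
    refine sum_congr rfl fun s hs => ?_
    obtain ⟨hc, h3, h4, hd⟩ := hS s hs
    unfold As
    rw [← sum_add_distrib, ← sum_sub_distrib, mul_sum]
    refine sum_congr rfl fun v _ => ?_
    have hk : (vl v).Coprime (s.1 * s.2) := Nat.Coprime.coprime_dvd_right hd (vl_coprime v)
    rw [J_sw hc h3 h4 hk (hp' s hs) (hq' s hs)]
    ring
  rw [h2] at h1
  rw [← sub_eq_zero, ← sum_sub_distrib, ← h1]
  refine sum_congr rfl fun s _ => ?_
  ring

lemma sw_comp {N c : ℕ} : ∀ h h' : ℕ, h ≡ h' [MOD N] → sw N (c * h) = sw N (c * h') :=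
  fun _ _ e => sw_congr (e.mul_left c)

theorem top {L : ℕ} (hL : 0 < L) (S : Finset (ℕ × ℕ)) (c : ℕ × ℕ → ℂ)
    (hS : ∀ s ∈ S, s.1 < s.2 ∧ Nat.Coprime s.1 s.2 ∧ Odd s.1 ∧ Odd s.2 ∧ 2 ≤ s.1 ∧
      s.1 * s.2 ∣ L ∧ Dom s.1 s.2) (hc : ∀ s ∈ S, c s ≠ 0)
    (hrel : ∀ k : ℕ, k.Coprime L →
      ∑ s ∈ S, c s * (J s.1 s.2 ((k : ℝ) / ((s.1 * s.2 : ℕ) : ℝ)) : ℂ) = 0) : S = ∅ := by
  classical
  have : NeZero L := ⟨hL.ne'⟩
  by_contra hSne
  have hSne' := Finset.nonempty_iff_ne_empty.2 hSne
  obtain ⟨s₀, hs₀, hmax⟩ := Finset.exists_max_image S (fun s => s.2) hSne'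
  obtain ⟨M, hMdef⟩ : ∃ M, M = s₀.2 := ⟨_, rfl⟩
  rw [← hMdef] at hmax
  have hS' : ∀ s ∈ S, Nat.Coprime s.1 s.2 ∧ 2 ≤ s.1 ∧ 2 ≤ s.2 ∧ s.1 * s.2 ∣ L := by
    intro s hs
    obtain ⟨h1, h2, h3, h4, h5, h6, h7⟩ := hS s hs
    exact ⟨h2, h5, by omega, h6⟩
  -- the inverses
  have hex1 : ∀ s ∈ S, ∃ e : ℕ, s.1 * e ≡ 1 [MOD s.2] := fun s hs =>
    exists_inv (by have := (hS' s hs).2.2.1; omega) (hS' s hs).1
  have hex2 : ∀ s ∈ S, ∃ e : ℕ, s.2 * e ≡ 1 [MOD s.1] := fun s hs =>
    exists_inv (by have := (hS' s hs).2.1; omega) (hS' s hs).1.symm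
  choose! p' hp' using hex1
  choose! q' hq' using hex2
  have hrt := fun {f : ℕ} (χ : DC f) => rel_twist hS' hrel hp' hq' χ
  -- the sums over the products
  set C : ℕ → ℂ := fun D => ∑ s ∈ S.filter (fun s => s.1 * s.2 = D), c s with hC
  have hfib : ∀ {f : ℕ} (χ : DC f), ∑ s ∈ S, c s * As L χ (sw (s.1 * s.2)) =
      ∑ D ∈ S.image (fun s => s.1 * s.2), C D * As L χ (sw D) := by
    intro f χ
    rw [← Finset.sum_fiberwise_of_maps_to (g := fun s : ℕ × ℕ => s.1 * s.2)
      (t := S.image (fun s => s.1 * s.2)) (fun s hs => mem_image_of_mem _ hs)]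
    refine sum_congr rfl fun D _ => ?_
    simp only [hC]
    rw [sum_mul]
    refine sum_congr rfl fun s hs => ?_
    rw [(mem_filter.1 hs).2]
  have hodd : ∀ s ∈ S, Odd (s.1 * s.2) := fun s hs => (hS s hs).2.2.1.mul (hS s hs).2.2.2.1
  -- the sums `C D` vanish for `D > M`
  have hC0 : ∀ D : ℕ, M < D → C D = 0 := by
    by_contra hcon
    push Not at hcon
    obtain ⟨D₀, hD₀, hCD₀⟩ := hcon
    have himg : ∀ D, C D ≠ 0 → D ∈ S.image (fun s => s.1 * s.2) := by
      intro D hD
      obtain ⟨s, hs, -⟩ := Finset.exists_ne_zero_of_sum_ne_zero hD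
      exact mem_image.2 ⟨s, (mem_filter.1 hs).1, (mem_filter.1 hs).2⟩
    obtain ⟨D, hD, hDmax⟩ := Finset.exists_max_image
      ((S.image (fun s => s.1 * s.2)).filter (fun D => M < D ∧ C D ≠ 0)) id
      ⟨D₀, mem_filter.2 ⟨himg D₀ hCD₀, hD₀, hCD₀⟩⟩
    rw [mem_filter] at hD
    obtain ⟨hDi, hMD, hCD⟩ := hD
    obtain ⟨s₁, hs₁, hs₁D⟩ := mem_image.1 hDi
    have hDodd : Odd D := hs₁D ▸ hodd s₁ hs₁
    have hDL : D ∣ L := hs₁D ▸ (hS' s₁ hs₁).2.2.2
    have hM2 : 2 ≤ M := by
      have := (hS' s₀ hs₀).2.2.1; omega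
    obtain ⟨χ, hχo, hχ⟩ := exists_odd_prim D (by omega)
      (by obtain ⟨t, ht⟩ := hDodd; omega) (by rintro rfl; revert hDodd; decide)
    have h1 := hrt χ
    rw [hfib χ] at h1
    have h2 : ∑ s ∈ S, c s * (As L χ (fun k => sw s.1 (q' s * k)) +
        As L χ (fun k => sw s.2 (p' s * k))) = 0 := by
      refine sum_eq_zero fun s hs => ?_
      have hle := hmax s hs
      obtain ⟨a1, a2, a3, a4, a5, a6, a7⟩ := hS s hs
      rw [As_kill χ hχ hDL ((Dvd.intro s.2 rfl).trans a6)
          (fun h => by have := Nat.le_of_dvd (by omega) h; omega) sw_comp,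
        As_kill χ hχ hDL ((Dvd.intro_left s.1 rfl).trans a6)
          (fun h => by have := Nat.le_of_dvd (by omega) h; omega) sw_comp]
      ring
    rw [h2, Finset.sum_eq_single D] at h1
    · rcases mul_eq_zero.1 h1 with h3 | h3
      · exact hCD h3
      · exact As_sw_ne χ hDL hχ hχo h3
    · intro D' hD' hne
      by_cases hdvd : D ∣ D'
      · obtain ⟨s₂, hs₂, hs₂D⟩ := mem_image.1 hD'
        have hD'0 : 0 < D' := hs₂D ▸ (hodd s₂ hs₂).pos
        have hlt : D < D' := lt_of_le_of_ne (Nat.le_of_dvd hD'0 hdvd) (Ne.symm hne)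
        have : C D' = 0 := by
          by_contra hne'
          have := hDmax D' (mem_filter.2 ⟨hD', by omega, hne'⟩)
          simp only [id] at this
          omega
        rw [this, zero_mul]
      · obtain ⟨s₂, hs₂, hs₂D⟩ := mem_image.1 hD'
        rw [As_kill χ hχ hDL (hs₂D ▸ (hS' s₂ hs₂).2.2.2) hdvd (fun h h' e => sw_congr e),
          mul_zero]
    · intro h3; exact absurd hDi h3
  -- the pairs with the largest second entry
  set R : Finset ℕ := (S.filter (fun s => s.2 = M)).image Prod.fst with hR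
  have hmemR : ∀ r, r ∈ R ↔ (r, M) ∈ S := by
    intro r
    rw [hR, mem_image]
    constructor
    · rintro ⟨s, hs, rfl⟩
      obtain ⟨h1, h2⟩ := mem_filter.1 hs
      rw [← h2]; exact h1
    · intro h
      exact ⟨(r, M), mem_filter.2 ⟨h, rfl⟩, rfl⟩
  have hRne : R.Nonempty := ⟨s₀.1, (hmemR _).2 (by rw [hMdef]; exact hs₀)⟩
  obtain ⟨r, hr, hrmax⟩ := Finset.exists_max_image R id hRne
  simp only [id] at hrmax
  have hrS := (hmemR r).1 hr
  obtain ⟨b1, b2, b3, b4, b5, b6, b7⟩ := hS _ hrS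
  simp only at b1 b2 b3 b4 b5 b6 b7
  have hML : M ∣ L := (Dvd.intro_left r rfl).trans b6
  -- the relation at the level `M`
  have hlevel : ∀ χ : DC M, Prim χ → χ (-1) = -1 →
      C M - ∑ r ∈ R, c (r, M) * χ (r : ZMod M) = 0 := by
    intro χ hχ hχo
    have hA := As_sw_ne χ hML hχ hχo
    have h1 := hrt χ
    rw [hfib χ] at h1
    have h2 : ∑ D ∈ S.image (fun s => s.1 * s.2), C D * As L χ (sw D) = C M * As L χ (sw M) := by
      by_cases hMi : M ∈ S.image (fun s => s.1 * s.2)
      · rw [Finset.sum_eq_single M]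
        · intro D' hD' hne
          by_cases hdvd : M ∣ D'
          · obtain ⟨s₂, hs₂, hs₂D⟩ := mem_image.1 hD'
            have hD'0 : 0 < D' := hs₂D ▸ (hodd s₂ hs₂).pos
            have hlt : M < D' := lt_of_le_of_ne (Nat.le_of_dvd hD'0 hdvd) (Ne.symm hne)
            rw [hC0 D' hlt, zero_mul]
          · obtain ⟨s₂, hs₂, hs₂D⟩ := mem_image.1 hD'
            rw [As_kill χ hχ hML (hs₂D ▸ (hS' s₂ hs₂).2.2.2) hdvd (fun h h' e => sw_congr e),
              mul_zero]
        · intro h3; exact absurd hMi h3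
      · have hCM : C M = 0 := by
          simp only [hC]
          rw [Finset.filter_eq_empty_iff.2, sum_empty]
          intro s hs h3
          exact hMi (mem_image.2 ⟨s, hs, h3⟩)
        rw [hCM, zero_mul]
        refine sum_eq_zero fun D' hD' => ?_
        by_cases hdvd : M ∣ D'
        · obtain ⟨s₂, hs₂, hs₂D⟩ := mem_image.1 hD'
          have hD'0 : 0 < D' := hs₂D ▸ (hodd s₂ hs₂).pos
          have hne : D' ≠ M := by rintro rfl; exact hMi hD'
          have hlt : M < D' := lt_of_le_of_ne (Nat.le_of_dvd hD'0 hdvd) (Ne.symm hne)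
          rw [hC0 D' hlt, zero_mul]
        · obtain ⟨s₂, hs₂, hs₂D⟩ := mem_image.1 hD'
          rw [As_kill χ hχ hML (hs₂D ▸ (hS' s₂ hs₂).2.2.2) hdvd (fun h h' e => sw_congr e),
            mul_zero]
    have h3 : ∑ s ∈ S, c s * (As L χ (fun k => sw s.1 (q' s * k)) +
        As L χ (fun k => sw s.2 (p' s * k))) =
        (∑ r ∈ R, c (r, M) * χ (r : ZMod M)) * As L χ (sw M) := by
      have h4 : ∑ s ∈ S, c s * (As L χ (fun k => sw s.1 (q' s * k)) +
          As L χ (fun k => sw s.2 (p' s * k))) =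
          ∑ s ∈ S, if s.2 = M then c s * (χ (s.1 : ZMod M) * As L χ (sw M)) else 0 := by
        refine sum_congr rfl fun s hs => ?_
        have hle := hmax s hs
        obtain ⟨a1, a2, a3, a4, a5, a6, a7⟩ := hS s hs
        rw [As_kill χ hχ hML ((Dvd.intro s.2 rfl).trans a6)
          (fun h => by have := Nat.le_of_dvd (by omega) h; omega) sw_comp, zero_add]
        split_ifs with h5
        · congr 1
          have h6 := hp' s hs
          rw [h5] at h6
          have hcop' : (p' s).Coprime M := by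
            have : (s.1 * p' s).Coprime M := cop_of_modEq h6 (Nat.coprime_one_left M)
            exact Nat.Coprime.coprime_mul_left this
          have h7 := As_self χ hML (g := sw M) (fun h h' e => sw_congr e) hcop'
          have h8 : χ (s.1 : ZMod M) * χ ((p' s : ℕ) : ZMod M) = 1 := by
            rw [← map_mul]
            have := natcast_congr h6
            push_cast at this
            rw [this, map_one]
          rw [h5, ← h7, ← mul_assoc, h8, one_mul]
        · rw [As_kill χ hχ hML ((Dvd.intro_left s.1 rfl).trans a6)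
            (fun h => by have := Nat.le_of_dvd (by omega) h; omega) sw_comp, mul_zero]
      rw [h4, ← Finset.sum_filter, hR, Finset.sum_image, sum_mul]
      · refine sum_congr rfl fun s hs => ?_
        have h5 := (mem_filter.1 hs).2
        have h6 : (s.1, M) = s := by rw [← h5]
        rw [h6]; ring
      · intro s hs s' hs' he
        have h5 := (mem_filter.1 hs).2
        have h6 := (mem_filter.1 hs').2
        exact Prod.ext he (h5.trans h6.symm)
    rw [h2, h3, ← sub_eq_zero, ← sub_mul] at h1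
    exact (mul_eq_zero.1 h1).resolve_right hA
  -- the sum over the splittings of `r M` has one term
  have hfin : (IsPrimePow M ∨ (IsPrimePow r ∧ ¬ ∃ l : ℕ, l.Prime ∧ r < l ^ M.factorization l)) →
      False := by
    intro h
    have h1 := only_one (M := M) (r := r) (S := S)
      (fun s hs => ⟨(hS s hs).1, (hS s hs).2.1, (hS s hs).2.2.2.2.1, (hS s hs).2.2.2.2.2.2⟩)
      hmax hrS h
    have h2 : C (r * M) = c (r, M) := by
      simp only [hC]
      have : S.filter (fun s => s.1 * s.2 = r * M) = {(r, M)} := by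
        ext s
        rw [mem_filter, mem_singleton]
        constructor
        · rintro ⟨h3, h4⟩; exact h1 s h3 h4
        · rintro rfl; exact ⟨hrS, rfl⟩
      rw [this, sum_singleton]
    have h3 : M < r * M := by nlinarith
    rw [hC0 _ h3] at h2
    exact hc _ hrS h2.symm
  by_cases hMpp : IsPrimePow M
  · exact hfin (Or.inl hMpp)
  by_cases hlarge : ∃ l : ℕ, l.Prime ∧ r < l ^ M.factorization l
  · obtain ⟨l, hl, hlt⟩ := hlarge
    have hfac : M.factorization l ≠ 0 := by
      intro h; rw [h, pow_zero] at hlt; omega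
    have hlM : l ∈ M.primeFactors := by
      rw [← Nat.support_factorization, Finsupp.mem_support_iff]; exact hfac
    have hne : M ≠ l ^ M.factorization l := by
      intro h
      apply hMpp
      rw [h]
      exact hl.isPrimePow.pow hfac
    have h1r : 1 ∉ R := by
      intro h
      have := (hS _ ((hmemR 1).1 h)).2.2.2.2.1
      simp only at this
      omega
    have key := lemP (f := M) (l := l) (q := r) b4 hlM hne b3 hlt b2 (insert 1 R)
      (mem_insert_of_mem hr) ?_ (fun m => if m = 1 then C M else - c (m, M)) ?_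
    · rw [if_neg (by omega), neg_eq_zero] at key
      exact hc _ hrS key
    · intro m hm
      rcases mem_insert.1 hm with rfl | hm
      · exact ⟨odd_one, by omega, Nat.coprime_one_left M⟩
      · obtain ⟨d1, d2, d3, d4, d5, d6, d7⟩ := hS _ ((hmemR m).1 hm)
        exact ⟨d3, hrmax m hm, d2⟩
    · intro χ hχ hχo
      rw [Finset.sum_insert h1r]
      have h1 := hlevel χ hχ hχo
      simp only [if_true]
      rw [Nat.cast_one, map_one, mul_one]
      have h2 : ∑ x ∈ R, (if x = 1 then C M else -c (x, M)) * χ (x : ZMod M) =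
          - ∑ r ∈ R, c (r, M) * χ (r : ZMod M) := by
        rw [← sum_neg_distrib]
        refine sum_congr rfl fun x hx => ?_
        rw [if_neg (by rintro rfl; exact h1r hx)]; ring
      rw [h2, ← sub_eq_add_neg]
      exact h1
  · rcases b7 with h | h | h
    · exact hfin (Or.inr ⟨h, hlarge⟩)
    · exact hMpp h
    · exact hlarge h

end Pool.Agent.H80.Sig
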